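import Pool.Agent.P.MP_3fd745_al.Sv.Main

/-! The normal hull of a subnormal radical subgroup, and solvable quotients. -/

namespace Pool.Agent.P.MP_3fd745_al.Sv

open Polynomial

section
variable {G : Type} [Group G]

/-- radical over the center -/
def Rad (A : Subgroup G) : Prop := ∀ x ∈ A, ∃ n : ℕ, 0 < n ∧ x ^ n ∈ Subgroup.center G

lemma Rad.sup {A B : Subgroup G} (hA : Rad A) (hB : Rad B)
    (h : ∀ a ∈ A, ∀ b ∈ B, a * b * a⁻¹ ∈ B) : Rad (A ⊔ B) := by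
  intro x hx
  have hle : A ≤ Subgroup.normalizer B := fun a ha => Subgroup.mem_normalizer_iff.2 fun b =>
    ⟨h a ha b, fun hb => by simpa [mul_assoc] using h a⁻¹ (A.inv_mem ha) _ hb⟩
  rw [← SetLike.mem_coe, Subgroup.coe_mul_of_left_le_normalizer_right _ _ hle] at hx
  obtain ⟨a, ha, b, hb, rfl⟩ := hx
  have key : ∀ n : ℕ, (a ^ n)⁻¹ * (a * b) ^ n ∈ B := fun n => by
    induction n with
    | zero => simp
    | succ n ih =>
      have := B.mul_mem (h a⁻¹ (A.inv_mem ha) _ ih) hb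
      simpa [pow_succ, mul_assoc] using this
  obtain ⟨n, hn, e⟩ := hA a ha
  obtain ⟨m, hm, e'⟩ := hB _ (key n)
  refine ⟨n * m, Nat.mul_pos hn hm, ?_⟩
  have hc : Commute (a ^ n) ((a ^ n)⁻¹ * (a * b) ^ n) := (Subgroup.mem_center_iff.1 e _).symm
  have := Subgroup.mul_mem _ (Subgroup.pow_mem _ e m) e'
  rwa [← hc.mul_pow, mul_inv_cancel_left, ← pow_mul] at this

lemma exists_hull (N : Subgroup G)
    (hN : ∃ (k : ℕ) (H : ℕ → Subgroup G), H 0 = N ∧ H k = ⊤ ∧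
      ∀ i, i < k → H i ≤ H (i + 1) ∧ ((H i).subgroupOf (H (i + 1))).Normal) (hrad : Rad N) :
    ∃ M : Subgroup G, M.Normal ∧ N ≤ M ∧ Subgroup.center G ≤ M ∧ Rad M := by
  obtain ⟨k, H, h0, hk, hH⟩ := hN
  have key : ∀ i ≤ k, ∃ A : Subgroup G, N ≤ A ∧ A ≤ H i ∧ Rad A ∧
      ∀ g ∈ H i, ∀ a ∈ A, g * a * g⁻¹ ∈ A := by
    intro i hi
    induction i with
    | zero => exact ⟨N, le_rfl, h0.ge, hrad, fun g hg a ha =>
        N.mul_mem (N.mul_mem (h0 ▸ hg) ha) (N.inv_mem (h0 ▸ hg))⟩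
    | succ i ih =>
      obtain ⟨A, h1, h2⟩ := ih (by omega)
      obtain ⟨hle, hn⟩ := hH i (by omega)
      have hc : ∀ g ∈ H (i + 1), ∀ a ∈ H i, g * a * g⁻¹ ∈ H i := fun g hg a ha =>
        Subgroup.mem_subgroupOf.1 (hn.conj_mem ⟨a, hle ha⟩ (Subgroup.mem_subgroupOf.2 ha) ⟨g, hg⟩)
      let K := {B : Subgroup G | B ≤ H i ∧ Rad B ∧ ∀ g ∈ H i, ∀ a ∈ B, g * a * g⁻¹ ∈ B}
      have hd : DirectedOn (· ≤ ·) K := fun B hB B' hB' =>
        ⟨B ⊔ B', ⟨sup_le hB.1 hB'.1, hB.2.1.sup hB'.2.1 fun a ha => hB'.2.2 a (hB.1 ha),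
          fun g hg a ha => (sup_le (fun b hb => Subgroup.mem_sup_left (hB.2.2 g hg b hb))
            (fun b hb => Subgroup.mem_sup_right (hB'.2.2 g hg b hb)) :
              B ⊔ B' ≤ (B ⊔ B').comap (MulAut.conj g).toMonoidHom) ha⟩, le_sup_left, le_sup_right⟩
      refine ⟨sSup K, h1.trans (le_sSup h2), (sSup_le fun B hB => hB.1).trans hle, fun x hx => ?_,
        fun g hg a ha => ?_⟩
      · obtain ⟨B, hB, hx⟩ := (Subgroup.mem_sSup_of_directedOn ⟨A, h2⟩ hd).1 hx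
        exact hB.2.1 x hx
      · obtain ⟨B, hB, ha⟩ := (Subgroup.mem_sSup_of_directedOn ⟨A, h2⟩ hd).1 ha
        refine le_sSup (s := K) (a := B.map (MulAut.conj g).toMonoidHom) ⟨?_, ?_, ?_⟩ ⟨a, ha, rfl⟩
        · rintro _ ⟨b, hb, rfl⟩
          exact hc g hg b (hB.1 hb)
        · rintro _ ⟨b, hb, rfl⟩
          obtain ⟨n, hn, e⟩ := hB.2.1 b hb
          exact ⟨n, hn, by rw [← map_pow]; exact Subgroup.Normal.conj_mem inferInstance _ e g⟩
        · rintro h hh _ ⟨b, hb, rfl⟩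
          exact ⟨_, hB.2.2 _ (hc g⁻¹ (inv_mem hg) h hh) b hb, by simp [mul_assoc]⟩
  obtain ⟨A, h1, -, h3, h4⟩ := key k le_rfl
  have : A.Normal := ⟨fun a ha g => h4 g (hk ▸ trivial) a ha⟩
  exact ⟨A ⊔ Subgroup.center G, inferInstance, h1.trans le_sup_left, le_sup_right,
    h3.sup (fun x hx => ⟨1, one_pos, by simpa using hx⟩)
      fun a _ b hb => Subgroup.Normal.conj_mem inferInstance b hb a⟩

end

variable {D : Type} [DivisionRing D]

lemma mem_center_units (x : Dˣ) : x ∈ Subgroup.center Dˣ ↔ (x : D) ∈ Subring.center D := by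
  rw [Subgroup.mem_center_iff, Subring.mem_center_iff]
  refine ⟨fun h y => ?_, fun h y => Units.ext (h y)⟩
  by_cases hy : y = 0
  · simp [hy]
  · exact congrArg Units.val (h (Units.mk0 y hy))

lemma odd_rad (M : Subgroup Dˣ) [hM : M.Normal] {k : ℕ}
    (H : Hyp k (fun x : D => ∃ g ∈ M, (g : D) = x)) (n : ℕ) :
    ∀ m ∈ M, (n : D) ≠ 0 → (∀ z, (m : D) ^ n * z = z * (m : D) ^ n) →
      ∃ d : ℕ, Odd d ∧ m ^ d ∈ Subgroup.center Dˣ := by
  induction n using Nat.strong_induction_on with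
  | _ n ih =>
  intro m hm hn hc
  rcases Nat.even_or_odd n with ⟨e, rfl⟩ | ho
  · rw [← two_mul, Nat.cast_mul] at hn
    have he := right_ne_zero_of_mul hn
    refine ih e (by have : e ≠ 0 := by rintro rfl; simp at he
                    omega) m hm he fun z => ?_
    simpa using base_sq M H (by simpa using left_ne_zero_of_mul hn) (m ^ e) (M.pow_mem hm e)
      (fun z => by simpa [sq, ← pow_add] using hc z) z
  · exact ⟨n, ho, (mem_center_units _).2 (Subring.mem_center_iff.2 fun z => by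
      simpa using (hc z).symm)⟩

theorem odd_of_noncentral (M : Subgroup Dˣ) [hM : M.Normal] (hrad : Rad M)
    (hF : Subgroup.center Dˣ ≤ M) (a : Dˣ) (ha : a ∈ M) (hac : a ∉ Subgroup.center Dˣ) (r : ℕ)
    (x : Dˣ) : ∃ k : ℕ, Odd k ∧ x ^ k ∈ derivedSeries Dˣ r ⊔ Subgroup.center Dˣ := by
  have hrad' : ∀ x ∈ M, ∃ n : ℕ, 0 < n ∧ ((x : Dˣ) : D) ^ n ∈ Subring.center D := fun x hx =>
    (hrad x hx).imp fun n h => ⟨h.1, by simpa using (mem_center_units _).1 h.2⟩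
  have hN : ∃ (k : ℕ) (H : ℕ → Subgroup Dˣ), H 0 = M ∧ H k = ⊤ ∧
      ∀ i, i < k → H i ≤ H (i + 1) ∧ ((H i).subgroupOf (H (i + 1))).Normal :=
    ⟨1, fun i => if i = 0 then M else ⊤, rfl, rfl, fun i hi => by
      obtain rfl : i = 0 := by omega
      exact ⟨le_top, hM.subgroupOf _⟩⟩
  rw [mem_center_units] at hac
  have hno : ∀ V : Subring D, (∀ x, x ∈ V ∨ x⁻¹ ∈ V) → ∀ x, x ∈ V := fun V hV x => by
    by_contra hx
    exact hac (Subring.mem_center_iff.2 fun y =>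
      (main M hN hrad' ⊤ V (fun x _ => hV x) ⟨x, trivial, hx⟩ a ha trivial y trivial).symm)
  let K := derivedSeries Dˣ r ⊔ M
  have hs := QuotientGroup.mk'_surjective K
  have hT : TON (Dˣ ⧸ K) := by
    refine ton_of_solv hno r _ (QuotientGroup.mk' K) hs ?_ fun g => ?_
    · rw [← map_derivedSeries_eq hs, Subgroup.map_eq_bot_iff, QuotientGroup.ker_mk']
      exact (Subgroup.commutator_le_left _ _).trans le_sup_left
    · obtain ⟨g, rfl⟩ := hs g
      obtain ⟨n, hn, e⟩ := base_odd M hrad' (fun x hx => hF ((mem_center_units x).2 hx))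
        ⟨a, ha, hac⟩ (Abelianization.of.comp (QuotientGroup.mk' K))
        (fun m hm => (congrArg Abelianization.of ((QuotientGroup.eq_one_iff (N := K) m).2
          (Subgroup.mem_sup_right hm))).trans (map_one _)) g
      refine ⟨n, hn, ?_⟩
      rw [← Abelianization.ker_of, MonoidHom.mem_ker, map_pow]
      exact e
  obtain ⟨n, hn, e⟩ := hT.odd (QuotientGroup.mk' K x)
  rw [← map_pow] at e
  obtain ⟨y, hy, m, hm, e'⟩ := Subgroup.mem_sup_of_normal_right.1 ((QuotientGroup.eq_one_iff _).1 e)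
  obtain ⟨k, H⟩ := hyp_of M hN hrad'
  obtain ⟨j, hj, hc⟩ := H.cop _ ⟨m, hm, rfl⟩
  obtain ⟨d, hd, e''⟩ := odd_rad M H j m hm hj hc
  refine ⟨n * d, hn.mul hd, ?_⟩
  rw [← QuotientGroup.eq_one_iff, pow_mul, ← e', QuotientGroup.mk_pow, QuotientGroup.mk_mul,
    (QuotientGroup.eq_one_iff y).2 (Subgroup.mem_sup_left hy), one_mul, ← QuotientGroup.mk_pow,
    QuotientGroup.eq_one_iff]
  exact Subgroup.mem_sup_right e''

theorem main_quot (N : Subgroup Dˣ)
    (hN : ∃ (k : ℕ) (H : ℕ → Subgroup Dˣ), H 0 = N ∧ H k = ⊤ ∧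
      ∀ i, i < k → H i ≤ H (i + 1) ∧ ((H i).subgroupOf (H (i + 1))).Normal)
    (hrad : ∀ x ∈ N, ∃ n : ℕ, 0 < n ∧ ((x : Dˣ) : D) ^ n ∈ Subring.center D)
    (E : Subfield D) (n : ℕ) (x : Eˣ)
    (hx : ∀ k : ℕ, Odd k → x ^ k ∉ derivedSeries Eˣ n ⊔ Subgroup.center Eˣ)
    (a : Dˣ) (ha : a ∈ N) (haE : (a : D) ∈ E) (y : D) (hy : y ∈ E) : a * y = y * a := by
  obtain ⟨k, H, h0, hk, hH⟩ := hN
  let f : Eˣ →* Dˣ := Units.map E.subtype.toMonoidHom
  obtain ⟨M, hM, h1, h2, h3⟩ := exists_hull (N.comap f)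
    ⟨k, fun i => (H i).comap f, by simp only [h0], by simp [hk], fun i hi =>
      ⟨Subgroup.comap_mono (hH i hi).1, ⟨fun b hb g => by
        have := (hH i hi).2.conj_mem ⟨f b, b.2⟩ hb ⟨f g, g.2⟩
        simpa [Subgroup.mem_subgroupOf] using this⟩⟩⟩ (fun b hb => by
      obtain ⟨m, hm, e⟩ := hrad _ hb
      exact ⟨m, hm, (mem_center_units _).2 (Subring.mem_center_iff.2 fun z =>
        Subtype.ext (by simpa [f] using Subring.mem_center_iff.1 e z))⟩)
  let a' : Eˣ := Units.mk0 ⟨a, haE⟩ fun h => a.ne_zero (congrArg Subtype.val h)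
  by_contra hc
  obtain ⟨j, hj, e⟩ := odd_of_noncentral M h3 h2 a' (h1 (show f a' ∈ N from by
    rwa [show f a' = a from Units.ext rfl])) (fun h => hc (congrArg Subtype.val
      (Subring.mem_center_iff.1 ((mem_center_units _).1 h) ⟨y, hy⟩)).symm) n x
  exact hx j hj e

end Pool.Agent.P.MP_3fd745_al.Sv
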