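import Pool.Agent.P.MP_3fd745_al.TrC
import Pool.Agent.P.MP_3fd745_al.Sv.Def

namespace Pool.Agent.P.MP_3fd745_al.Sv

open scoped commutatorElement
open Polynomial

variable {D : Type} [DivisionRing D]

lemma base_sq (M : Subgroup Dˣ) [hM : M.Normal] {k : ℕ}
    (H : Hyp k (fun x : D => ∃ g ∈ M, (g : D) = x)) (h2 : (2 : D) ≠ 0) (m : Dˣ) (hm : m ∈ M)
    (hc : ∀ z, (m : D) ^ 2 * z = z * (m : D) ^ 2) (x : D) : (m : D) * x = x * m := by
  have hm0 := m.ne_zero
  rw [← cj_eq_iff _ hm0]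
  by_contra hne
  have e : cj (m : D) hm0 (cj (m : D) hm0 x) = x := by
    have := cj_iter (m : D) hm0 2 x
    rwa [(cj_eq_iff _ _ _).2 (hc x)] at this
  obtain ⟨y, hy⟩ : ∃ y, y = x - cj (m : D) hm0 x := ⟨_, rfl⟩
  have hy0 : y ≠ 0 := fun h => hne (sub_eq_zero.1 (hy ▸ h)).symm
  have hφ : cj (m : D) hm0 y = -y := by rw [hy, map_sub, e, neg_sub]
  have hp : cj (m : D) hm0 (1 + y) = 1 - y := by rw [map_add, map_one, hφ, sub_eq_add_neg]
  have hn : cj (m : D) hm0 (1 - y) = 1 + y := by rw [map_sub, map_one, hφ, sub_neg_eq_add]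
  have h1 : 1 + y ≠ 0 := fun h => h2 (by
    rw [h, map_zero] at hp
    rw [← one_add_one_eq_two]
    rwa [← sub_eq_zero.1 hp.symm] at h)
  have h1' : 1 - y ≠ 0 := hp ▸ (_root_.map_ne_zero _).2 h1
  obtain ⟨c, hcd⟩ : ∃ c, c = (1 - y) * (1 + y)⁻¹ := ⟨_, rfl⟩
  have hP : ∃ g ∈ M, (g : D) = c :=
    ⟨m * (Units.mk0 _ h1 * m⁻¹ * (Units.mk0 _ h1)⁻¹), mul_mem hm (hM.conj_mem _ (inv_mem hm) _), by
      rw [hcd, ← hp, cj_apply]; simp [mul_assoc]⟩
  have hc0 := H.h0 c hP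
  have hi : cj (m : D) hm0 c = c⁻¹ := by
    rw [hcd, map_mul, map_inv₀, hp, hn, mul_inv_rev, inv_inv]
  obtain ⟨n, hn0, hcn⟩ := H.hrad c hP
  have h3 : c ^ (n + n) = 1 := by
    have := (cj_eq_iff _ hm0 _).2 (hcn m).symm
    rw [map_pow, hi, inv_pow] at this
    rw [pow_add]
    nth_rewrite 1 [← this]
    exact inv_mul_cancel₀ (pow_ne_zero _ hc0)
  have h4 := (cj_eq_iff _ hm0 _).2 (torsion_central H c hP _ (by omega) h3 m).symm
  have h5 : c * c = 1 := by
    nth_rewrite 1 [← h4]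
    rw [hi, inv_mul_cancel₀ hc0]
  have h6 : 1 - y = c * (1 + y) := by rw [hcd, inv_mul_cancel_right₀ h1]
  rcases mul_self_eq_one_iff.1 h5 with h | h
  · rw [h, one_mul, sub_eq_add_neg, add_right_inj] at h6
    exact mul_ne_zero h2 hy0 (by rw [two_mul]; nth_rewrite 1 [← h6]; exact neg_add_cancel y)
  · rw [h, neg_one_mul, neg_add', sub_left_inj] at h6
    exact h2 (by rw [← one_add_one_eq_two]; nth_rewrite 1 [h6]; exact neg_add_cancel 1)

lemma base_wedd {A : Type} [CommGroup A] (χ : Dˣ →* A) (m : D)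
    (hm : IsIntegral (Subring.center D) m) (v : Dˣ) (hv : (v : D) = 1 - m) :
    ∃ u : Dˣ, (u : D) = algebraMap _ D ((minpoly (Subring.center D) m).eval 1) ∧
      χ u = χ v ^ (minpoly (Subring.center D) m).natDegree := by
  set f := minpoly (Subring.center D) m with hf
  have hfm : f.Monic := minpoly.monic hm
  have key : ∀ r ≤ f.natDegree, ∃ g h : D[X], g * h = f.map (algebraMap _ D) ∧ h.Monic ∧
      h.natDegree = r ∧ ∃ u : Dˣ, (u : D) = h.eval 1 ∧ χ u = χ v ^ r := by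
    intro r hr
    induction r with
    | zero => exact ⟨_, 1, mul_one _, monic_one, natDegree_one, 1, by simp, by simp⟩
    | succ r ih =>
      obtain ⟨g, h, e, h1, h2, u, h3, h5⟩ := ih (by omega)
      obtain ⟨x, hx⟩ : ∃ x, act m h x ≠ 0 := by
        by_contra hc
        have := act_indep m h h1.ne_zero (fun x => not_not.1 fun h' => hc ⟨x, h'⟩)
        rw [← hf] at this
        omega
      have h4 := act_map m x f (minpoly.aeval _ m)
      rw [← e, act_mul, act_eval m _ hx, mul_eq_zero, or_iff_left hx] at h4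
      obtain ⟨g', rfl⟩ := right_factor g _ h4
      refine ⟨g', _, by rw [← e, mul_assoc], (monic_X_sub_C _).mul h1, ?_,
        Units.mk0 _ hx * v * (Units.mk0 _ hx)⁻¹ * u, ?_, ?_⟩
      · rw [(monic_X_sub_C _).natDegree_mul h1, natDegree_X_sub_C, h2, add_comm]
      · have := eval_mul_cen (1 : Subring.center D)
          (X - C (act m h x * m * (act m h x)⁻¹)) h
        rw [map_one] at this
        rw [this, ← h3, eval_sub, eval_X, eval_C]
        simp [hv, mul_sub, sub_mul, hx]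
      · rw [map_mul, map_mul, map_mul, map_inv, mul_inv_cancel_comm, h5, pow_succ']
  obtain ⟨g, h, e, h1, h2, u, h3, h5⟩ := key _ le_rfl
  have hm2 := hfm.map (algebraMap (Subring.center D) D)
  have hg : g.Monic := by
    have := hm2.leadingCoeff
    rwa [← e, leadingCoeff_mul, h1.leadingCoeff, mul_one] at this
  have hd := hfm.natDegree_map (algebraMap (Subring.center D) D)
  rw [← e, hg.natDegree_mul h1, h2, add_eq_right, hg.natDegree_eq_zero] at hd
  rw [hd, one_mul] at e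
  exact ⟨u, by rw [h3, e, eval_one_map], h5⟩

lemma base_one (M : Subgroup Dˣ) [hM : M.Normal] {k : ℕ}
    (H : Hyp k (fun x : D => ∃ g ∈ M, (g : D) = x))
    (hF : ∀ x : Dˣ, (x : D) ∈ Subring.center D → x ∈ M)
    {A : Type} [CommGroup A] (χ : Dˣ →* A) (hχ : ∀ m ∈ M, χ m = 1) (m : Dˣ) (hm : m ∈ M)
    (v : Dˣ) (hv : (v : D) = 1 - m) : ∃ n : ℕ, Odd n ∧ χ v ^ n = 1 := by
  obtain ⟨hi, d, ν, hd, e⟩ := minpoly_binom H (m : D) ⟨m, hm, rfl⟩
  obtain ⟨u, h1, h2⟩ := base_wedd χ (m : D) hi v hv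
  rw [e, natDegree_X_pow_sub_C] at h2
  refine ⟨d, ?_, h2 ▸ hχ u (hF u (h1 ▸ Subtype.prop _))⟩
  rw [← Nat.not_even_iff_odd]
  rintro ⟨t, rfl⟩
  rw [← two_mul, Nat.cast_mul] at hd
  have ht : t ≠ 0 := by rintro rfl; simp at hd
  have h3 := minpoly.aeval (Subring.center D) (m : D)
  rw [e, map_sub, map_pow, aeval_X, aeval_C, sub_eq_zero] at h3
  have h4 : (m : D) ^ t ∈ Subring.center D := Subring.mem_center_iff.2 fun z =>
    (base_sq M H (by simpa using left_ne_zero_of_mul hd) (m ^ t) (pow_mem hm t) (fun z => by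
      rw [Units.val_pow_eq_pow_val, ← pow_mul, mul_two, h3]; exact Algebra.commutes ν z) z).symm
  have := natDegree_le_natDegree (minpoly.min (Subring.center D) (m : D)
    (monic_X_pow_sub_C (⟨_, h4⟩ : Subring.center D) ht) (by simp; exact sub_self _))
  rw [e, natDegree_X_pow_sub_C, natDegree_X_pow_sub_C] at this
  omega

theorem base_odd (M : Subgroup Dˣ) [M.Normal]
    (hrad : ∀ x ∈ M, ∃ n : ℕ, 0 < n ∧ ((x : Dˣ) : D) ^ n ∈ Subring.center D)
    (hF : ∀ x : Dˣ, (x : D) ∈ Subring.center D → x ∈ M)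
    (hnc : ∃ g ∈ M, ((g : Dˣ) : D) ∉ Subring.center D)
    {A : Type} [CommGroup A] (χ : Dˣ →* A) (hχ : ∀ m ∈ M, χ m = 1) (g : Dˣ) :
    ∃ n : ℕ, Odd n ∧ χ g ^ n = 1 := by
  have hM : M.Normal := inferInstance
  obtain ⟨k, H⟩ := hyp_of M ⟨1, fun i => if i = 0 then M else ⊤, rfl, rfl, fun i hi => by
    obtain rfl : i = 0 := by omega
    exact ⟨le_top, hM.subgroupOf _⟩⟩ hrad
  let T : Subgroup Dˣ :=
    { carrier := {g | ∃ n : ℕ, Odd n ∧ χ g ^ n = 1}
      mul_mem' := by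
        rintro a b ⟨n, hn, e⟩ ⟨n', hn', e'⟩
        exact ⟨n * n', hn.mul hn', by
          rw [map_mul, mul_pow, pow_mul, e, mul_comm n, pow_mul, e', one_pow, one_pow, one_mul]⟩
      one_mem' := ⟨1, odd_one, by simp⟩
      inv_mem' := by
        rintro a ⟨n, hn, e⟩
        exact ⟨n, hn, by rw [map_inv, inv_pow, e, inv_one]⟩ }
  obtain ⟨a, ha, hac⟩ := hnc
  have h1 : ∀ y w : Dˣ, (w : D) = a * y - y * a → w * y⁻¹ ∈ T := fun y w hw => by
    have e : w * y⁻¹ = w * y⁻¹ * a⁻¹ * a := by simp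
    rw [e]
    refine T.mul_mem (base_one M H hF χ hχ (y * a * y⁻¹ * a⁻¹)
      (mul_mem (hM.conj_mem _ ha _) (inv_mem ha)) _ ?_) ⟨1, odd_one, by simp [hχ a ha]⟩
    simp [hw, sub_mul]
  have h2 : ∀ x : Dˣ, ¬ Commute (a : D) x → x ∈ T := fun x hx => by
    have hx1 : (x : D) - 1 ≠ 0 := fun h => hx (sub_eq_zero.1 h ▸ Commute.one_right _)
    have hw : (a : D) * ((x : D) - 1)⁻¹ - ((x : D) - 1)⁻¹ * a ≠ 0 := fun h => hx (by
      have := (Commute.inv_right₀ (sub_eq_zero.1 h)).add_right (Commute.one_right (a : D))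
      simpa using this)
    have e : (x : D) * ((x : D) - 1)⁻¹ = ((x : D) - 1)⁻¹ + 1 := by
      rw [← sub_eq_iff_eq_add', ← sub_one_mul, mul_inv_cancel₀ hx1]
    have := T.mul_mem (T.inv_mem (h1 (x * (Units.mk0 _ hx1)⁻¹) (Units.mk0 _ hw) (by
      simp [e, mul_add, add_mul]))) (h1 (Units.mk0 _ hx1)⁻¹ (Units.mk0 _ hw) (by simp))
    simpa [mul_assoc] using this
  by_cases hg : Commute (a : D) g
  · obtain ⟨z, hz⟩ := not_forall.1 fun h => hac (Subring.mem_center_iff.2 h)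
    have hz0 : z ≠ 0 := by rintro rfl; simp at hz
    have := T.mul_mem (h2 (g * Units.mk0 z hz0) fun h => hz ?_)
      (T.inv_mem (h2 (Units.mk0 z hz0) fun h => hz h.symm))
    · rw [mul_inv_cancel_right] at this
      exact this
    · simpa using (hg.inv_right₀.mul_right h).symm.eq
  · exact h2 g hg

end Pool.Agent.P.MP_3fd745_al.Sv
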