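import Pool.Agent.P.MP_3fd745_al.Sv.FarT

namespace Pool.Agent.P.MP_3fd745_al.Sv

open scoped commutatorElement

variable {Γ V : Type} [Group Γ] [AddCommGroup V]

/-- the norm operator -/
noncomputable def caseoneN (ρ : Γ →* Module.End ℤ V) (c : Γ) : Module.End ℤ V :=
  ∑ i ∈ Finset.range (orderOf c), ρ c ^ i

lemma caseone_conjN (ρ : Γ →* Module.End ℤ V) (g c : Γ) :
    ρ g * caseoneN ρ c * ρ g⁻¹ = caseoneN ρ (g * c * g⁻¹) := by
  have h : orderOf (g * c * g⁻¹) = orderOf c :=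
    ((show SemiconjBy g c (g * c * g⁻¹) by simp [SemiconjBy]).orderOf_eq g).symm
  rw [caseoneN, caseoneN, h, Finset.mul_sum, Finset.sum_mul]
  exact Finset.sum_congr rfl fun i _ => by
    rw [← map_pow, ← map_pow, conj_pow, map_mul, map_mul]

lemma caseone_conj (ρ : Γ →* Module.End ℤ V) (g c : Γ) :
    ρ g * (ρ c - 1) * ρ g⁻¹ = ρ (g * c * g⁻¹) - 1 := by
  rw [mul_sub, sub_mul, mul_one, ← map_mul ρ g g⁻¹, mul_inv_cancel, map_one, map_mul, map_mul]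

lemma caseone_kill (ρ : Γ →* Module.End ℤ V) (c : Γ) (v : V) :
    caseoneN ρ c ((ρ c - 1) v) = 0 ∧ (ρ c - 1) (caseoneN ρ c v) = 0 := by
  have h : ρ c ^ orderOf c - 1 = 0 := by rw [← map_pow, pow_orderOf_eq_one, map_one, sub_self]
  exact ⟨LinearMap.congr_fun ((geom_sum_mul _ _).trans h) v,
    LinearMap.congr_fun ((mul_geom_sum _ _).trans h) v⟩

lemma caseone_zero (ρ : Γ →* Module.End ℤ V) {l : ℕ} (hl : l.Prime) (hlV : ∀ v : V, l • v = 0)
    {c : Γ} (hc : ¬ l ∣ orderOf c) {v : V} (h1 : (ρ c - 1) v = 0) (h2 : caseoneN ρ c v = 0) :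
    v = 0 := by
  have h3 : ∀ i : ℕ, (ρ c ^ i) v = v := fun i => by
    induction i with
    | zero => rfl
    | succ i ih => rw [pow_succ, Module.End.mul_apply, sub_eq_zero.1 h1]; exact ih
  rw [caseoneN, LinearMap.sum_apply, Finset.sum_congr rfl fun i _ => h3 i, Finset.sum_const,
    Finset.card_range] at h2
  exact AddMonoid.addOrderOf_eq_one_iff.1 (Nat.eq_one_of_dvd_coprimes
    ((Nat.Prime.coprime_iff_not_dvd hl).2 hc) (addOrderOf_dvd_of_nsmul_eq_zero (hlV v))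
    (addOrderOf_dvd_of_nsmul_eq_zero h2))

theorem case_one (ρ : Γ →* Module.End ℤ V) (hodd : ∀ g : Γ, ∃ n : ℕ, Odd n ∧ g ^ n = 1)
    (hinj : Function.Injective ρ) (hS : Simp ρ) (l : ℕ) (hl : l.Prime) (hlV : ∀ v : V, l • v = 0)
    (B : Subgroup Γ) (hB : AN B) (hcop : ∀ b ∈ B, ¬ l ∣ orderOf b) (b : Γ) (hb : b ∈ B)
    (hb1 : b ≠ 1) (v : V) (hv : v ≠ 0) (hbv : ρ b v = v) : ¬ Tri ρ := by
  classical
  intro hT
  let C : Set (Module.End ℤ V) := {α | ∃ c ∈ B, α = ρ c - 1 ∨ α = caseoneN ρ c}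
  have m1 : ∀ c ∈ B, ρ c - 1 ∈ C := fun c hc => ⟨c, hc, Or.inl rfl⟩
  have m2 : ∀ c ∈ B, caseoneN ρ c ∈ C := fun c hc => ⟨c, hc, Or.inr rfl⟩
  have k1 : ∀ α ∈ C, ∀ f : Module.End ℤ V, (∀ c ∈ B, Commute (ρ c) f) → Commute α f := by
    rintro _ ⟨c, hc, rfl | rfl⟩ f hf
    · exact (hf c hc).sub_left (Commute.one_left f)
    · exact Commute.sum_left _ _ _ fun i _ => (hf c hc).pow_left i
  have hcom : ∀ α ∈ C, ∀ β ∈ C, Commute α β := fun α hα β hβ => k1 α hα β fun c hc =>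
    (k1 β hβ _ fun c' hc' => (hB.2 c' hc' c hc).map ρ).symm
  have hconj : ∀ g, ∀ α ∈ C, ρ g * α * ρ g⁻¹ ∈ C := by
    rintro g _ ⟨c, hc, rfl | rfl⟩
    · exact caseone_conj ρ g c ▸ m1 _ (hB.1.conj_mem c hc g)
    · exact caseone_conjN ρ g c ▸ m2 _ (hB.1.conj_mem c hc g)
  have h0 : (ρ b - 1) v = 0 := sub_eq_zero.2 hbv
  obtain ⟨g, w, w1, w2⟩ : ∃ g w, (ρ b - 1) w = 0 ∧ (ρ (g * b * g⁻¹) - 1) w ≠ 0 := by
    by_contra hc
    push Not at hc
    rcases hS (LinearMap.ker (ρ b - 1)) (fun g w hw => by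
      have := congrArg (ρ g) (hc g⁻¹ w hw)
      rw [← caseone_conj] at this
      simpa [rho_inv'] using this) with h | h
    · exact hv ((Submodule.eq_bot_iff _).1 h v h0)
    · exact hb1 (hinj ((sub_eq_zero.1 (LinearMap.ker_eq_top.1 h)).trans ρ.map_one.symm))
  have hb' := hB.1.conj_mem b hb g
  let Z : Finset B → Set V := fun T => {v | (v ≠ 0 ∧ (ρ b - 1) v = 0 ∧
    caseoneN ρ (g * b * g⁻¹) v = 0) ∧ ∀ c ∈ T, (ρ c - 1) v = 0 ∨ caseoneN ρ c v = 0}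
  have hZ : ∀ T, (Z T).Nonempty := fun T => by
    induction T using Finset.induction_on with
    | empty =>
      exact ⟨_, ⟨w2, by rw [comm_app (hcom _ (m1 _ hb) _ (m1 _ hb')), w1, map_zero],
        (caseone_kill ρ _ w).1⟩, by simp⟩
    | insert c T _ ih =>
      obtain ⟨y, ⟨y0, y1, y2⟩, y3⟩ := ih
      by_cases hy : caseoneN ρ c y = 0
      · exact ⟨y, ⟨y0, y1, y2⟩, Finset.forall_mem_insert _ _ _ |>.2 ⟨Or.inr hy, y3⟩⟩
      · have k : ∀ α ∈ C, α y = 0 → α (caseoneN ρ c y) = 0 := fun α hα h => by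
          rw [comm_app (hcom _ hα _ (m2 _ c.2)), h, map_zero]
        exact ⟨_, ⟨hy, k _ (m1 _ hb) y1, k _ (m2 _ hb') y2⟩, Finset.forall_mem_insert _ _ _ |>.2
          ⟨Or.inl (caseone_kill ρ _ y).2, fun d hd =>
            (y3 d hd).imp (k _ (m1 _ d.2)) (k _ (m2 _ d.2))⟩⟩
  have : (⨅ T, Filter.principal (Z T)).NeBot := Filter.iInf_neBot_of_directed'
    (Antitone.directed_ge fun T T' h => Filter.principal_mono.2 fun y hy =>
      ⟨hy.1, fun c hc => hy.2 c (Finset.mem_of_subset h hc)⟩) fun T => Filter.principal_neBot_iff.2 (hZ T)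
  let U := Ultrafilter.of (⨅ T, Filter.principal (Z T))
  have hU : ∀ T, ∀ᶠ y in (U : Filter V), y ∈ Z T := fun T =>
    Filter.le_principal_iff.1 ((Ultrafilter.of_le _).trans (iInf_le _ T))
  let P : Γ → Prop := fun c => ∀ᶠ y in (U : Filter V), (ρ c - 1) y = 0
  have hP : ∀ c ∈ B, ¬ P c → ∀ᶠ y in (U : Filter V), caseoneN ρ c y = 0 := fun c hc h => by
    filter_upwards [Ultrafilter.eventually_not.2 h, hU {⟨c, hc⟩}] with y y1 y2
    exact (y2.2 _ (Finset.mem_singleton_self _)).resolve_left y1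
  let S : Subgroup Γ :=
    { carrier := {t | ∀ c ∈ B, P c ↔ P (t * c * t⁻¹)}
      one_mem' := fun c _ => by simp
      mul_mem' := fun {s t} hs ht c hc => by
        rw [ht c hc, hs _ (hB.1.conj_mem c hc t)]
        simp [mul_assoc]
      inv_mem' := fun {t} ht c hc => by
        rw [ht _ (hB.1.conj_mem c hc t⁻¹)]
        simp [mul_assoc] }
  have hg : g ∉ S := fun h => by
    obtain ⟨y, y1, y2⟩ := (((h b hb).1 ((hU ∅).mono fun y hy => hy.1.2.1)).and (hU ∅)).exists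
    exact y2.1.1 (caseone_zero ρ hl hlV (hcop _ hb') y1 y2.1.2.2)
  have far : ∀ t, t ∉ S → ∀ᶠ y in (U : Filter V), Far C y (ρ t y) := fun t ht => by
    obtain ⟨c, hc, hn⟩ : ∃ c ∈ B, ¬ (P c ↔ P (t * c * t⁻¹)) := by
      by_contra h
      exact ht fun c hc => by_contra fun h' => h ⟨c, hc, h'⟩
    have hc' := hB.1.conj_mem c hc t
    have mk : ∀ α ∈ C, ∀ β ∈ C, (∀ v, α v = 0 → β v = 0 → v = 0) → ∀ y, α y = 0 →
        β (ρ t y) = 0 → Far C y (ρ t y) := fun α hα β hβ h y a a' f₁ h₁ f₂ h₂ =>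
      ⟨α, hα, β, hβ, a, a', hcom _ hα _ h₁, hcom _ hα _ h₂, hcom _ hβ _ h₁, hcom _ hβ _ h₂, h⟩
    have cj : ∀ (α : Module.End ℤ V) y, α y = 0 → (ρ t * α * ρ t⁻¹) (ρ t y) = 0 := fun α y h => by
      simp [h]
    by_cases h : P c
    · filter_upwards [h, hP _ hc' fun h' => hn ⟨fun _ => h', fun _ => h⟩] with y y1 y2
      exact mk _ (m2 _ hc') _ (m1 _ hc') (fun v a a' => caseone_zero ρ hl hlV (hcop _ hc') a' a)
        y y2 (caseone_conj ρ t c ▸ cj _ y y1)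
    · have h' : P (t * c * t⁻¹) := by_contra fun h' => hn ⟨fun a => absurd a h, fun a => absurd a h'⟩
      filter_upwards [h', hP _ hc h] with y y1 y2
      exact mk _ (m1 _ hc') _ (m2 _ hc') (fun v a a' => caseone_zero ρ hl hlV (hcop _ hc') a a')
        y y1 (caseone_conjN ρ t c ▸ cj _ y y2)
  obtain ⟨x, u, hxu, hx, hu, hxu', hR⟩ := hT S fun h => hg (h ▸ Subgroup.mem_top g)
  obtain ⟨y, y0, y1, y2, y3⟩ :=
    ((hU ∅).and ((far x hx).and ((far u hu).and (far _ hxu')))).exists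
  exact y0.1.1 (far_tri ρ hodd C ⟨_, m1 b hb⟩ hconj x u hxu hR y y1 y2 y3)

end Pool.Agent.P.MP_3fd745_al.Sv
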