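import Pool.Agent.P.MP_3fd745_al.Sv.Def

namespace Pool.Agent.P.MP_3fd745_al.Sv

open scoped commutatorElement

variable {Γ V : Type} [Group Γ] [AddCommGroup V]

lemma eigen_mul (ρ : Γ →* Module.End ℤ V) (g h : Γ) (v : V) : ρ (g * h) v = ρ g (ρ h v) := by
  rw [map_mul]; rfl

lemma eigen_norm (ρ : Γ →* Module.End ℤ V) {g : Γ} {q : ℕ} (hg : g ^ q = 1) (v : V) :
    ρ g (∑ i ∈ Finset.range q, ρ (g ^ i) v) = ∑ i ∈ Finset.range q, ρ (g ^ i) v := by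
  have h1 := Finset.sum_range_succ (fun i => ρ (g ^ i) v) q
  have h2 := Finset.sum_range_succ' (fun i => ρ (g ^ i) v) q
  rw [h1, hg, pow_zero] at h2
  rw [map_sum, add_right_cancel h2]
  refine Finset.sum_congr rfl fun i _ => ?_
  rw [← eigen_mul, pow_succ']

lemma eigen_keep (ρ : Γ →* Module.End ℤ V) {g h : Γ} (q : ℕ) (hc : Commute h g) {v : V}
    (hv : ρ h v = v) :
    ρ h (∑ i ∈ Finset.range q, ρ (g ^ i) v) = ∑ i ∈ Finset.range q, ρ (g ^ i) v := by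
  rw [map_sum]
  refine Finset.sum_congr rfl fun i _ => ?_
  rw [← eigen_mul, (hc.pow_right i).eq, eigen_mul, hv]

lemma eigen_step {Ω : Subgroup Γ} {z : Γ} {q : ℕ} (E : Ext Ω z q)
    (ρ : Γ →* Module.End ℤ V) (hq : ∀ v : V, q • v = 0 → v = 0)
    (hfree : ∀ ζ ∈ Subgroup.zpowers z, ζ ≠ 1 → ∀ v, ρ ζ v = v → v = 0)
    {w : V} (hw : w ≠ 0) (e : Γ) :
    ∃ k : ℕ, ∑ i ∈ Finset.range q, ρ ((z ^ k * e) ^ i) w ≠ 0 := by
  by_contra hcon
  push Not at hcon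
  have hzq : z ^ q = 1 := by rw [← E.zord]; exact pow_orderOf_eq_one z
  have h0 : ∑ k ∈ Finset.range q, ∑ i ∈ Finset.range q, ρ ((z ^ k * e) ^ i) w = 0 :=
    Finset.sum_eq_zero fun k _ => hcon k
  rw [Finset.sum_comm] at h0
  have h1 : ∀ i k : ℕ, ρ ((z ^ k * e) ^ i) w = ρ ((z ^ i) ^ k) (ρ (e ^ i) w) := fun i k => by
    rw [((E.zcen e).pow_left k).mul_pow, ← pow_mul, mul_comm k i, pow_mul, eigen_mul]
  simp only [h1] at h0
  rw [Finset.sum_eq_single 0] at h0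
  · apply hw
    apply hq
    simpa using h0
  · intro i hi hi0
    refine hfree (z ^ i) (Subgroup.npow_mem_zpowers z i) ?_ _ (eigen_norm ρ ?_ _)
    · refine pow_ne_one_of_lt_orderOf hi0 ?_
      rw [E.zord]; exact Finset.mem_range.1 hi
    · rw [← pow_mul, mul_comm, pow_mul, hzq, one_pow]
  · intro h
    exact absurd (Finset.mem_range.2 E.prime.pos) h

theorem Ext.eigen [Nontrivial V] {Ω : Subgroup Γ} {z : Γ} {q : ℕ} (E : Ext Ω z q)
    (ρ : Γ →* Module.End ℤ V) (hq : ∀ v : V, q • v = 0 → v = 0)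
    (hfree : ∀ ζ ∈ Subgroup.zpowers z, ζ ≠ 1 → ∀ v, ρ ζ v = v → v = 0)
    (J : Set Γ) (hJ : J.Finite) (hJΩ : J ⊆ Ω) (hJc : ∀ a ∈ J, ∀ b ∈ J, Commute a b) :
    ∃ w : V, w ≠ 0 ∧ ∀ e ∈ Subgroup.closure J, ∃ ζ ∈ Subgroup.zpowers z, ρ (ζ * e) w = w := by
  have hcen : ∀ ζ ∈ Subgroup.zpowers z, ∀ g, Commute ζ g := by
    rintro _ ⟨k, rfl⟩ g
    exact (E.zcen g).zpow_left k
  have key : ∃ w : V, w ≠ 0 ∧ ∀ e ∈ J, ∃ ζ ∈ Subgroup.zpowers z, ρ (ζ * e) w = w := by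
    induction J, hJ using Set.Finite.induction_on with
    | empty =>
      obtain ⟨w, hw⟩ := exists_ne (0 : V)
      exact ⟨w, hw, fun e he => absurd he (Set.notMem_empty e)⟩
    | @insert e s _ _ ih =>
      obtain ⟨w, hw, h⟩ := ih (fun x hx => hJΩ (Set.mem_insert_of_mem _ hx))
        (fun a ha b hb => hJc a (Set.mem_insert_of_mem _ ha) b (Set.mem_insert_of_mem _ hb))
      obtain ⟨k, hk⟩ := eigen_step E ρ hq hfree hw e
      refine ⟨_, hk, ?_⟩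
      rintro x (rfl | hx)
      · refine ⟨z ^ k, Subgroup.npow_mem_zpowers z k, eigen_norm ρ ?_ w⟩
        exact E.exp _ (Ω.mul_mem (Ω.pow_mem E.zmem k) (hJΩ (Set.mem_insert _ _)))
      · obtain ⟨ζ, hζ, hx'⟩ := h x hx
        refine ⟨ζ, hζ, eigen_keep ρ q ?_ hx'⟩
        refine Commute.mul_left (hcen ζ hζ _) (Commute.mul_right ?_ ?_)
        · exact ((E.zcen x).pow_left k).symm
        · exact hJc x (Set.mem_insert_of_mem _ hx) e (Set.mem_insert _ _)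
  obtain ⟨w, hw, h⟩ := key
  refine ⟨w, hw, fun e he => ?_⟩
  induction he using Subgroup.closure_induction with
  | mem x hx => exact h x hx
  | one => exact ⟨1, Subgroup.one_mem _, by simp⟩
  | mul x y _ _ hx hy =>
    obtain ⟨ζ, hζ, hx⟩ := hx
    obtain ⟨η, hη, hy⟩ := hy
    refine ⟨ζ * η, Subgroup.mul_mem _ hζ hη, ?_⟩
    have : ζ * η * (x * y) = ζ * x * (η * y) := by
      rw [mul_assoc, ← mul_assoc η, (hcen η hη x).eq]; simp only [mul_assoc]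
    rw [this, eigen_mul, hy, hx]
  | inv x _ hx =>
    obtain ⟨ζ, hζ, hx⟩ := hx
    refine ⟨ζ⁻¹, Subgroup.inv_mem _ hζ, ?_⟩
    have : ζ⁻¹ * x⁻¹ * (ζ * x) = 1 := by
      rw [← mul_inv_rev, ← (hcen ζ hζ x).eq, inv_mul_cancel]
    conv_lhs => rw [← hx, ← eigen_mul, this]
    simp

end Pool.Agent.P.MP_3fd745_al.Sv
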