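import Pool.Agent.P.MP_3fd745_al.Sv.Def

/-! Three decompositions into pairwise far vectors. -/

namespace Pool.Agent.P.MP_3fd745_al.Sv

variable {Γ V : Type} [Group Γ] [AddCommGroup V] {C : Set (Module.End ℤ V)}

lemma rho_mul (ρ : Γ →* Module.End ℤ V) (g h : Γ) (v : V) : ρ (g * h) v = ρ g (ρ h v) := by
  rw [map_mul]; rfl

lemma rho_inv (ρ : Γ →* Module.End ℤ V) (g : Γ) (v : V) : ρ g⁻¹ (ρ g v) = v := by
  rw [← rho_mul]; simp

lemma rho_inv' (ρ : Γ →* Module.End ℤ V) (g : Γ) (v : V) : ρ g (ρ g⁻¹ v) = v := by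
  rw [← rho_mul]; simp

lemma Far.symm {a b : V} (h : Far C a b) : Far C b a := fun f₁ h₁ f₂ h₂ => by
  obtain ⟨α, hα, β, hβ, e1, e2, c1, c2, c3, c4, h⟩ := h f₁ h₁ f₂ h₂
  exact ⟨β, hβ, α, hα, e2, e1, c3, c4, c1, c2, fun v x y => h v y x⟩

lemma Far.conj (ρ : Γ →* Module.End ℤ V) (hconj : ∀ g, ∀ α ∈ C, ρ g * α * ρ g⁻¹ ∈ C) (g : Γ)
    {a b : V} (h : Far C a b) : Far C (ρ g a) (ρ g b) := by
  intro f₁ h₁ f₂ h₂
  obtain ⟨α, hα, β, hβ, e1, e2, c1, c2, c3, c4, h⟩ := h _ (hconj g⁻¹ f₁ h₁) _ (hconj g⁻¹ f₂ h₂)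
  have cc : ∀ {α f : Module.End ℤ V}, Commute α (ρ g⁻¹ * f * ρ g⁻¹⁻¹) →
      Commute (ρ g * α * ρ g⁻¹) f := fun {α f} h => by
    ext v
    have := congrArg (ρ g) (LinearMap.congr_fun h (ρ g⁻¹ v))
    simpa [rho_inv'] using this
  refine ⟨_, hconj g α hα, _, hconj g β hβ, by simp [rho_inv, e1], by simp [rho_inv, e2],
    cc c1, cc c2, cc c3, cc c4, fun v h1 h2 => ?_⟩
  have h3 := h (ρ g⁻¹ v) (by simpa [rho_inv] using congrArg (ρ g⁻¹) h1)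
    (by simpa [rho_inv] using congrArg (ρ g⁻¹) h2)
  simpa [rho_inv'] using congrArg (ρ g) h3

lemma comm_app {α β : Module.End ℤ V} (h : Commute α β) (v : V) : α (β v) = β (α v) :=
  LinearMap.congr_fun h v

lemma tri_two {y a a' b b' : V} (e : y = a + b) (e' : y = a' + b') (h : Far C b b')
    {α α' : Module.End ℤ V} (hα : α ∈ C) (hα' : α' ∈ C) (h1 : α a = 0) (h2 : α' a' = 0)
    (hc : Commute α α') : α' (α y) = 0 := by
  obtain ⟨β, -, β', -, e1, e2, c1, c2, c3, c4, h⟩ := h α hα α' hα'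
  refine h _ ?_ ?_
  · rw [e, map_add, h1, zero_add, comm_app c2, comm_app c1, e1, map_zero, map_zero]
  · rw [← comm_app hc, e', map_add, h2, zero_add, comm_app c3, comm_app c4, e2, map_zero, map_zero]

lemma tri_one {y a1 a2 a3 b1 b2 b3 : V} (e1 : y = a1 + b1) (e2 : y = a2 + b2) (e3 : y = a3 + b3)
    (ha : Far C a2 a3) (h2 : Far C b1 b2) (h3 : Far C b1 b3) {α : Module.End ℤ V} (hα : α ∈ C)
    (h1 : α a1 = 0) : α y = 0 := by
  obtain ⟨β, hβ, β', hβ', x1, x2, c1, -, c3, -, h⟩ := ha α hα α hα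
  exact h _ (tri_two e1 e2 h2 hα hβ h1 x1 c1.symm) (tri_two e1 e3 h3 hα hβ' h1 x2 c3.symm)

theorem far_tri (ρ : Γ →* Module.End ℤ V) (hodd : ∀ g : Γ, ∃ n : ℕ, Odd n ∧ g ^ n = 1)
    (C : Set (Module.End ℤ V)) (hC : C.Nonempty) (hconj : ∀ g, ∀ α ∈ C, ρ g * α * ρ g⁻¹ ∈ C)
    (x u : Γ) (hxu : Commute x u) (hT : TR ρ x u) (w : V) (h1 : Far C w (ρ x w))
    (h2 : Far C w (ρ u w)) (h3 : Far C w (ρ (x⁻¹ * u) w)) : w = 0 := by
  obtain ⟨s, e1, e2⟩ := hT w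
  obtain ⟨f, hf⟩ := hC
  have h4 : Far C (ρ x w) (ρ u w) := by simpa [rho_inv'] using h3.conj ρ hconj x
  have b12 := (h2.conj ρ hconj x).symm
  have b13 : Far C (ρ x (ρ u w)) (ρ u w) := by
    have := (h1.conj ρ hconj u).symm
    rwa [← rho_mul, ← hxu.eq, rho_mul] at this
  have a23 := (h4.conj ρ hconj s).symm
  have hy : ρ s (ρ u w) + ρ x w = 0 := by
    obtain ⟨α, hα, β, hβ, x1, x2, -, -, -, -, h⟩ := h2.conj ρ hconj s f hf f hf
    exact h _ (tri_one e2.symm rfl e1 a23 b12 b13 hα x1)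
      (tri_one rfl e2.symm e1 (h1.conj ρ hconj s) b12.symm h4 hβ x2)
  have y1 := eq_neg_of_add_eq_zero_left hy
  have y2 := eq_neg_of_add_eq_zero_left (e1.symm.trans hy)
  have y3 : ∀ k : ℕ, ρ (s ^ (2 * k)) (ρ x w) = ρ x w := fun k => by
    induction k with
    | zero => simp
    | succ k ih =>
      rw [mul_add, pow_add, rho_mul, mul_one, sq, rho_mul, y2, map_neg, y1, neg_neg, ih]
  obtain ⟨n, ⟨k, rfl⟩, hn⟩ := hodd s
  have y4 : ρ s (ρ x w) = ρ x w := by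
    rw [← y3 k, ← rho_mul, ← pow_succ', hn, y3 k]; simp
  obtain ⟨α, -, β, -, x1, x2, -, -, -, -, h⟩ := h4 f hf f hf
  have := h _ x1 (by rw [← y4, y2, map_neg, x2, neg_zero])
  rw [← rho_inv ρ x w, this, map_zero]

end Pool.Agent.P.MP_3fd745_al.Sv
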