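import Pool.Agent.P.MP_3fd745_al.Sv.Step

namespace Pool.Agent.P.MP_3fd745_al.Sv

open scoped commutatorElement

variable {Γ V : Type} [Group Γ] [AddCommGroup V]

lemma goodj_comm {a b f : Γ} (h : ⁅a, f⁆ = ⁅b, f⁆) : Commute (b⁻¹ * a) f := by
  rw [commutatorElement_def, commutatorElement_def, mul_left_inj] at h
  calc b⁻¹ * a * f = b⁻¹ * (a * f * a⁻¹) * a := by group
    _ = f * (b⁻¹ * a) := by rw [h]; group

lemma goodj_sq {a b u v : Γ} (hav : Commute a v) (hbu : Commute b u) (h : ⁅a, u⁆ = ⁅b, v⁆)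
    (hc : Commute (b⁻¹ * a) (v⁻¹ * u)) : ⁅a, u⁆ ^ 2 = 1 := by
  have h1 : b⁻¹ * v⁻¹ * (a * u) = v⁻¹ * b⁻¹ * (u * a) :=
    calc b⁻¹ * v⁻¹ * (a * u) = b⁻¹ * (v⁻¹ * a) * u := by group
      _ = b⁻¹ * a * (v⁻¹ * u) := by rw [← hav.inv_right.eq]; group
      _ = v⁻¹ * (u * b⁻¹) * a := by rw [hc.eq]; group
      _ = v⁻¹ * b⁻¹ * (u * a) := by rw [← hbu.inv_left.eq]; group
  nth_rewrite 1 [sq, h]
  rw [commutatorElement_def, commutatorElement_def]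
  calc b * v * b⁻¹ * v⁻¹ * (a * u * a⁻¹ * u⁻¹)
      = b * v * (b⁻¹ * v⁻¹ * (a * u)) * a⁻¹ * u⁻¹ := by group
    _ = 1 := by rw [h1]; group

/-- all cross commutations between two pairs -/
def goodjR (t : Γ) (x p : Γ × Γ) : Prop :=
  Commute x.1 p.1 ∧ Commute x.1 p.2 ∧ Commute x.2 p.1 ∧ Commute x.2 p.2 ∧
    Commute x.1 (t * p.2 * t⁻¹) ∧ Commute p.1 (t * x.2 * t⁻¹)

lemma goodjR.symm {t : Γ} {x p : Γ × Γ} (h : goodjR t x p) : goodjR t p x :=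
  ⟨h.1.symm, h.2.2.1.symm, h.2.1.symm, h.2.2.2.1.symm, h.2.2.2.2.2, h.2.2.2.2.1⟩

lemma goodj_seq (hLF : LF Γ) {Ω : Subgroup Γ} {z : Γ} {q : ℕ} (E : Ext Ω z q) (t : Γ)
    (ht : ¬ {c | ∃ e ∈ Ω, c = ⁅t, e⁆}.Finite) (Y : Set Γ) (hY : Y.Finite) (hYΩ : Y ⊆ Ω) :
    ∃ f : ℕ → Γ × Γ, (∀ n, (f n).1 ∈ Ω ∧ (f n).2 ∈ Ω ∧ Commute (f n).1 (f n).2 ∧
      ¬ Commute (f n).1 (t * (f n).2 * t⁻¹) ∧ ∀ y ∈ Y, Commute (f n).1 y ∧ Commute (f n).2 y) ∧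
      ∀ m n, m ≠ n → goodjR t (f m) (f n) := by
  obtain ⟨f, hf, hr⟩ := exists_seq_of_forall_finset_exists
    (fun p : Γ × Γ => p.1 ∈ Ω ∧ p.2 ∈ Ω ∧ Commute p.1 p.2 ∧
      ¬ Commute p.1 (t * p.2 * t⁻¹) ∧ ∀ y ∈ Y, Commute p.1 y ∧ Commute p.2 y) (goodjR t)
    (fun s hs => by
      obtain ⟨j, hj, j', hj', h1, h2, h3⟩ := E.step hLF t ht
        (Y ∪ (Prod.fst '' (s : Set (Γ × Γ)) ∪ Prod.snd '' (s : Set (Γ × Γ))))
        (hY.union ((s.finite_toSet.image _).union (s.finite_toSet.image _))) (by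
          rintro _ (hy | ⟨x, hx, rfl⟩ | ⟨x, hx, rfl⟩)
          exacts [hYΩ hy, (hs x hx).1, (hs x hx).2.1])
      refine ⟨(j, j'), ⟨hj, hj', h1, h2, fun y hy => ?_⟩, fun x hx => ?_⟩
      · exact ⟨(h3 y (Or.inl hy)).1, (h3 y (Or.inl hy)).2.1⟩
      · obtain ⟨a1, a2, -, a4⟩ := h3 x.1 (Or.inr (Or.inl ⟨x, hx, rfl⟩))
        obtain ⟨b1, b2, b3, -⟩ := h3 x.2 (Or.inr (Or.inr ⟨x, hx, rfl⟩))
        exact ⟨a1.symm, a2.symm, b1.symm, b2.symm, a4, b3⟩)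
  refine ⟨f, hf, fun m n hmn => ?_⟩
  rcases lt_or_gt_of_ne hmn with h | h
  exacts [hr m n h, (hr n m h).symm]

theorem Ext.good (hLF : LF Γ) {Ω : Subgroup Γ} {z : Γ} {q : ℕ} (E : Ext Ω z q) (t : Γ)
    (ht : ¬ {c | ∃ e ∈ Ω, c = ⁅t, e⁆}.Finite) (Y : Set Γ) (hY : Y.Finite) (hYΩ : Y ⊆ Ω)
    (hYc : ∀ a ∈ Y, ∀ b ∈ Y, Commute a b) :
    ∃ J : Set Γ, J.Finite ∧ J ⊆ Ω ∧ Y ⊆ J ∧ (∀ a ∈ J, ∀ b ∈ J, Commute a b) ∧ Good Ω J t := by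
  obtain ⟨f, hf, hr⟩ := goodj_seq hLF E t ht Y hY hYΩ
  have hz : IsOfFinOrder z := orderOf_pos_iff.1 (E.zord ▸ E.prime.pos)
  have : Finite (Subgroup.zpowers z) := finite_zpowers.2 hz
  let Z := Subgroup.zpowers z
  let _ : Fintype (Z × Z × Z × Z × Z) := Fintype.ofFinite _
  let N := Fintype.card (Z × Z × Z × Z × Z) + 1
  have h11 : ∀ m n, Commute (f m).1 (f n).1 := fun m n => by
    rcases eq_or_ne m n with rfl | h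
    exacts [Commute.refl _, (hr m n h).1]
  have h12 : ∀ m n, Commute (f m).1 (f n).2 := fun m n => by
    rcases eq_or_ne m n with rfl | h
    exacts [(hf m).2.2.1, (hr m n h).2.1]
  have h22 : ∀ m n, Commute (f m).2 (f n).2 := fun m n => by
    rcases eq_or_ne m n with rfl | h
    exacts [Commute.refl _, (hr m n h).2.2.2.1]
  refine ⟨Y ∪ (Set.range (fun i : Fin N => (f i).1) ∪ Set.range fun i : Fin N => (f i).2),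
    hY.union ((Set.finite_range _).union (Set.finite_range _)), ?_, Set.subset_union_left, ?_,
    fun f₁ h₁ f₂ h₂ => ?_⟩
  · rintro _ (hy | ⟨x, rfl⟩ | ⟨x, rfl⟩)
    exacts [hYΩ hy, (hf x).1, (hf x).2.1]
  · rintro a (ha | ⟨x, rfl⟩ | ⟨x, rfl⟩) b (hb | ⟨y, rfl⟩ | ⟨y, rfl⟩)
    exacts [hYc a ha b hb, ((hf y).2.2.2.2 a ha).1.symm, ((hf y).2.2.2.2 a ha).2.symm,
      ((hf x).2.2.2.2 b hb).1, h11 x y, h12 x y, ((hf x).2.2.2.2 b hb).2, (h12 y x).symm, h22 x y]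
  · have hu : ∀ n, t * (f n).2 * t⁻¹ ∈ Ω := fun n => E.normal.conj_mem _ (hf n).2.1 t
    obtain ⟨i, k, hik, he⟩ := Fintype.exists_ne_map_eq_of_card_lt
      (fun i : Fin N => ((⟨_, E.comm _ (hf i).1 _ h₁⟩, ⟨_, E.comm _ (hf i).1 _ h₂⟩,
        ⟨_, E.comm _ (hu i) _ h₁⟩, ⟨_, E.comm _ (hu i) _ h₂⟩,
        ⟨_, E.comm _ (hf i).1 _ (hu i)⟩) : Z × Z × Z × Z × Z)) (by simp [N])
    simp only [Prod.mk.injEq, Subtype.mk.injEq] at he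
    obtain ⟨e1, e2, e3, e4, e5⟩ := he
    have e6 : t * ((f k).2⁻¹ * (f i).2) * t⁻¹ = (t * (f k).2 * t⁻¹)⁻¹ * (t * (f i).2 * t⁻¹) := by
      group
    have hR := hr i k fun h => hik (Fin.ext h)
    refine ⟨(f k).1⁻¹ * (f i).1, mul_mem (inv_mem (Subgroup.subset_closure
        (Or.inr (Or.inl ⟨k, rfl⟩)))) (Subgroup.subset_closure (Or.inr (Or.inl ⟨i, rfl⟩))),
      (f k).2⁻¹ * (f i).2, mul_mem (inv_mem (Subgroup.subset_closure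
        (Or.inr (Or.inr ⟨k, rfl⟩)))) (Subgroup.subset_closure (Or.inr (Or.inr ⟨i, rfl⟩))),
      goodj_comm e1, goodj_comm e2, e6 ▸ goodj_comm e3, e6 ▸ goodj_comm e4, fun hc => ?_⟩
    rw [e6] at hc
    have h2 := goodj_sq hR.2.2.2.2.1 hR.2.2.2.2.2 e5 hc
    have hq : ⁅(f i).1, t * (f i).2 * t⁻¹⁆ ^ q = 1 :=
      E.exp _ ((Subgroup.zpowers_le.2 E.zmem) (E.comm _ (hf i).1 _ (hu i)))
    obtain ⟨m, rfl⟩ := E.odd
    rw [pow_succ, pow_mul, h2, one_pow, one_mul] at hq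
    exact (hf i).2.2.2.1 (commutatorElement_eq_one_iff_commute.1 hq)

end Pool.Agent.P.MP_3fd745_al.Sv
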