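import Pool.Agent.P.MP_3fd745_al.Sv.Finit
import Pool.Agent.P.MP_3fd745_al.Sv.GoodJ
import Pool.Agent.P.MP_3fd745_al.Sv.Eigen
import Pool.Agent.P.MP_3fd745_al.Sv.FarT

namespace Pool.Agent.P.MP_3fd745_al.Sv

open scoped commutatorElement

variable {Γ V : Type} [Group Γ] [AddCommGroup V]

lemma casetwo_mono {Ω : Subgroup Γ} {J J' : Set Γ} {t : Γ} (h : Good Ω J t) (hJ : J ⊆ J') :
    Good Ω J' t := fun f₁ h₁ f₂ h₂ => by
  obtain ⟨e, he, e', he', r⟩ := h f₁ h₁ f₂ h₂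
  exact ⟨e, Subgroup.closure_mono hJ he, e', Subgroup.closure_mono hJ he', r⟩

lemma casetwo_comm (ρ : Γ →* Module.End ℤ V) {a b : Γ} (h : Commute a b) :
    Commute (ρ a - 1) (ρ b - 1) :=
  (((h.map ρ).sub_right (Commute.one_right _)).sub_left (Commute.one_left _))

lemma casetwo_far {Ω : Subgroup Γ} {z : Γ} {q : ℕ} (E : Ext Ω z q) (ρ : Γ →* Module.End ℤ V)
    (hfree : ∀ ζ ∈ Subgroup.zpowers z, ζ ≠ 1 → ∀ v, ρ ζ v = v → v = 0) {J : Set Γ} (hJ : J ⊆ Ω)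
    {w : V} (hw : ∀ e ∈ Subgroup.closure J, ∃ ζ ∈ Subgroup.zpowers z, ρ (ζ * e) w = w) {t : Γ}
    (h : Good Ω J t) : Far {α | ∃ e ∈ Ω, α = ρ e - 1} w (ρ t w) := by
  rintro _ ⟨f₁, h₁, rfl⟩ _ ⟨f₂, h₂, rfl⟩
  obtain ⟨e, he, e', he', c1, c2, c3, c4, hn⟩ := h f₁ h₁ f₂ h₂
  obtain ⟨ζ, hζ, x1⟩ := hw e he
  obtain ⟨ζ', hζ', x2⟩ := hw e' he'
  have hc : ∀ y ∈ Subgroup.zpowers z, ∀ g, Commute y g := by
    rintro _ ⟨k, rfl⟩ g
    exact (E.zcen g).zpow_left k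
  have hz : Subgroup.zpowers z ≤ Ω := (Subgroup.zpowers_le).2 E.zmem
  have hcl : Subgroup.closure J ≤ Ω := (Subgroup.closure_le _).2 hJ
  have ha : ζ * e ∈ Ω := Ω.mul_mem (hz hζ) (hcl he)
  have hb : ζ' * (t * e' * t⁻¹) ∈ Ω := Ω.mul_mem (hz hζ') (E.normal.conj_mem _ (hcl he') t)
  refine ⟨_, ⟨_, ha, rfl⟩, _, ⟨_, hb, rfl⟩, ?_, ?_,
    casetwo_comm ρ ((hc ζ hζ _).mul_left c1), casetwo_comm ρ ((hc ζ hζ _).mul_left c2),
    casetwo_comm ρ ((hc ζ' hζ' _).mul_left c3), casetwo_comm ρ ((hc ζ' hζ' _).mul_left c4),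
    fun v y1 y2 => ?_⟩
  · rw [LinearMap.sub_apply, x1, Module.End.one_apply, sub_self]
  · have : ζ' * (t * e' * t⁻¹) * t = t * (ζ' * e') := by
      rw [← mul_assoc t, ← (hc ζ' hζ' t).eq]; group
    rw [LinearMap.sub_apply, ← rho_mul, this, rho_mul, x2, Module.End.one_apply, sub_self]
  · rw [LinearMap.sub_apply, Module.End.one_apply, sub_eq_zero] at y1 y2
    refine hfree _ (E.comm _ ha _ hb) (fun h1 => hn ?_) v ?_
    · have h2 := commutatorElement_eq_one_iff_commute.1 h1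
      have h3 : Commute e (ζ' * (t * e' * t⁻¹)) := by
        simpa using ((hc ζ hζ _).inv_left).mul_left h2
      simpa using ((hc ζ' hζ' e).symm.inv_right).mul_right h3
    · have i1 : ∀ g, ρ g v = v → ρ g⁻¹ v = v := fun g hg => by
        conv_lhs => rw [← hg]
        exact rho_inv ρ g v
      rw [commutatorElement_def, rho_mul, i1 _ y2, rho_mul, i1 _ y1, rho_mul, y2, y1]

theorem case_two [Group.IsSolvable Γ] [Nontrivial V] (hLF : LF Γ)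
    (hodd : ∀ g : Γ, ∃ n : ℕ, Odd n ∧ g ^ n = 1) {Ω : Subgroup Γ} {z : Γ} {q : ℕ}
    (E : Ext Ω z q) (ρ : Γ →* Module.End ℤ V) (hq : ∀ v : V, q • v = 0 → v = 0)
    (hfree : ∀ ζ ∈ Subgroup.zpowers z, ζ ≠ 1 → ∀ v, ρ ζ v = v → v = 0) : ¬ Tri ρ := by
  intro hT
  obtain ⟨S, hS, -, hm⟩ := E.proper
  obtain ⟨x, u, hxu, hx, hu, hy, hR⟩ := hT S hS
  have inf : ∀ t, t ∉ S → ¬ {c | ∃ e ∈ Ω, c = ⁅t, e⁆}.Finite := fun t ht hf =>
    ht ((hm t).2 (E.finitary t hf))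
  obtain ⟨J1, a1, b1, -, c1, d1⟩ := E.good hLF x (inf x hx) ∅ Set.finite_empty
    (Set.empty_subset _) (by simp)
  obtain ⟨J2, a2, b2, s2, c2, d2⟩ := E.good hLF u (inf u hu) J1 a1 b1 c1
  obtain ⟨J3, a3, b3, s3, c3, d3⟩ := E.good hLF _ (inf _ hy) J2 a2 b2 c2
  obtain ⟨w, hw0, hw⟩ := E.eigen ρ hq hfree J3 a3 b3 c3
  refine hw0 (far_tri ρ hodd {α | ∃ e ∈ Ω, α = ρ e - 1} ⟨_, 1, Ω.one_mem, rfl⟩ ?_ x u hxu hR w
    (casetwo_far E ρ hfree b3 hw (casetwo_mono d1 (s2.trans s3)))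
    (casetwo_far E ρ hfree b3 hw (casetwo_mono d2 s3)) (casetwo_far E ρ hfree b3 hw d3))
  rintro g _ ⟨e, he, rfl⟩
  refine ⟨_, E.normal.conj_mem e he g, ?_⟩
  rw [mul_sub, sub_mul, mul_one, ← map_mul, ← map_mul, ← map_mul, mul_inv_cancel, map_one]

end Pool.Agent.P.MP_3fd745_al.Sv
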