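import Pool.Agent.P.MP_3fd745_al.Sv.LocFin

namespace Pool.Agent.P.MP_3fd745_al.Sv

open scoped commutatorElement

variable {Γ V : Type} [Group Γ] [AddCommGroup V]

lemma classtwo_conj (hP : PW Γ) {B : Subgroup Γ} (hB : AN B) {b : Γ} (hb : b ∈ B) (g : Γ) :
    ∃ k : ℤ, g * b * g⁻¹ = b ^ k := by
  obtain ⟨k, hk⟩ := hP B hB b hb _ (hB.1.conj_mem b hb g)
    (by rw [conj_pow, pow_orderOf_eq_one, mul_one, mul_inv_cancel])
  exact ⟨k, hk.symm⟩

lemma classtwo_cen (hP : PW Γ) {B : Subgroup Γ} (hB : AN B) {b : Γ} (hb : b ∈ B) {d : Γ}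
    (hd : d ∈ commutator Γ) : Commute d b := by
  have : commutator Γ ≤ Subgroup.centralizer {b} := by
    refine Subgroup.commutator_le.2 fun g _ h _ => Subgroup.mem_centralizer_singleton_iff.2 ?_
    obtain ⟨k, hk⟩ := classtwo_conj hP hB hb g⁻¹
    obtain ⟨l, hl⟩ := classtwo_conj hP hB hb h⁻¹
    have h1 : g⁻¹ * (h⁻¹ * b * h⁻¹⁻¹) * g⁻¹⁻¹ = h⁻¹ * (g⁻¹ * b * g⁻¹⁻¹) * h⁻¹⁻¹ := by
      rw [hk, hl, ← conj_zpow, ← conj_zpow, hk, hl, ← zpow_mul, ← zpow_mul, mul_comm]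
    calc ⁅g, h⁆ * b = g * h * (g⁻¹ * (h⁻¹ * b * h⁻¹⁻¹) * g⁻¹⁻¹) * g⁻¹ * h⁻¹ := by
          rw [commutatorElement_def]; group
      _ = b * ⁅g, h⁆ := by rw [h1, commutatorElement_def]; group
  exact Subgroup.mem_centralizer_singleton_iff.1 (this hd)

lemma classtwo_num {q b : ℕ} (hq : q.Prime) (ho : Odd q) {k : ℤ} (h : (q : ℤ) ^ b ∣ k ^ q - 1) :
    (q : ℤ) ^ b ∣ (k - 1) * (k - 1) := by
  rcases b with - | b
  · simp
  have hf : Fact q.Prime := ⟨hq⟩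
  have h1 : (q : ℤ) ∣ k - 1 := by
    have h2 := (ZMod.intCast_zmod_eq_zero_iff_dvd _ q).2 ((dvd_pow_self _ b.succ_ne_zero).trans h)
    rw [← ZMod.intCast_zmod_eq_zero_iff_dvd]
    push_cast at h2 ⊢
    rwa [ZMod.pow_card] at h2
  obtain ⟨t, ht⟩ := h1
  obtain ⟨u, hu⟩ := odd_sq_dvd_geom_sum₂_sub (R := ℤ) 1 t ho
  have hk : k = 1 + q * t := by linarith
  have h3 := geom_sum_mul k q
  simp only [one_pow, mul_one, ← hk] at hu
  have h4 : k ^ q - 1 = (q * (k - 1)) * (1 + q * u) := by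
    rw [← h3, sub_eq_iff_eq_add.1 hu]; ring
  have h5 : IsCoprime ((q : ℤ) ^ (b + 1)) (1 + q * u) :=
    IsCoprime.pow_left ⟨-u, 1, by ring⟩
  rw [h4] at h
  exact (h5.dvd_of_dvd_mul_right h).trans ⟨t, by rw [ht]; ring⟩

lemma classtwo_elt (hT : TON Γ) {C : Subgroup Γ} {x : Γ} (hx : x ∉ C) :
    ∃ (g : Γ) (q a : ℕ), q.Prime ∧ Odd q ∧ g ∉ C ∧ g ^ q ∈ C ∧ g ^ q ^ a = 1 := by
  classical
  have he : ∃ m, 0 < m ∧ x ^ m ∈ C := by
    obtain ⟨n, hn, e⟩ := hT.odd x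
    exact ⟨n, hn.pos, e ▸ one_mem _⟩
  obtain ⟨h0, hm⟩ := Nat.find_spec he
  have h1 : Nat.find he ≠ 1 := fun e => hx (by rwa [e, pow_one] at hm)
  obtain ⟨q, hq, s, hs⟩ := Nat.exists_prime_and_dvd h1
  have hs0 : 0 < s := Nat.pos_of_mul_pos_left (hs ▸ h0)
  have h2 : x ^ s ∉ C := fun h =>
    Nat.find_min he (m := s) (by rw [hs]; nlinarith [hq.one_lt]) ⟨hs0, h⟩
  have h3 : (x ^ s) ^ q ∈ C := by rwa [← pow_mul, mul_comm, ← hs]
  obtain ⟨N, hN, e⟩ := hT.odd (x ^ s)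
  have ho : Odd q := hq.odd_of_ne_two fun e2 => h2 (mem_of_pow_coprime
    (e2 ▸ Nat.coprime_two_left.2 hN) h3 (e ▸ one_mem _))
  obtain ⟨c, M, hM, rfl⟩ := Nat.exists_eq_pow_mul_and_not_dvd hN.pos.ne' q hq.ne_one
  refine ⟨(x ^ s) ^ M, q, c, hq, ho, fun h => h2 (mem_of_pow_coprime
    ((Nat.Prime.coprime_iff_not_dvd hq).2 hM) h3 h), ?_, by rwa [← pow_mul, mul_comm]⟩
  rw [← pow_mul, mul_comm, pow_mul]
  exact C.pow_mem h3 M

lemma classtwo_key (hT : TON Γ) {g c : Γ} {q a : ℕ} (hq : q.Prime) (ho : Odd q)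
    (hg : g ^ q ^ a = 1) (hc : Commute (g ^ q) c) {k : ℤ} (hk : g * c * g⁻¹ = c ^ k) :
    Commute ⁅g, c⁆ g := by
  obtain ⟨e, n, hn, he⟩ := hT.split q hq c
  have h1 : ∀ i : ℕ, g ^ i * c * (g ^ i)⁻¹ = c ^ k ^ i := fun i => by
    induction i with
    | zero => simp
    | succ i ih =>
      calc g ^ (i + 1) * c * (g ^ (i + 1))⁻¹ = g * (g ^ i * c * (g ^ i)⁻¹) * g⁻¹ := by
            rw [pow_succ']; group
        _ = _ := by rw [ih, ← conj_zpow, hk, ← zpow_mul, pow_succ']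
  have h2 : c ^ (k ^ q - 1) = 1 := by
    rw [zpow_sub_one, ← h1, hc.eq]; group
  have h3 : (c ^ (k - 1)) ^ q ^ e = 1 := by
    have h4 : g * c ^ q ^ e * g⁻¹ = c ^ q ^ e := by
      rw [(hT.co q hq g _ a n hn hg he).eq]; group
    rw [← conj_pow, hk] at h4
    rw [zpow_sub_one, ((Commute.refl c).zpow_left k).inv_right.mul_pow, h4, inv_pow,
      mul_inv_cancel]
  obtain ⟨b, -, hb⟩ := (Nat.dvd_prime_pow hq).1
    (orderOf_dvd_of_pow_eq_one (x := c ^ n) (n := q ^ e) (by rwa [← pow_mul, mul_comm, pow_mul]))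
  have h5 : (q : ℤ) ^ b ∣ k ^ q - 1 := by
    rw [← Nat.cast_pow, ← hb, orderOf_dvd_iff_zpow_eq_one, ← zpow_natCast, ← zpow_mul, mul_comm,
      zpow_mul, h2, one_zpow]
  have h6 := classtwo_num hq ho h5
  rw [← Nat.cast_pow, ← hb, orderOf_dvd_iff_zpow_eq_one] at h6
  have h7 : c ^ ((k - 1) * (k - 1)) ∈ (⊥ : Subgroup Γ) := by
    refine mem_of_pow_coprime (((Nat.Prime.coprime_iff_not_dvd hq).2 hn).pow_left e) ?_ ?_
    · rw [Subgroup.mem_bot, ← zpow_natCast, ← zpow_mul, mul_right_comm, zpow_mul, zpow_mul,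
        zpow_natCast, h3, one_zpow]
    · rw [Subgroup.mem_bot, ← zpow_natCast, ← zpow_mul, mul_comm, zpow_mul, zpow_natCast, h6]
  rw [Subgroup.mem_bot] at h7
  have h8 : ⁅g, c⁆ = c ^ (k - 1) := by rw [commutatorElement_def, hk, zpow_sub_one]
  have h9 : g * c ^ (k - 1) * g⁻¹ = c ^ (k - 1) := by
    rw [← conj_zpow, hk, ← zpow_mul, show k * (k - 1) = (k - 1) * (k - 1) + (k - 1) by ring,
      zpow_add, h7, one_mul]
  rw [h8]
  exact (mul_inv_eq_iff_eq_mul.1 h9).symm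

theorem exists_class_two [Group.IsSolvable Γ] (hT : TON Γ) (hP : PW Γ)
    (hna : ∃ a b : Γ, ¬ Commute a b) :
    ∃ K : Subgroup Γ, K.Normal ∧ (∃ a ∈ K, ∃ b ∈ K, ¬ Commute a b) ∧
      ∀ a ∈ K, ∀ b ∈ K, ∀ c ∈ K, Commute ⁅a, b⁆ c := by
  by_contra hno
  have hD : ∀ a b : Γ, ⁅a, b⁆ ∈ commutator Γ := fun a b =>
    Subgroup.commutator_mem_commutator (Subgroup.mem_top a) (Subgroup.mem_top b)
  have h1 : ∀ a ∈ commutator Γ, ∀ b ∈ commutator Γ, Commute a b := by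
    by_contra hc
    have : ∀ i, ¬ ∀ a ∈ derivedSeries Γ (i + 1), ∀ b ∈ derivedSeries Γ (i + 1), Commute a b := by
      intro i
      induction i with
      | zero => exact hc
      | succ i ih =>
        intro h
        refine hno ⟨derivedSeries Γ (i + 1), inferInstance, by simpa using ih,
          fun a ha b hb c hc => (classtwo_cen hP ⟨inferInstance, h⟩
            (Subgroup.commutator_mem_commutator ha hb) ?_).symm⟩
        exact Subgroup.commutator_mono le_top le_top hc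
    obtain ⟨n, hn⟩ := (inferInstance : Group.IsSolvable Γ)
    refine this n fun a ha b _ => ?_
    have h2 : a ∈ derivedSeries Γ n := Subgroup.commutator_le_left _ _ ha
    rw [hn, Subgroup.mem_bot] at h2
    exact h2 ▸ Commute.one_left b
  obtain ⟨C, hC⟩ : ∃ C : Subgroup Γ, C = Subgroup.centralizer (commutator Γ) := ⟨_, rfl⟩
  have hCn : C.Normal := hC ▸ inferInstance
  have hm : ∀ c, c ∈ C ↔ ∀ d ∈ commutator Γ, Commute d c := fun c => by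
    rw [hC]; exact Subgroup.mem_centralizer_iff
  have hle : commutator Γ ≤ C := fun a ha => (hm a).2 fun d hd => h1 d hd a ha
  have h2 : ∀ a ∈ C, ∀ b ∈ C, Commute a b := by
    by_contra hc
    exact hno ⟨C, hCn, by simpa using hc, fun a _ b _ c h => (hm c).1 h _ (hD a b)⟩
  have hx : ∃ x, x ∉ C := by
    by_contra hc
    obtain ⟨a, b, h⟩ := hna
    exact h (h2 a (not_not.1 fun e => hc ⟨a, e⟩) b (not_not.1 fun e => hc ⟨b, e⟩))
  obtain ⟨x, hx⟩ := hx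
  obtain ⟨g, q, a, hq, ho, hg, hgq, hga⟩ := classtwo_elt hT hx
  obtain ⟨Z, hZ⟩ : ∃ Z : Subgroup Γ, Z = C ⊓ Subgroup.centralizer {g} := ⟨_, rfl⟩
  have hz : ∀ z, z ∈ Z ↔ z ∈ C ∧ Commute z g := fun z => by
    rw [hZ, Subgroup.mem_inf, Subgroup.mem_centralizer_singleton_iff]; rfl
  have hZn : Z.Normal := ⟨fun z h y => by
    obtain ⟨k, hk⟩ := classtwo_conj hP ⟨hCn, h2⟩ ((hz z).1 h).1 y
    exact hk ▸ Z.zpow_mem h k⟩
  have hK : ∀ y ∈ C ⊔ Subgroup.zpowers g, ∃ c ∈ C, ∃ i : ℤ, y = c * g ^ i := fun y hy => by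
    have h : y ∈ ((C ⊔ Subgroup.zpowers g : Subgroup Γ) : Set Γ) := hy
    rw [Subgroup.normal_mul] at h
    obtain ⟨c, hc, _, ⟨i, rfl⟩, e⟩ := h
    exact ⟨c, hc, i, e.symm⟩
  have hq1 : ∀ a b : Γ, Commute (QuotientGroup.mk' Z a) (QuotientGroup.mk' Z b) ↔ ⁅a, b⁆ ∈ Z :=
    fun a b => by
      rw [← commutatorElement_eq_one_iff_commute, ← map_commutatorElement]
      exact QuotientGroup.eq_one_iff _
  have hgc : ∀ c ∈ C, Commute (QuotientGroup.mk' Z g) (QuotientGroup.mk' Z c) := fun c hc => by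
    obtain ⟨k, hk⟩ := classtwo_conj hP ⟨hCn, h2⟩ hc g
    exact (hq1 g c).2 ((hz _).2 ⟨hle (hD g c), classtwo_key hT hq ho hga (h2 _ hgq c hc) hk⟩)
  refine hno ⟨C ⊔ Subgroup.zpowers g, ⟨fun y hy t => ?_⟩, ?_, fun y hy y' hy' w hw => ?_⟩
  · have e : t * y * t⁻¹ = ⁅t, y⁆ * y := by rw [commutatorElement_def]; group
    exact e ▸ mul_mem (Subgroup.mem_sup_left (hle (hD t y))) hy
  · by_contra hc
    refine hg ((hm g).2 fun d hd => not_not.1 fun e => hc ⟨d, Subgroup.mem_sup_left (hle hd), g,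
      Subgroup.mem_sup_right (Subgroup.mem_zpowers g), e⟩)
  · obtain ⟨c, hc, i, rfl⟩ := hK y hy
    obtain ⟨c', hc', j, rfl⟩ := hK y' hy'
    obtain ⟨c'', hc'', l, rfl⟩ := hK w hw
    have h3 : ⁅c * g ^ i, c' * g ^ j⁆ ∈ Z := by
      rw [← hq1, map_mul, map_mul, map_zpow, map_zpow]
      exact (((h2 c hc c' hc').map _).mul_right ((hgc c hc).symm.zpow_right j)).mul_left
        (((hgc c' hc').zpow_left i).mul_right (Commute.zpow_zpow_self _ i j))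
    exact (h2 _ ((hz _).1 h3).1 c'' hc'').mul_right (((hz _).1 h3).2.zpow_right l)

end Pool.Agent.P.MP_3fd745_al.Sv
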