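import Pool.Agent.P.MP_3fd745_al.Sv.LocFin

namespace Pool.Agent.P.MP_3fd745_al.Sv

open scoped commutatorElement

variable {Γ V : Type} [Group Γ] [AddCommGroup V]

lemma omega_pow {a b : Γ} (h : Commute ⁅a, b⁆ a) (m : ℕ) : ⁅a ^ m, b⁆ = ⁅a, b⁆ ^ m := by
  induction m with
  | zero => simp
  | succ m ih =>
    have e : ⁅a ^ (m + 1), b⁆ = a * ⁅a ^ m, b⁆ * a⁻¹ * ⁅a, b⁆ := by
      simp only [commutatorElement_def, pow_succ']
      group
    rw [e, ih, ← (h.pow_left m).eq, mul_inv_cancel_right, pow_succ]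

lemma omega_mul {a b : Γ} (ha : Commute ⁅b, a⁆ a) (hb : Commute ⁅b, a⁆ b) (m : ℕ) :
    (a * b) ^ m = ⁅b, a⁆ ^ m.choose 2 * (a ^ m * b ^ m) := by
  induction m with
  | zero => simp
  | succ m ih =>
    have e : b ^ m * a = ⁅b, a⁆ ^ m * (a * b ^ m) := by
      rw [← omega_pow hb, commutatorElement_def]
      group
    have e2 : a ^ m * ⁅b, a⁆ ^ m = ⁅b, a⁆ ^ m * a ^ m := (ha.pow_pow m m).eq.symm
    calc (a * b) ^ (m + 1) = ⁅b, a⁆ ^ m.choose 2 * (a ^ m * (b ^ m * a) * b) := by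
          rw [pow_succ, ih]; simp only [mul_assoc]
      _ = ⁅b, a⁆ ^ m.choose 2 * ((a ^ m * ⁅b, a⁆ ^ m) * (a * b ^ m * b)) := by
          rw [e]; simp only [mul_assoc]
      _ = _ := by
          rw [e2, Nat.choose_succ_succ' m 1, Nat.choose_one_right, add_comm m, pow_add, pow_succ,
            pow_succ]
          simp only [mul_assoc]

lemma omega_mul' {a b : Γ} (ha : Commute ⁅b, a⁆ a) (hb : Commute ⁅b, a⁆ b) {q m : ℕ}
    (hq : Commute (b ^ q) a) (hm : q ∣ m.choose 2) : (a * b) ^ m = a ^ m * b ^ m := by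
  obtain ⟨c, hc⟩ := hm
  rw [omega_mul ha hb, hc, pow_mul, ← omega_pow hb,
    commutatorElement_eq_one_iff_commute.2 hq, one_pow, one_mul]

lemma omega_dvd {q : ℕ} (hq : Odd q) (j : ℕ) : q ∣ (q ^ j).choose 2 := by
  cases j with
  | zero => simp
  | succ j =>
    obtain ⟨c, hc⟩ : Odd (q ^ (j + 1)) := hq.pow
    have : (q ^ (j + 1)).choose 2 = q ^ (j + 1) * c := by
      rw [Nat.choose_two_right, hc, Nat.add_sub_cancel, mul_left_comm,
        Nat.mul_div_cancel_left _ two_pos]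
    rw [this]
    exact Dvd.dvd.mul_right (dvd_pow_self q j.succ_ne_zero) c

lemma omega_lt (hT : TON Γ) (a : Γ) {r : ℕ} (hr : r.Prime) (h : r ∣ orderOf a) :
    orderOf (a ^ r) < orderOf a := by
  rw [orderOf_pow_of_dvd hr.ne_zero h]
  exact Nat.div_lt_self (hT.fin a).orderOf_pos hr.one_lt

theorem exists_omega (hT : TON Γ) (hP : PW Γ) (K : Subgroup Γ) (hK : K.Normal)
    (hna : ∃ a ∈ K, ∃ b ∈ K, ¬ Commute a b)
    (h2 : ∀ a ∈ K, ∀ b ∈ K, ∀ c ∈ K, Commute ⁅a, b⁆ c) :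
    ∃ (q : ℕ) (Ω : Subgroup Γ), q.Prime ∧ Odd q ∧ Ω.Normal ∧ Ω ≤ K ∧ (∀ e ∈ Ω, e ^ q = 1) ∧
      ∃ e ∈ Ω, ∃ f ∈ Ω, ¬ Commute e f := by
  by_contra hc
  have hO : ∀ q : ℕ, q.Prime → Odd q → ∀ x ∈ K, ∀ y ∈ K, orderOf x = q → y ^ q = 1 →
      y ∈ Subgroup.zpowers x := fun q hq ho x hx y hy ex ey => by
    let Ω : Subgroup Γ :=
      { carrier := {a | a ∈ K ∧ a ^ q = 1}
        one_mem' := ⟨K.one_mem, one_pow q⟩
        inv_mem' := fun h => ⟨K.inv_mem h.1, by rw [inv_pow, h.2, inv_one]⟩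
        mul_mem' := fun {a b} ha hb => ⟨K.mul_mem ha.1 hb.1, by
          rw [omega_mul' (h2 b hb.1 a ha.1 a ha.1) (h2 b hb.1 a ha.1 b hb.1) (q := q)
            (hb.2 ▸ Commute.one_left a) (by simpa using omega_dvd ho 1), ha.2, hb.2, one_mul]⟩ }
    have hn : Ω.Normal := ⟨fun a ha g => ⟨hK.conj_mem a ha.1 g, by
      rw [conj_pow, ha.2, mul_one, mul_inv_cancel]⟩⟩
    refine hP Ω ⟨hn, fun e he f hf => ?_⟩ x ⟨hx, ex ▸ pow_orderOf_eq_one x⟩ y ⟨hy, ey⟩ (ex ▸ ey)
    by_contra hef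
    exact hc ⟨q, Ω, hq, ho, hn, fun a ha => ha.1, fun a ha => ha.2, e, he, f, hf, hef⟩
  have key : ∀ n : ℕ, ∀ a ∈ K, ∀ b ∈ K, orderOf a + orderOf b = n → Commute a b := by
    intro n
    induction n using Nat.strong_induction_on with
    | _ n ih =>
      suffices H : ∀ a ∈ K, ∀ b ∈ K, orderOf a + orderOf b = n → orderOf b ≤ orderOf a →
          Commute a b by
        intro a ha b hb e
        rcases le_total (orderOf b) (orderOf a) with h | h
        · exact H a ha b hb e h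
        · exact (H b hb a ha (by omega) h).symm
      intro a ha b hb e hle
      by_contra hab
      have hc1 : ⁅a, b⁆ ≠ 1 := fun h => hab (commutatorElement_eq_one_iff_commute.1 h)
      have hb' : ∀ r : ℕ, r.Prime → r ∣ orderOf b → Commute (b ^ r) a := fun r hr h =>
        ih _ (by have := omega_lt hT b hr h; omega) _ (K.pow_mem hb r) a ha rfl
      have ha1 : ∀ r : ℕ, r.Prime → r ∣ orderOf a → r = orderOf ⁅a, b⁆ := fun r hr h => by
        have := Fact.mk hr
        refine (orderOf_eq_prime ?_ hc1).symm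
        rw [← omega_pow (h2 a ha b hb a ha), commutatorElement_eq_one_iff_commute]
        exact ih _ (by have := omega_lt hT a hr h; omega) _ (K.pow_mem ha r) b hb rfl
      have hb1 : ∀ r : ℕ, r.Prime → r ∣ orderOf b → r = orderOf ⁅a, b⁆ := fun r hr h => by
        have := Fact.mk hr
        refine (orderOf_eq_prime ?_ hc1).symm
        rw [← commutatorElement_inv, inv_pow, ← omega_pow (h2 b hb a ha b hb),
          commutatorElement_eq_one_iff_commute.2 (hb' r hr h), inv_one]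
      have hbo : orderOf b ≠ 1 := fun h => hab (orderOf_eq_one_iff.1 h ▸ Commute.one_right a)
      obtain ⟨q, hq, hqb⟩ := Nat.exists_prime_and_dvd hbo
      have eq := hb1 q hq hqb
      have ho : Odd q := eq ▸ hT.odd_order _
      obtain ⟨i, hi⟩ : ∃ i, orderOf a = q ^ i := ⟨_, Nat.eq_prime_pow_of_unique_prime_dvd
        (hT.fin a).orderOf_pos.ne' fun hr h => (ha1 _ hr h).trans eq.symm⟩
      obtain ⟨j, hj⟩ : ∃ j, orderOf b = q ^ j := ⟨_, Nat.eq_prime_pow_of_unique_prime_dvd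
        (hT.fin b).orderOf_pos.ne' fun hr h => (hb1 _ hr h).trans eq.symm⟩
      obtain ⟨j, rfl⟩ : ∃ j', j = j' + 1 :=
        Nat.exists_eq_succ_of_ne_zero fun h => hbo (by rw [hj, h, pow_zero])
      rw [hi, hj, Nat.pow_le_pow_iff_right hq.one_lt] at hle
      obtain ⟨d, rfl⟩ := Nat.exists_eq_add_of_le hle
      have ex : orderOf ((a ^ q ^ d) ^ q ^ j) = q := by
        rw [← pow_mul, ← pow_add, orderOf_pow_of_dvd (pow_pos hq.pos _).ne'
          (hi ▸ pow_dvd_pow q (by omega)), hi, Nat.pow_div (by omega) hq.pos,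
          show j + 1 + d - (d + j) = 1 by omega, pow_one]
      obtain ⟨k, hk⟩ := hO q hq ho _ (K.pow_mem (K.pow_mem ha _) _) (b ^ q ^ j) (K.pow_mem hb _) ex
        (by rw [← pow_mul, ← pow_succ, ← hj, pow_orderOf_eq_one])
      have hca : Commute a ((a ^ q ^ d) ^ (-k)) := (Commute.self_pow a _).zpow_right _
      have hcK : (a ^ q ^ d) ^ (-k) ∈ K := K.zpow_mem (K.pow_mem ha _) _
      have e1 : ((a ^ q ^ d) ^ (-k) * b) ^ q ^ j = 1 := by
        rw [omega_mul' (h2 b hb _ hcK _ hcK) (h2 b hb _ hcK b hb)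
          (((hb' q hq hqb).pow_right _).zpow_right _) (omega_dvd ho j), ← hk]
        simp only
        rw [← zpow_natCast ((a ^ q ^ d) ^ (-k)), ← zpow_mul, mul_comm (-k), zpow_mul,
          zpow_natCast, zpow_neg, inv_mul_cancel]
      have hlt : orderOf ((a ^ q ^ d) ^ (-k) * b) < orderOf b :=
        (orderOf_le_of_pow_eq_one (pow_pos hq.pos _) e1).trans_lt
          (hj ▸ Nat.pow_lt_pow_right hq.one_lt j.lt_succ_self)
      have := hca.inv_right.mul_right (ih _ (by omega) a ha _ (K.mul_mem hcK hb) rfl)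
      rw [inv_mul_cancel_left] at this
      exact hab this
  obtain ⟨a, ha, b, hb, hab⟩ := hna
  exact hab (key _ a ha b hb rfl)

end Pool.Agent.P.MP_3fd745_al.Sv
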