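import Pool.Agent.P.MP_3fd745_al.Sv.Def

namespace Pool.Agent.P.MP_3fd745_al.Sv

open scoped commutatorElement

variable {Γ V : Type} [Group Γ] [AddCommGroup V]

theorem poww_ring {G R : Type} [Group G] [CommRing R] [Nontrivial R] (χ : G →* R)
    (l : ℕ) (hl : l.Prime) (hlR : (l : R) = 0) (hfin : ∀ g : G, IsOfFinOrder g)
    (hcop : ∀ c : G, ¬ l ∣ orderOf c)
    (hN : ∀ c : G, c ≠ 1 → ∑ i ∈ Finset.range (orderOf c), χ c ^ i = 0)
    (b b' : G) (h : b' ^ orderOf b = 1) : ∃ i : ℕ, b ^ i = b' := by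
  obtain ⟨m, hm⟩ := Ideal.exists_maximal R
  have : m.IsPrime := hm.isPrime
  have : IsDomain (R ⧸ m) := Ideal.Quotient.isDomain m
  let ψ : G →* R ⧸ m := (Ideal.Quotient.mk m).toMonoidHom.comp χ
  have hψ : ∀ c, ψ c = Ideal.Quotient.mk m (χ c) := fun c => rfl
  have hinj : Function.Injective ψ := by
    rw [injective_iff_map_eq_one]
    intro c hc
    by_contra hne
    have h1 := congrArg (Ideal.Quotient.mk m) (hN c hne)
    rw [map_sum, map_zero] at h1
    simp only [map_pow, ← hψ, hc, one_pow, Finset.sum_const, Finset.card_range, nsmul_eq_mul,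
      mul_one] at h1
    have h2 : ((l : ℕ) : R ⧸ m) = 0 := by
      have := congrArg (Ideal.Quotient.mk m) hlR
      rwa [map_natCast, map_zero] at this
    have hco : Nat.Coprime l (orderOf c) := (Nat.Prime.coprime_iff_not_dvd hl).2 (hcop c)
    have h3 : IsCoprime ((l : ℕ) : R ⧸ m) ((orderOf c : ℕ) : R ⧸ m) := hco.cast
    rw [h1, h2] at h3
    exact not_isCoprime_zero_zero h3
  have : NeZero (orderOf b) := ⟨(hfin b).orderOf_pos.ne'⟩
  have hp : IsPrimitiveRoot (ψ b) (orderOf b) := by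
    rw [← orderOf_injective ψ hinj b]
    exact IsPrimitiveRoot.orderOf _
  obtain ⟨i, -, hi⟩ := hp.eq_pow_of_pow_eq_one (ξ := ψ b') (by rw [← map_pow, h, map_one])
  exact ⟨i, hinj (by rw [map_pow, hi])⟩

open scoped IsMulCommutative in
theorem pw_of_free [Nontrivial V] (ρ : Γ →* Module.End ℤ V) (hfin : ∀ g : Γ, IsOfFinOrder g)
    (l : ℕ) (hl : l.Prime) (hlV : ∀ v : V, l • v = 0)
    (hcop : ∀ B : Subgroup Γ, AN B → ∀ b ∈ B, ¬ l ∣ orderOf b)
    (hfree : ∀ B : Subgroup Γ, AN B → ∀ b ∈ B, b ≠ 1 → ∀ v, ρ b v = v → v = 0) : PW Γ := by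
  intro B hB b hb b' hb' h
  let R := Subring.closure (ρ '' (B : Set Γ))
  have : IsMulCommutative R := Subring.isMulCommutative_closure (by
    rintro _ ⟨x, hx, rfl⟩ _ ⟨y, hy, rfl⟩
    rw [← map_mul, ← map_mul, (hB.2 x hx y hy).eq])
  let χ : B →* R :=
    { toFun := fun c => ⟨ρ c, Subring.subset_closure ⟨c, c.2, rfl⟩⟩
      map_one' := Subtype.ext (by simp)
      map_mul' := fun x y => Subtype.ext (by simp) }
  have hχ : ∀ c : B, ((χ c : R) : Module.End ℤ V) = ρ c := fun c => rfl
  have hlR : (l : R) = 0 := by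
    apply Subtype.ext
    ext v
    simpa using hlV v
  have key := poww_ring (G := B) (R := R) χ l hl hlR
    (fun g => orderOf_pos_iff.1 (by rw [← Subgroup.orderOf_coe]; exact (hfin g).orderOf_pos))
    (fun c => by rw [← Subgroup.orderOf_coe]; exact hcop B hB c c.2)
    (fun c hc => by
      apply Subtype.ext
      have hc' : (c : Γ) ≠ 1 := fun e => hc (Subtype.ext e)
      have h1 : (ρ c - 1) * ∑ i ∈ Finset.range (orderOf c), ρ c ^ i = 0 := by
        rw [mul_geom_sum, ← map_pow, ← Subgroup.orderOf_coe, pow_orderOf_eq_one, map_one, sub_self]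
      have h2 : ∑ i ∈ Finset.range (orderOf c), ρ c ^ i = 0 := by
        ext v
        refine hfree B hB c c.2 hc' _ ?_
        have := congrArg (fun f : Module.End ℤ V => f v) h1
        simp only [Module.End.mul_apply, LinearMap.sub_apply, Module.End.one_apply,
          LinearMap.zero_apply] at this
        exact sub_eq_zero.1 this
      rw [AddSubmonoidClass.coe_finsetSum]
      simpa [hχ] using h2)
    ⟨b, hb⟩ ⟨b', hb'⟩ (by
      apply Subtype.ext
      rw [← Subgroup.orderOf_coe]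
      simpa using h)
  obtain ⟨i, hi⟩ := key
  have hi' : b ^ i = b' := by simpa using congrArg Subtype.val hi
  rw [← hi']
  exact Subgroup.npow_mem_zpowers b i

end Pool.Agent.P.MP_3fd745_al.Sv
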