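import Pool.Agent.P.MP_3fd745_al.Sv.Cop
import Pool.Agent.P.MP_3fd745_al.Sv.CaseOne
import Pool.Agent.P.MP_3fd745_al.Sv.PowW
import Pool.Agent.P.MP_3fd745_al.Sv.ClassTwo
import Pool.Agent.P.MP_3fd745_al.Sv.Omega
import Pool.Agent.P.MP_3fd745_al.Sv.CaseTwo

/-! Simple modules with the triple property are trivial. -/

namespace Pool.Agent.P.MP_3fd745_al.Sv

variable {Γ V : Type} [Group Γ] [AddCommGroup V]

theorem claim [Group.IsSolvable Γ] (hT : TON Γ) (ρ : Γ →* Module.End ℤ V)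
    (hinj : Function.Injective ρ) (hS : Simp ρ) (l : ℕ) (hl : l.Prime) (hlV : ∀ v : V, l • v = 0)
    (hTri : Tri ρ) (g : Γ) : g = 1 := by
  by_contra hg
  have hLF : LF Γ := lf_of_solvable hT.fin
  have hV : Nontrivial V := by
    by_contra h
    rw [not_nontrivial_iff_subsingleton] at h
    exact hg (hinj (by ext v; exact Subsingleton.elim _ _))
  have hcop := an_coprime hLF hT.fin ρ hinj hS l hl hlV
  have hfree : ∀ B : Subgroup Γ, AN B → ∀ b ∈ B, b ≠ 1 → ∀ v, ρ b v = v → v = 0 :=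
    fun B hB b hb hb1 v hv => by
      by_contra h0
      exact case_one ρ hT.odd hinj hS l hl hlV B hB (hcop B hB) b hb hb1 v h0 hv hTri
  by_cases hab : ∀ a b : Γ, Commute a b
  · obtain ⟨x, u, -, hx, hu, hxu, h⟩ := hTri ⊥ fun h => hg (by
      rw [← Subgroup.mem_bot, h]; trivial)
    obtain ⟨w, hw⟩ := exists_ne (0 : V)
    obtain ⟨s, e1, e2⟩ := h w
    have hf := hfree ⊤ ⟨inferInstance, fun a _ b _ => hab a b⟩
    obtain rfl : s = 1 := by
      by_contra hs
      have := hf s trivial hs (ρ u w - ρ x w)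
        (by rw [map_sub, sub_eq_sub_iff_add_eq_add, e1, add_comm])
      exact hw (hf (x⁻¹ * u) trivial hxu w (by rw [rho_mul, sub_eq_zero.1 this, rho_inv]))
    simp only [map_one, Module.End.one_apply] at e2
    have := hf x trivial hx (ρ u w - w)
      (by rw [map_sub, sub_eq_sub_iff_add_eq_add, ← e2, add_comm])
    exact hw (hf u trivial hu w (sub_eq_zero.1 this))
  · push Not at hab
    have hP := pw_of_free ρ hT.fin l hl hlV hcop hfree
    obtain ⟨K, hK, hna, h2⟩ := exists_class_two hT hP hab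
    obtain ⟨q, Ω, hq, hqo, hΩ, hle, hexp, hna'⟩ := exists_omega hT hP K hK hna h2
    obtain ⟨z, E⟩ := exists_ext hT hP q Ω hq hqo hΩ hexp hna'
      fun a ha b hb c hc => h2 a (hle ha) b (hle hb) c (hle hc)
    have hZ : AN (Subgroup.zpowers z) := by
      refine ⟨⟨?_⟩, ?_⟩
      · rintro _ ⟨k, rfl⟩ g
        rw [← ((E.zcen g).zpow_left k).eq, mul_inv_cancel_right]
        exact ⟨k, rfl⟩
      · rintro _ ⟨k, rfl⟩ b -
        exact (E.zcen b).zpow_left k
    refine case_two hLF hT.odd E ρ (fun v hv => ?_) (hfree _ hZ) hTri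
    have h1 := hcop _ hZ z (Subgroup.mem_zpowers z)
    rw [E.zord, ← hl.coprime_iff_not_dvd] at h1
    exact AddMonoid.addOrderOf_eq_one_iff.1 (Nat.eq_one_of_dvd_coprimes h1
      (addOrderOf_dvd_of_nsmul_eq_zero (hlV v)) (addOrderOf_dvd_of_nsmul_eq_zero hv))

end Pool.Agent.P.MP_3fd745_al.Sv
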