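import Pool.Agent.P.MP_3fd745_al.Sv.Def

/-! A rigid subgroup, normal or not, gives a proper total subring. -/

namespace Pool.Agent.P.MP_3fd745_al.Sv

variable {D : Type} [DivisionRing D] {C : Type} {θ : D → C}

/-- a left invariant rigid colouring -/
structure Col (θ : D → C) : Prop where
  z : ∀ a, θ a = θ 0 → a = 0
  mul : ∀ g a b, θ a = θ b → θ (g * a) = θ (g * b)
  odd : ∀ t a, θ (t * (t * a)) = θ a → θ (t * a) = θ a
  rig : ∀ a b, θ a ≠ θ b → θ (a + b) = θ a ∨ θ (a + b) = θ b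

/-- `a` is small against `b` -/
def Ll (θ : D → C) (a b : D) : Prop := θ a ≠ θ b ∧ θ (a + b) = θ b

/-- the total preorder -/
def Le (θ : D → C) (a b : D) : Prop := Ll θ a b ∨ (θ a = θ b ∧ ∀ c, Ll θ c a → Ll θ c b)

lemma Ll.asymm {a b : D} (h : Ll θ a b) (h' : Ll θ b a) : False :=
  h.1 (by rw [← h'.2, add_comm, h.2])

namespace Col

variable (H : Col θ)
include H

lemma canc {g a b : D} (hg : g ≠ 0) (h : θ (g * a) = θ (g * b)) : θ a = θ b := by
  simpa [hg] using H.mul g⁻¹ _ _ h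

lemma neg (a : D) : θ (-a) = θ a := by
  simpa using H.odd (-1) a (by simp)

lemma lmul {g a b : D} (hg : g ≠ 0) (h : Ll θ a b) : Ll θ (g * a) (g * b) :=
  ⟨fun h' => h.1 (H.canc hg h'), by rw [← mul_add]; exact H.mul g _ _ h.2⟩

lemma tot {a b : D} (h : θ a ≠ θ b) : Ll θ a b ∨ Ll θ b a :=
  (H.rig a b h).symm.imp (fun h' => ⟨h, h'⟩) fun h' => ⟨h.symm, by rwa [add_comm]⟩

lemma ne0 {a b : D} (h : Ll θ a b) : b ≠ 0 := by
  rintro rfl
  exact h.1 (by simpa using h.2)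

lemma f1a {a b c : D} (h1 : Ll θ a b) (h2 : Ll θ b c) (h : θ a ≠ θ c) : Ll θ (a + b) c := by
  have e1 : θ (a + b) ≠ θ c := h1.2 ▸ h2.1
  refine ⟨e1, (H.rig _ _ e1).resolve_left fun h3 => ?_⟩
  rw [h1.2, add_assoc] at h3
  rcases H.rig a (b + c) (h2.2 ▸ h) with h4 | h4
  · exact h1.1 (h4.symm.trans h3)
  · exact h2.1 (h3.symm.trans (h4.trans h2.2))

lemma f1 {a b c : D} (h1 : Ll θ a b) (h2 : Ll θ b c) (h : θ a ≠ θ c) : Ll θ a c := by
  refine ⟨h, (H.rig _ _ h).resolve_left fun h3 => ?_⟩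
  have h4 := (H.f1a h1 h2 h).2
  rw [add_right_comm] at h4
  rcases H.rig (a + c) b (h3 ▸ h1.1) with h5 | h5
  · exact h (h3.symm.trans (h5.symm.trans h4))
  · exact h2.1 (h5.symm.trans h4)

lemma third {t a : D} (ht : t ≠ 0) (h : θ a ≠ θ (t * a)) :
    θ a ≠ θ (t * (t * a)) ∧ θ (t * a) ≠ θ (t * (t * a)) :=
  ⟨fun h' => h (H.odd t a h'.symm).symm, fun h' => h (H.canc ht h')⟩

lemma f2 {a b : D} (h : Ll θ a b) : Ll θ (-a) b := by
  by_cases ha : a = 0
  · simpa [ha] using h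
  refine (H.tot (by rw [H.neg]; exact h.1)).resolve_right fun h' => ?_
  obtain ⟨t, rfl⟩ : ∃ t, b = t * a := ⟨b * a⁻¹, by simp [ha]⟩
  have ht : t ≠ 0 := left_ne_zero_of_mul (H.ne0 h)
  obtain ⟨e1, e2⟩ := H.third ht h.1
  have h1 := H.lmul (neg_ne_zero.2 ht) h'
  rw [neg_mul_neg] at h1
  have h2 := H.lmul (g := -1) (by simp) (H.f1 h1 h' (by rw [neg_mul, H.neg, H.neg]; exact e1.symm))
  simp only [neg_mul, one_mul, neg_neg] at h2
  exact h2.asymm (H.f1 h (H.lmul ht h) e1)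

lemma f2' {a b : D} (h : Ll θ a b) : Ll θ a (-b) := by
  simpa using H.lmul (g := -1) (by simp) (H.f2 h)

lemma f3 {a b a' b' : D} (h1 : Ll θ a b) (h2 : Ll θ b a') (h3 : Ll θ a' b') (h4 : Ll θ b' a)
    (h : θ a = θ a') : False := by
  by_cases hb : θ b = θ b'
  swap
  · exact (H.f1 h4 h1 (Ne.symm hb)).asymm (H.f1 h2 h3 hb)
  obtain ⟨t, rfl⟩ : ∃ t, b = t * a := ⟨b * a⁻¹, by simp [H.ne0 h4]⟩
  have ht : t ≠ 0 := left_ne_zero_of_mul (H.ne0 h1)
  obtain ⟨e1, e2⟩ := H.third ht h1.1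
  have e3 := H.mul t _ _ h
  have e4 := H.mul t _ _ hb
  rcases H.tot (h ▸ e1 : θ a' ≠ _) with h5 | h5
  · have h6 := H.f1 h5 (H.lmul ht h2) (by rw [← e3]; exact h2.1.symm)
    have h7 := H.f1 h6 (H.lmul ht h3) (by rw [← e4, ← h]; exact e1)
    exact h2.asymm (H.f1 h7 (H.lmul ht h4) h2.1.symm)
  · have h6 := H.f1 h5 h3 (by rw [← hb]; exact e2.symm)
    exact (H.f1 h6 h4 e1.symm).asymm (H.f1 h1 (H.lmul ht h1) e1)

lemma flip {a b c : D} (h : θ a = θ b) (h1 : Ll θ c a) (h2 : ¬ Ll θ c b) : Ll θ b c :=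
  (H.tot (h ▸ h1.1 : θ c ≠ θ b)).resolve_left h2

lemma le_tot (a b : D) : Le θ a b ∨ Le θ b a := by
  by_cases h : θ a = θ b
  · by_contra hc
    simp only [Le, not_or, not_and, not_forall] at hc
    obtain ⟨c, h1, h2⟩ := hc.1.2 h
    obtain ⟨c', h3, h4⟩ := hc.2.2 h.symm
    exact H.f3 (H.flip h.symm h3 h4) h3 (H.flip h h1 h2) h1 h
  · exact (H.tot h).imp Or.inl Or.inl

lemma le_trans' {a b c : D} (h1 : Le θ a b) (h2 : Le θ b c) : Le θ a c := by
  rcases h1 with h1 | ⟨e1, h1⟩ <;> rcases h2 with h2 | ⟨e2, h2⟩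
  · by_cases h : θ a = θ c
    · exact Or.inr ⟨h, fun e he => by_contra fun hc => H.f3 h1 h2 (H.flip h he hc) he h⟩
    · exact Or.inl (H.f1 h1 h2 h)
  · exact Or.inl (h2 _ h1)
  · exact Or.inl ((H.tot (e1 ▸ h2.1 : θ a ≠ θ c)).resolve_right fun h => h2.asymm (h1 _ h))
  · exact Or.inr ⟨e1.trans e2, fun e he => h2 _ (h1 _ he)⟩

lemma le_mul {g a b : D} (hg : g ≠ 0) (h : Le θ a b) : Le θ (g * a) (g * b) := by
  refine h.imp (H.lmul hg) fun h => ⟨H.mul g _ _ h.1, fun c hc => ?_⟩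
  have := H.lmul hg (h.2 (g⁻¹ * c) (by simpa [hg] using H.lmul (inv_ne_zero hg) hc))
  simpa [hg] using this

lemma one_add {x : D} (h : Le θ x 1) : Le θ (x + 1) 1 := by
  rcases h with h | ⟨e, h⟩
  · refine Or.inr ⟨h.2, fun c hc => by_contra fun hc' => ?_⟩
    have h1 := H.flip h.2 hc hc'
    have hc0 := H.ne0 h1
    have key : ∀ g e : D, g ≠ 0 → Ll θ (g * 1) e → Ll θ e (g * (x + 1)) → θ (g * x) = θ e := by
      intro g e hg h2 h3
      by_contra h4
      rw [mul_add] at h3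
      exact h3.asymm (H.f1a (H.lmul hg h) h2 h4)
    have e1 := key 1 c one_ne_zero (by simpa using h1) (by simpa using hc)
    rw [one_mul] at e1
    obtain ⟨e2, e3⟩ := H.third (t := c) (a := 1) hc0 (by simpa using h1.1)
    simp only [mul_one] at e2 e3
    have h2 : Ll θ c (c * c) := by simpa using H.lmul hc0 h1
    have h3 : ¬ Ll θ (c * c) (x + 1) := fun h' => e3 (e1.symm.trans (by
      simpa using key 1 (c * c) one_ne_zero (by simpa using H.f1 h1 h2 e2) (by simpa using h')))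
    have e4 : θ (c * (x + 1)) = θ c := by simpa using H.mul c _ _ h.2
    have h4 : ¬ Ll θ (x + 1) (c * (x + 1)) := fun h' => e2 (by
      rw [← h.2, ← key c _ hc0 (by simpa using hc) h']; exact H.mul c _ _ e1)
    have h5 := (H.tot (a := x + 1) (b := c * (x + 1)) (by rw [e4]; exact hc.1.symm)).resolve_left h4
    exact h3 (H.f1 (H.lmul hc0 hc) h5 (by rw [h.2]; exact e2.symm))
  · by_cases hy : θ (x + 1) = θ 1
    · refine Or.inr ⟨hy, fun c hc => by_contra fun hc' => ?_⟩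
      have h1 := H.flip hy hc hc'
      have h2 : Ll θ (1 + c) x := ⟨by rw [h1.2, e]; exact h1.1.symm, by
        rw [e, ← hy, ← hc.2]; congr 1; abel⟩
      have h3 := (H.f2' (h _ h2)).2
      rw [H.neg, show 1 + c + -1 = c by abel] at h3
      exact h1.1 h3.symm
    · refine Or.inl ((H.tot hy).resolve_right fun h1 => hy ?_)
      have h3 := (H.f2 h1).2
      rw [show -1 + (x + 1) = x by abel] at h3
      exact h3.symm.trans e

lemma zero_le : Le θ 0 1 :=
  Or.inl ⟨fun h => one_ne_zero (H.z 1 h.symm), by simp⟩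

lemma total (hp : ∃ a, a ≠ 0 ∧ θ a ≠ θ 1) :
    ∃ V : Subring D, (∀ x, x ∈ V ∨ x⁻¹ ∈ V) ∧ ∃ x, x ∉ V := by
  have hmul : ∀ {x y : D}, Le θ x 1 → Le θ y 1 → Le θ (x * y) 1 := fun {x y} hx hy => by
    by_cases h0 : x = 0
    · simpa [h0] using H.zero_le
    · exact H.le_trans' (by simpa using H.le_mul h0 hy) hx
  have hadd : ∀ {x y : D}, Le θ x y → Le θ x 1 → Le θ y 1 → Le θ (x + y) 1 := fun {x y} h hx hy => by
    by_cases h0 : y = 0
    · simpa [h0] using hx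
    · have h1 := H.one_add (x := y⁻¹ * x) (by simpa [h0] using H.le_mul (inv_ne_zero h0) h)
      simpa [mul_add, h0] using hmul hy h1
  have hneg : Le θ (-1) 1 := Or.inr ⟨H.neg 1, fun c hc => by simpa using H.f2' hc⟩
  refine ⟨{ carrier := {x | Le θ x 1}
            mul_mem' := hmul
            one_mem' := Or.inr ⟨rfl, fun _ h => h⟩
            add_mem' := fun {x y} hx hy => ?_
            zero_mem' := H.zero_le
            neg_mem' := fun {x} hx => by simpa using hmul hneg hx }, fun x => ?_, ?_⟩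
  · rcases H.le_tot x y with h | h
    · exact hadd h hx hy
    · rw [add_comm]; exact hadd h hy hx
  · by_cases h0 : x = 0
    · left; rw [h0]; exact H.zero_le
    · refine (H.le_tot x 1).imp id fun h => ?_
      change Le θ x⁻¹ 1
      simpa [h0] using H.le_mul (inv_ne_zero h0) h
  · obtain ⟨a, h0, ha⟩ := hp
    have : ∃ b, Ll θ 1 b := (H.tot ha).elim
      (fun h => ⟨a⁻¹, by simpa [h0] using H.lmul (inv_ne_zero h0) h⟩) fun h => ⟨a, h⟩
    obtain ⟨b, hb⟩ := this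
    exact ⟨b, fun h => h.elim hb.asymm fun h => hb.1 h.1.symm⟩

end Col

theorem rigid_total (S : Subgroup Dˣ) (hS : S ≠ ⊤) (h2 : ∀ t : Dˣ, t ^ 2 ∈ S → t ∈ S)
    (hr : ∀ x u : Dˣ, (u : D) = 1 + x → x ∈ S ∨ u ∈ S ∨ x⁻¹ * u ∈ S) :
    ∃ V : Subring D, (∀ x, x ∈ V ∨ x⁻¹ ∈ V) ∧ ∃ x, x ∉ V := by
  let θ : D → Set D := fun a => {b | ∃ s ∈ S, b = a * s}
  have key : ∀ a b : D, θ a = θ b ↔ ∃ s ∈ S, a = b * s := fun a b => by
    constructor
    · intro h
      have : a ∈ θ a := ⟨1, S.one_mem, by simp⟩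
      rwa [h] at this
    · rintro ⟨s, hs, rfl⟩
      ext c
      constructor
      · rintro ⟨s', hs', rfl⟩
        exact ⟨s * s', S.mul_mem hs hs', by simp [mul_assoc]⟩
      · rintro ⟨s', hs', rfl⟩
        exact ⟨s⁻¹ * s', S.mul_mem (S.inv_mem hs) hs', by simp [mul_assoc]⟩
  have keyu : ∀ a b : Dˣ, θ a = θ b ↔ b⁻¹ * a ∈ S := fun a b => by
    rw [key]
    constructor
    · rintro ⟨s, hs, e⟩
      rwa [show a = b * s from Units.ext e, inv_mul_cancel_left]
    · exact fun h => ⟨_, h, by simp⟩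
  have hmul : ∀ g a b, θ a = θ b → θ (g * a) = θ (g * b) := fun g a b h => by
    obtain ⟨s, hs, rfl⟩ := (key _ _).1 h
    exact (key _ _).2 ⟨s, hs, (mul_assoc _ _ _).symm⟩
  have H : Col θ := by
    refine ⟨fun a h => ?_, hmul, fun t a h => ?_, fun a b h => ?_⟩
    · obtain ⟨s, -, e⟩ := (key _ _).1 h
      simpa using e
    · by_cases ha : a = 0
      · simp [ha]
      by_cases ht : t = 0
      · simpa [ht] using h
      lift a to Dˣ using Ne.isUnit ha
      lift t to Dˣ using Ne.isUnit ht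
      refine (keyu (t * a) a).2 (h2 _ ?_)
      convert (keyu (t * (t * a)) a).1 h using 1
      simp [sq, mul_assoc]
    · by_cases ha : a = 0
      · simp [ha]
      by_cases hb : b = 0
      · simp [hb]
      lift a to Dˣ using Ne.isUnit ha
      lift b to Dˣ using Ne.isUnit hb
      have hm : (-1 : Dˣ) ∈ S := h2 _ (by simp)
      by_cases hab : (a : D) + b = 0
      · exact absurd ((key _ _).2 ⟨-1, hm, by simp [eq_neg_of_add_eq_zero_left hab]⟩) h
      obtain ⟨c, hc⟩ := Ne.isUnit hab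
      rw [← hc, keyu, keyu]
      rcases hr (a⁻¹ * b) (a⁻¹ * c) (by simp [hc, mul_add]) with h1 | h1 | h1
      · exact absurd ((keyu b a).2 h1).symm h
      · exact Or.inl h1
      · exact Or.inr (by simpa [mul_assoc] using h1)
  obtain ⟨a, ha⟩ : ∃ a, a ∉ S := by
    by_contra h
    exact hS ((Subgroup.eq_top_iff' S).2 (by simpa using h))
  exact H.total ⟨a, a.ne_zero, fun h => ha (by simpa using (keyu a 1).1 h)⟩

end Pool.Agent.P.MP_3fd745_al.Sv
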