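import Pool.Agent.P.MP_3fd745_al.Sv.Tors
import Pool.Agent.P.MP_3fd745_al.Sv.Rigid

/-! Abelian normal sections of the multiplicative group have the triple property. -/

namespace Pool.Agent.P.MP_3fd745_al.Sv

open scoped commutatorElement

variable {D : Type} [DivisionRing D]

lemma conj_key {G : Type} [Group G] (π : Dˣ →* G) (p r δ : Dˣ) (h : (δ : D) = p - r)
    (hc : Commute (π p) (π r)) : Commute (π δ) (π p * (π r)⁻¹) := by
  have h1 : Commute (δ * r⁻¹) (p * r⁻¹) := Units.ext (by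
    have : ((δ * r⁻¹ : Dˣ) : D) = (p * r⁻¹ : Dˣ) - 1 := by simp [h, sub_mul]
    rw [Units.val_mul, Units.val_mul (p * r⁻¹), this]
    exact (Commute.refl _).sub_left (Commute.one_left _))
  have h2 := h1.map π
  simp only [map_mul, map_inv] at h2
  simpa using h2.mul_left (hc.symm.mul_right (Commute.refl _).inv_right)

lemma conj_rel {G : Type} [Group G] (π : Dˣ →* G) (U : Subgroup G) [hn : U.Normal]
    (hU : ∀ a ∈ U, ∀ b ∈ U, Commute a b) (x u h : Dˣ) (hu : (u : D) = 1 + x) (hh : π h ∈ U) :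
    ∃ s : G, s * (π u * π h * (π u)⁻¹ * (π x * π h * (π x)⁻¹)⁻¹) * s⁻¹ =
        π u * π h * (π u)⁻¹ * (π x * π h * (π x)⁻¹)⁻¹ ∧
      π x * (π h * (π u * π h * (π u)⁻¹)⁻¹) * (π x)⁻¹ =
        s * (π h * (π u * π h * (π u)⁻¹)⁻¹) * s⁻¹ := by
  have e : (((u * h * u⁻¹ : Dˣ) : D) - (x * h * x⁻¹ : Dˣ)) * x = h - (u * h * u⁻¹ : Dˣ) := by
    have : ((u * h * u⁻¹ : Dˣ) : D) * (1 + x) = (1 + x) * h := by rw [← hu]; simp
    rw [mul_add, add_mul, mul_one, one_mul] at this
    rw [sub_mul, sub_eq_sub_iff_add_eq_add, add_comm, this]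
    simp
  by_cases h0 : ((u * h * u⁻¹ : Dˣ) : D) - (x * h * x⁻¹ : Dˣ) = 0
  · rw [h0, zero_mul, eq_comm, sub_eq_zero, Units.val_inj] at e
    have := congrArg π e
    simp only [map_mul, map_inv] at this
    exact ⟨1, by simp, by rw [← this]; simp⟩
  · have hb := hn.conj_mem _ hh (π x)
    have hc := hn.conj_mem _ hh (π u)
    have h1 := conj_key π _ _ (Units.mk0 _ h0) rfl (by simpa using hU _ hc _ hb)
    have h2 := conj_key π h (u * h * u⁻¹) (Units.mk0 _ h0 * x) e (by simpa using hU _ hh _ hc)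
    simp only [map_mul, map_inv] at h1 h2
    generalize π (Units.mk0 _ h0) = d at h1 h2
    refine ⟨d⁻¹, by rw [h1.inv_left.eq]; simp, ?_⟩
    generalize π h * (π u * π h * (π u)⁻¹)⁻¹ = m at h2
    rw [inv_inv, mul_assoc d⁻¹, eq_inv_mul_iff_mul_eq, ← mul_assoc, ← mul_assoc, h2.eq,
      ← mul_assoc, mul_inv_cancel_right]

theorem comm_tors (hno : ∀ V : Subring D, (∀ x, x ∈ V ∨ x⁻¹ ∈ V) → ∀ x, x ∈ V)
    {G : Type} [Group G] [Group.IsSolvable G] (π : Dˣ →* G) (hπ : Function.Surjective π)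
    (U : Subgroup G) [U.Normal] (hU : ∀ a ∈ U, ∀ b ∈ U, Commute a b) (hT : TON (G ⧸ U))
    (g : G) (n : ℕ) (hn : n ≠ 0) (hg : g ^ n ∈ U) (u : G) (hu : u ∈ U) :
    ∃ k : ℕ, ⁅g, u⁆ ^ n ^ k = 1 := by
  let _ : CommGroup U := { (inferInstance : Group U) with
    mul_comm := fun a b => Subtype.ext (hU a a.2 b b.2) }
  let ρ₀ : G →* Module.End ℤ (Additive U) :=
    { toFun := fun g => (MonoidHom.toAdditive (MulAut.conjNormal g).toMonoidHom).toIntLinearMap
      map_one' := by ext; simp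
      map_mul' := fun a b => by ext; simp }
  let c : Additive U → G := fun a => (a.toMul : U)
  have hc : Function.Injective c := fun a b h => Additive.toMul.injective (Subtype.ext h)
  have c1 : ∀ a b, c (a - b) = c a * (c b)⁻¹ := fun a b => by simp [c, div_eq_mul_inv]
  let ρ : G ⧸ U →* Module.End ℤ (Additive U) := QuotientGroup.lift U ρ₀ fun a ha => by
    refine LinearMap.ext fun b => hc ?_
    change a * c b * a⁻¹ = c b
    rw [(hU a ha (c b) b.toMul.2).eq, mul_inv_cancel_right]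
  have c2 : ∀ g a, c (ρ (QuotientGroup.mk' U g) a) = g * c a * g⁻¹ := fun _ _ => rfl
  have hs := (QuotientGroup.mk'_surjective U).comp hπ
  have hTri : Tri ρ := fun S hS => by
    let f := (QuotientGroup.mk' U).comp π
    by_contra hcon
    refine (rigid_total (S.comap f) (fun e => hS (by
      rw [← Subgroup.map_comap_eq_self_of_surjective (f := f) hs S, e,
        Subgroup.map_top_of_surjective f hs])) (fun t ht => ?_) (fun x u hxu => ?_)).elim
      fun V h => h.2.elim fun y hy => hy (hno V h.1 y)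
    · obtain ⟨m, hm, e⟩ := hT.odd (f t)
      exact mem_of_pow_coprime (Nat.coprime_two_left.2 hm) ht
        (by rw [Subgroup.mem_comap, map_pow, e]; exact S.one_mem)
    · by_contra h
      simp only [not_or] at h
      refine hcon ⟨f x, f u, Commute.map (Units.ext ?_) f, h.1, h.2.1, by simpa using h.2.2,
        fun w => ?_⟩
      · rw [Units.val_mul, Units.val_mul, hxu]
        exact (Commute.one_right _).add_right (Commute.refl _)
      · obtain ⟨h, hh⟩ := hπ (c w)
        obtain ⟨s, e1, e2⟩ := conj_rel π U hU x u h hxu (hh ▸ w.toMul.2)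
        rw [hh] at e1 e2
        have a1 : ρ (QuotientGroup.mk' U s) (ρ (f u) w - ρ (f x) w) = ρ (f u) w - ρ (f x) w :=
          hc (by rw [c2, c1]; exact e1)
        have a2 : ρ (f x) (w - ρ (f u) w) = ρ (QuotientGroup.mk' U s) (w - ρ (f u) w) :=
          hc (by rw [c2, c1]; exact (c2 _ _).trans (by rw [c1]; exact e2))
        rw [map_sub, sub_eq_sub_iff_add_eq_add] at a1
        rw [map_sub, map_sub, sub_eq_sub_iff_add_eq_add] at a2
        exact ⟨QuotientGroup.mk' U s, by rw [a1, add_comm], by rw [← a2, add_comm]⟩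
  obtain ⟨k, hk⟩ := tors_of_tri hT ρ hTri (QuotientGroup.mk' U g) n hn
    (by rw [← map_pow]; exact (QuotientGroup.eq_one_iff _).2 hg) (Additive.ofMul ⟨u, hu⟩)
  refine ⟨k, ?_⟩
  have := congrArg c hk
  rw [show ∀ (m : ℕ) a, c (m • a) = c a ^ m from fun m a => by simp [c], c1, c2] at this
  exact this

end Pool.Agent.P.MP_3fd745_al.Sv
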