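import Pool.Agent.P.MP_3fd745_al.Sv.Nak
import Pool.Agent.P.MP_3fd745_al.Sv.FarT

namespace Pool.Agent.P.MP_3fd745_al.Sv

open scoped commutatorElement

variable {Γ V : Type} [Group Γ] [AddCommGroup V]

lemma cop_conj (ρ : Γ →* Module.End ℤ V) (g a : Γ) (x : V) :
    ρ g ((ρ a - 1) x) = (ρ (g * a * g⁻¹) - 1) (ρ g x) := by
  simp only [LinearMap.sub_apply, Module.End.one_apply, map_sub, rho_mul, rho_inv]

theorem an_coprime (hLF : LF Γ) (hfin : ∀ g : Γ, IsOfFinOrder g) (ρ : Γ →* Module.End ℤ V)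
    (hinj : Function.Injective ρ) (hS : Simp ρ) (l : ℕ) (hl : l.Prime) (hlV : ∀ v : V, l • v = 0)
    (B : Subgroup Γ) (hB : AN B) (b : Γ) (hb : b ∈ B) : ¬ l ∣ orderOf b := by
  intro hd
  obtain ⟨A, hA⟩ : ∃ A : Set Γ, ∀ a, a ∈ A ↔ a ∈ B ∧ a ^ l = 1 := ⟨{a | _}, fun _ => Iff.rfl⟩
  have hcj : ∀ g, ∀ a ∈ A, g * a * g⁻¹ ∈ A := fun g a ha =>
    (hA _).2 ⟨hB.1.conj_mem a ((hA a).1 ha).1 g, by rw [conj_pow, ((hA a).1 ha).2]; simp⟩
  have ho := (hfin b).orderOf_pos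
  have h0 : b ^ (orderOf b / l) ∈ A := (hA _).2 ⟨B.pow_mem hb _, by
    rw [← pow_mul, Nat.div_mul_cancel hd, pow_orderOf_eq_one]⟩
  have h1 : b ^ (orderOf b / l) ≠ 1 := pow_ne_one_of_lt_orderOf
    (Nat.div_pos (Nat.le_of_dvd ho hd) hl.pos).ne' (Nat.div_lt_self ho hl.one_lt)
  generalize b ^ (orderOf b / l) = a₀ at h0 h1
  obtain ⟨v, hv⟩ : ∃ v : V, v ≠ 0 := by
    by_contra hn
    push Not at hn
    exact h1 (hinj (LinearMap.ext fun x => (hn _).trans (hn _).symm))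
  have : Nontrivial (Module.End ℤ V) := ⟨1, 0, fun e => hv (LinearMap.congr_fun e v)⟩
  have : Fact l.Prime := ⟨hl⟩
  have : CharP (Module.End ℤ V) l := (CharP.charP_iff_prime_eq_zero hl).2
    (LinearMap.ext fun x => by rw [Module.End.natCast_apply, hlV, LinearMap.zero_apply])
  have hnil : ∀ a ∈ A, (ρ a - 1) ^ l = 0 := fun a ha => by
    rw [sub_pow_char_of_commute l (Commute.one_right _), ← map_pow, ((hA a).1 ha).2, map_one,
      one_pow, sub_self]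
  letI : CommRing (Subring.closure (ρ '' A)) := Subring.closureCommRingOfComm (by
    rintro _ ⟨a, ha, rfl⟩ _ ⟨a', ha', rfl⟩
    exact ((hB.2 a ((hA a).1 ha).1 a' ((hA a').1 ha').1).map ρ).eq)
  have hm : ∀ a ∈ A, ρ a - 1 ∈ Subring.closure (ρ '' A) := fun a ha =>
    sub_mem (Subring.subset_closure ⟨a, ha, rfl⟩) (one_mem _)
  have hn := nak hLF ρ (Subring.closure (ρ '' A)) (Subring.closure (ρ '' A)).subtype
    (nilradical _) {i | ∃ a ∈ A, i.1 = ρ a - 1} (by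
      rintro g i ⟨a, ha, e⟩
      refine ⟨⟨_, hm _ (hcj g a ha)⟩, ⟨l, Subtype.ext (hnil _ (hcj g a ha))⟩, fun x => ?_⟩
      change ρ g (i.1 x) = _
      rw [e]
      exact cop_conj ρ g a x) v
  rcases hS (Submodule.span ℤ {y | ∃ i ∈ {i : Subring.closure (ρ '' A) | ∃ a ∈ A, i.1 = ρ a - 1},
      ∃ g, y = (Subring.closure (ρ '' A)).subtype i (ρ g v)}) (fun g w hw => by
    refine (Submodule.map_span_le (ρ g) _ _).2 ?_ ⟨w, hw, rfl⟩
    rintro _ ⟨i, ⟨a, ha, e⟩, h, rfl⟩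
    refine Submodule.subset_span ⟨⟨_, hm _ (hcj g a ha)⟩, ⟨_, hcj g a ha, rfl⟩, g * h, ?_⟩
    change ρ g (i.1 _) = _
    rw [e, rho_mul]
    exact cop_conj ρ g a _) with hW | hW
  · have hv' : v ∈ ⨅ a ∈ A, LinearMap.ker (ρ a - 1) := by
      simp only [Submodule.mem_iInf, LinearMap.mem_ker]
      intro a ha
      refine (Submodule.span_eq_bot.1 hW) _ ⟨⟨_, hm a ha⟩, ⟨a, ha, rfl⟩, 1, ?_⟩
      rw [map_one]
      rfl
    rcases hS (⨅ a ∈ A, LinearMap.ker (ρ a - 1)) (fun g w hw => by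
      simp only [Submodule.mem_iInf, LinearMap.mem_ker] at hw ⊢
      intro a ha
      have e := cop_conj ρ g (g⁻¹ * a * g⁻¹⁻¹) w
      rw [hw _ (hcj g⁻¹ a ha), map_zero, show g * (g⁻¹ * a * g⁻¹⁻¹) * g⁻¹ = a by group] at e
      exact e.symm) with hW' | hW'
    · rw [hW'] at hv'
      exact hv hv'
    · refine h1 (hinj ?_)
      rw [map_one, ← sub_eq_zero]
      refine LinearMap.ext fun x => ?_
      have hx : x ∈ ⨅ a ∈ A, LinearMap.ker (ρ a - 1) := hW' ▸ Submodule.mem_top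
      simp only [Submodule.mem_iInf, LinearMap.mem_ker] at hx
      exact hx a₀ h0
  · obtain ⟨r, hr, hr0⟩ := hn (hW ▸ Submodule.mem_top)
    have hu : IsUnit r := by
      have := (mem_nilradical.1 hr).isUnit_add_one
      rwa [sub_add_cancel] at this
    have hu' := (Module.End.isUnit_iff _).1 (hu.map (Subring.closure (ρ '' A)).subtype)
    exact hv (hu'.1 (hr0.trans (map_zero _).symm))

end Pool.Agent.P.MP_3fd745_al.Sv
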