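import Pool.Agent.P.MP_3fd745_al.TrC
import Pool.Agent.P.MP_3fd745_al.Sv.Def

namespace Pool.Agent.P.MP_3fd745_al.Sv

open scoped commutatorElement

variable {D : Type} [DivisionRing D]

open Polynomial in
theorem kaplansky (hrad : ∀ x : Dˣ, ∃ n : ℕ, 0 < n ∧ (x : D) ^ n ∈ Subring.center D) (x : D) :
    x ∈ Subring.center D := by
  by_cases h0 : x = 0
  · rw [h0]; exact zero_mem _
  by_cases h1 : x + 1 = 0
  · rw [eq_neg_of_add_eq_zero_left h1]; exact neg_mem (one_mem _)
  obtain ⟨k, H⟩ := hyp_of (⊤ : Subgroup Dˣ)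
    ⟨0, fun _ => ⊤, rfl, rfl, fun i hi => absurd hi (Nat.not_lt_zero i)⟩ fun x _ => hrad x
  obtain ⟨hx, d, ν, hd, e⟩ := minpoly_binom H x ⟨Units.mk0 x h0, trivial, rfl⟩
  obtain ⟨hy, d', ν', hd', e'⟩ := minpoly_binom H (x + 1) ⟨Units.mk0 _ h1, trivial, rfl⟩
  have hd0 : d ≠ 0 := by rintro rfl; simp at hd
  have hd0' : d' ≠ 0 := by rintro rfl; simp at hd'
  have a1 := minpoly.aeval (Subring.center D) x
  have a2 := minpoly.aeval (Subring.center D) (x + 1)
  rw [e] at a1
  rw [e'] at a2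
  simp only [map_sub, map_pow, aeval_X, aeval_C] at a1 a2
  have m1 : ((X ^ d' - C ν').comp (X + C 1)).Monic := (monic_X_pow_sub_C ν' hd0').comp_X_add_C _
  have m2 : ((X ^ d - C ν).comp (X - C 1)).Monic := (monic_X_pow_sub_C ν hd0).comp_X_sub_C _
  have v1 : X ^ d - C ν ∣ (X ^ d' - C ν').comp (X + C 1) := by
    rw [← e]
    exact minpoly.dvd _ _ (by simpa using a2)
  have v2 : X ^ d' - C ν' ∣ (X ^ d - C ν).comp (X - C 1) := by
    rw [← e']
    exact minpoly.dvd _ _ (by simpa using a1)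
  have n2 := natDegree_le_of_dvd v2 m2.ne_zero
  rw [natDegree_comp, natDegree_X_pow_sub_C, natDegree_X_pow_sub_C, natDegree_X_sub_C,
    mul_one] at n2
  have n1 := natDegree_le_of_dvd v1 m1.ne_zero
  have n3 : ((X ^ d' - C ν').comp (X + C 1)).natDegree = d' := by
    rw [natDegree_comp, natDegree_X_pow_sub_C, natDegree_X_add_C, mul_one]
  rw [n3, natDegree_X_pow_sub_C] at n1
  obtain rfl : d = d' := le_antisymm n1 n2
  have e3 := eq_of_monic_of_dvd_of_natDegree_le (monic_X_pow_sub_C ν hd0) m1 v1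
    (by rw [n3, natDegree_X_pow_sub_C])
  by_cases hd1 : d = 1
  · rw [hd1, pow_one, sub_eq_zero] at a1
    rw [a1]
    exact ν.2
  · have e4 := congrArg (fun p => eval 0 (derivative p)) e3
    have h2 : d - 1 ≠ 0 := by omega
    simp [derivative_pow, h2] at e4
    exact absurd (by simpa using congrArg Subtype.val e4) hd

theorem hua_step (A : Subgroup Dˣ) [A.Normal]
    (h : ∀ a ∈ A, ∀ b ∈ A, ((⁅a, b⁆ : Dˣ) : D) ∈ Subring.center D) (a : Dˣ) (ha : a ∈ A) :
    (a : D) ^ 2 ∈ Subring.center D := by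
  by_cases hc : ∀ b ∈ A, (a : D) * b = b * a
  · refine pow_mem (Subring.mem_center_iff.2 fun x =>
      (central_of_conj (a : D) (fun y hy => ?_) x).symm) 2
    simpa using hc (Units.mk0 y hy * a * (Units.mk0 y hy)⁻¹)
      (Subgroup.Normal.conj_mem inferInstance a ha _)
  push Not at hc
  obtain ⟨b, hb, hne⟩ := hc
  set φ := cj (b : D) b.ne_zero with hφ
  have key : ∀ v ∈ A, ∃ l : Subring.center D, φ v = l • (v : D) := fun v hv =>
    ⟨⟨_, h b hb v hv⟩, by
      rw [hφ, cj_apply, Subring.smul_def, smul_eq_mul]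
      simp [commutatorElement_def]⟩
  have hs : ∀ (s : Subring.center D) (x : D), φ (s • x) = s • φ x := fun s x => by
    rw [Algebra.smul_def, Algebra.smul_def, map_mul, hφ,
      (cj_eq_iff _ _ _).2 (Algebra.commutes s _).symm]
  obtain ⟨l, hl⟩ := key a ha
  have hl1 : l - 1 ≠ 0 := fun e => hne (by
    rw [sub_eq_zero.1 e, one_smul, hφ, cj_eq_iff] at hl
    exact hl.symm)
  have hl0 : l ≠ 0 := by
    rintro rfl
    rw [zero_smul, map_eq_zero] at hl
    exact a.ne_zero hl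
  have h1 : (1 : D) + a ≠ 0 := fun e => hne (by
    rw [eq_neg_of_add_eq_zero_right e]; simp)
  have h2 : (1 : D) + l • (a : D) ≠ 0 := by
    rw [← hl, ← map_one φ, ← map_add, map_ne_zero]
    exact h1
  have hv : ⁅b, Units.mk0 _ h1⁆ ∈ A := by
    rw [commutatorElement_def, mul_assoc, mul_assoc, ← mul_assoc (Units.mk0 _ h1)]
    exact mul_mem hb (Subgroup.Normal.conj_mem inferInstance _ (inv_mem hb) _)
  have ev : ((⁅b, Units.mk0 _ h1⁆ : Dˣ) : D) = (1 + l • (a : D)) * (1 + (a : D))⁻¹ := by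
    have e : 1 + l • (a : D) = φ (1 + a) := by rw [map_add, map_one, hl]
    rw [e, hφ, cj_apply]
    simp [commutatorElement_def]
  obtain ⟨m, hm⟩ := key _ hv
  rw [ev, map_mul, map_inv₀, map_add, map_add, map_one, hs, hl] at hm
  have c1 : Commute (1 + l • (a : D)) (1 + (a : D)) :=
    (Commute.one_left _).add_left (((Commute.one_right _).add_right (Commute.refl _)).smul_left l)
  have e1 : (1 + l • l • (a : D)) * (1 + (a : D)) = m • ((1 + l • (a : D)) * (1 + l • (a : D))) := by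
    rw [(mul_inv_eq_iff_eq_mul₀ h2).1 hm, smul_mul_assoc, smul_mul_assoc, mul_assoc, c1.eq,
      mul_assoc, inv_mul_cancel_left₀ h1]
  have e2 := congrArg φ e1
  simp only [map_mul, map_add, map_one, hs, hl] at e2
  simp only [mul_add, add_mul, one_mul, mul_one, smul_mul_assoc, mul_smul_comm] at e1 e2
  have e3 : ((1 - m) * (l - 1)) • ((1 : D) - l ^ 3 • ((a : D) * a)) = 0 := by
    linear_combination (norm := module) l • e1 - e2
  rcases smul_eq_zero.1 e3 with e | e
  · have hm1 : m = 1 := (sub_eq_zero.1 ((mul_eq_zero.1 e).resolve_right hl1)).symm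
    have e4 : (l - 1) ^ 2 • (a : D) = 0 := by
      rw [hm1] at e1
      linear_combination (norm := module) e1
    exact absurd ((smul_eq_zero.1 e4).resolve_right a.ne_zero) (pow_ne_zero 2 hl1)
  · rw [sq, ← inv_smul_smul₀ (pow_ne_zero 3 hl0) ((a : D) * a), ← sub_eq_zero.1 e,
      ← Algebra.algebraMap_eq_smul_one]
    exact ((l ^ 3)⁻¹).2

end Pool.Agent.P.MP_3fd745_al.Sv
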