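import Pool.Agent.P.MP_3fd745_al.Sv.LocFin

namespace Pool.Agent.P.MP_3fd745_al.Sv

open scoped commutatorElement

variable {Γ V : Type} [Group Γ] [AddCommGroup V]

lemma extex_conj_pow {g z : Γ} {k : ℤ} (h : g * z * g⁻¹ = z ^ k) (m : ℕ) :
    g ^ m * z * (g ^ m)⁻¹ = z ^ k ^ m := by
  induction m with
  | zero => simp
  | succ m ih =>
    have e1 : g ^ (m + 1) * z * (g ^ (m + 1))⁻¹ = g * (g ^ m * z * (g ^ m)⁻¹) * g⁻¹ := by
      rw [pow_succ']; group
    rw [e1, ih, ← conj_zpow, h, ← zpow_mul, pow_succ']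

lemma extex_conj_mem {z : Γ} (hz : ∀ g, Commute z g) (g : Γ) {w : Γ}
    (hw : w ∈ Subgroup.zpowers z) : g * w * g⁻¹ ∈ Subgroup.zpowers z := by
  obtain ⟨k, rfl⟩ := Subgroup.mem_zpowers_iff.1 hw
  have : g * z ^ k * g⁻¹ = z ^ k := by
    rw [← ((hz g).zpow_left k).eq, mul_inv_cancel_right]
  rw [this]
  exact hw

theorem exists_ext (hT : TON Γ) (hP : PW Γ) (q : ℕ) (Ω : Subgroup Γ) (hq : q.Prime)
    (hqo : Odd q) (hΩ : Ω.Normal) (hexp : ∀ e ∈ Ω, e ^ q = 1)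
    (hna : ∃ e ∈ Ω, ∃ f ∈ Ω, ¬ Commute e f)
    (h2 : ∀ a ∈ Ω, ∀ b ∈ Ω, ∀ c ∈ Ω, Commute ⁅a, b⁆ c) : ∃ z, Ext Ω z q := by
  obtain ⟨e, he, f, hf, hef⟩ := id hna
  have hcm : ∀ a ∈ Ω, ∀ b ∈ Ω, ⁅a, b⁆ ∈ Ω := fun a ha b hb => by
    rw [commutatorElement_def]
    exact Ω.mul_mem (Ω.mul_mem (Ω.mul_mem ha hb) (Ω.inv_mem ha)) (Ω.inv_mem hb)
  have hz1 : ⁅e, f⁆ ≠ 1 := fun h => hef (commutatorElement_eq_one_iff_commute.1 h)
  have := Fact.mk hq
  have hzo : orderOf ⁅e, f⁆ = q := orderOf_eq_prime (hexp _ (hcm e he f hf)) hz1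
  have hZ : AN (Ω ⊓ Subgroup.centralizer (Ω : Set Γ)) :=
    ⟨inferInstance, fun a ha b hb => Subgroup.mem_centralizer_iff.1 hb.2 a ha.1⟩
  have hcZ : ∀ a ∈ Ω, ∀ b ∈ Ω, ⁅a, b⁆ ∈ Ω ⊓ Subgroup.centralizer (Ω : Set Γ) :=
    fun a ha b hb => ⟨hcm a ha b hb,
      Subgroup.mem_centralizer_iff.2 fun c hc => (h2 a ha b hb c hc).symm.eq⟩
  have hqp : ∀ t : Γ, ∃ a : ℕ, ∀ x ∈ Ω, Commute (t ^ q ^ a) x := fun t => by
    obtain ⟨a, n, hn, ht⟩ := hT.split q hq t
    exact ⟨a, fun x hx => (hT.co q hq x _ 1 n hn (by rw [pow_one]; exact hexp x hx) ht).symm⟩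
  refine ⟨⁅e, f⁆, hq, hqo, hΩ, hcm e he f hf, hzo, fun g => ?_, hexp, fun a ha b hb => ?_,
    fun A hA hzA hle a ha => ?_, hqp, hna⟩
  · have hg := hZ.1.conj_mem _ (hcZ e he f hf) g
    obtain ⟨k, hk⟩ := Subgroup.mem_zpowers_iff.1
      (hP _ hZ _ (hcZ e he f hf) _ hg (by rw [hzo]; exact hexp _ hg.1))
    obtain ⟨a, ha⟩ := hqp g
    have h1 := extex_conj_pow hk.symm (q ^ a)
    rw [(ha _ (hcm e he f hf)).eq, mul_inv_cancel_right] at h1
    have h3 : k ^ q ^ a ≡ k [ZMOD (q : ℤ)] := by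
      rw [← ZMod.intCast_eq_intCast_iff, Int.cast_pow, ZMod.pow_card_pow]
    have h4 : ⁅e, f⁆ ^ k ^ q ^ a = ⁅e, f⁆ ^ k := by
      rw [zpow_eq_zpow_iff_modEq, hzo]
      exact h3
    have h5 : g * ⁅e, f⁆ * g⁻¹ = ⁅e, f⁆ := by rw [← hk, ← h4, ← h1]
    exact (mul_inv_eq_iff_eq_mul.1 h5).symm
  · exact hP _ hZ _ (hcZ e he f hf) _ (hcZ a ha b hb) (by rw [hzo]; exact hexp _ (hcm a ha b hb))
  · exact hP A hA _ hzA a ha (by rw [hzo]; exact hexp _ (hle ha))

theorem Ext.proper {Ω : Subgroup Γ} {z : Γ} {q : ℕ} (E : Ext Ω z q) :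
    ∃ S : Subgroup Γ, S ≠ ⊤ ∧ S.Normal ∧
      ∀ t, t ∈ S ↔ ∀ e ∈ Ω, ⁅t, e⁆ ∈ Subgroup.zpowers z := by
  refine ⟨{ carrier := {t | ∀ e ∈ Ω, ⁅t, e⁆ ∈ Subgroup.zpowers z}
            one_mem' := fun e _ => by simp
            mul_mem' := fun {g h} hg hh e he => ?_
            inv_mem' := fun {g} hg e he => ?_ }, fun hS => ?_, ⟨fun t ht g e he => ?_⟩,
    fun t => Iff.rfl⟩
  · have e1 : ⁅g * h, e⁆ = g * ⁅h, e⁆ * g⁻¹ * ⁅g, e⁆ := by
      simp only [commutatorElement_def]; group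
    rw [e1]
    exact Subgroup.mul_mem _ (extex_conj_mem E.zcen g (hh e he)) (hg e he)
  · have e1 : ⁅g⁻¹, e⁆ = g⁻¹ * ⁅g, e⁆⁻¹ * g⁻¹⁻¹ := by
      simp only [commutatorElement_def]; group
    rw [e1]
    exact extex_conj_mem E.zcen _ (Subgroup.inv_mem _ (hg e he))
  · obtain ⟨e, he, f, hf, hef⟩ := E.nonab
    have hall : ∀ g : Γ, ⁅g, e⁆ ∈ Subgroup.zpowers z := fun g =>
      (hS.ge (Subgroup.mem_top g) : ∀ e ∈ Ω, ⁅g, e⁆ ∈ Subgroup.zpowers z) e he
    have heA : e ∈ Subgroup.closure ({e, z} : Set Γ) := Subgroup.subset_closure (by simp)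
    have hzA : z ∈ Subgroup.closure ({e, z} : Set Γ) := Subgroup.subset_closure (by simp)
    have h1 : ∀ a ∈ Subgroup.closure ({e, z} : Set Γ), Commute a e := fun a ha => by
      induction ha using Subgroup.closure_induction with
      | mem x hx =>
        rcases hx with rfl | rfl
        · exact Commute.refl _
        · exact E.zcen _
      | one => exact Commute.one_left _
      | mul x y _ _ hx hy => exact hx.mul_left hy
      | inv x _ hx => exact hx.inv_left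
    have hA : AN (Subgroup.closure ({e, z} : Set Γ)) := by
      refine ⟨⟨fun a ha g => ?_⟩, fun a ha b hb => ?_⟩
      · induction ha using Subgroup.closure_induction with
        | mem x hx =>
          rcases hx with rfl | rfl
          · have e1 : g * x * g⁻¹ = ⁅g, x⁆ * x := by
              simp only [commutatorElement_def]; group
            rw [e1]
            exact Subgroup.mul_mem _ (Subgroup.zpowers_le.2 hzA (hall g)) heA
          · rw [← (E.zcen g).eq, mul_inv_cancel_right]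
            exact hzA
        | one => simp
        | mul x y _ _ hx hy =>
          have e1 : g * (x * y) * g⁻¹ = g * x * g⁻¹ * (g * y * g⁻¹) := by group
          rw [e1]
          exact Subgroup.mul_mem _ hx hy
        | inv x _ hx =>
          have e1 : g * x⁻¹ * g⁻¹ = (g * x * g⁻¹)⁻¹ := by group
          rw [e1]
          exact Subgroup.inv_mem _ hx
      · induction hb using Subgroup.closure_induction with
        | mem x hx =>
          rcases hx with rfl | rfl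
          · exact h1 a ha
          · exact (E.zcen a).symm
        | one => exact Commute.one_right _
        | mul x y _ _ hx hy => exact hx.mul_right hy
        | inv x _ hx => exact hx.inv_right
    have hle : Subgroup.closure ({e, z} : Set Γ) ≤ Ω := by
      rw [Subgroup.closure_le]
      rintro x (rfl | rfl)
      · exact he
      · exact E.zmem
    obtain ⟨k, hk⟩ := Subgroup.mem_zpowers_iff.1 (E.an _ hA hzA hle heA)
    exact hef (hk ▸ (E.zcen f).zpow_left k)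
  · have e1 : ⁅g * t * g⁻¹, e⁆ = g * ⁅t, g⁻¹ * e * g⁻¹⁻¹⁆ * g⁻¹ := by
      simp only [commutatorElement_def]; group
    rw [e1]
    exact extex_conj_mem E.zcen g (ht _ (E.normal.conj_mem e he g⁻¹))

end Pool.Agent.P.MP_3fd745_al.Sv
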