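import Pool.Agent.P.MP_3fd745_al.Sv.ExtEx

namespace Pool.Agent.P.MP_3fd745_al.Sv

open scoped commutatorElement

variable {Γ V : Type} [Group Γ] [AddCommGroup V]

lemma finit_fix {G : Type} [Group G] {q : ℕ} (hq : q.Prime) (X N : Subgroup G) [Finite X]
    (hexp : ∀ x ∈ X, x ^ q = 1) (hne : ∃ x ∈ X, x ≠ 1)
    (hst : ∀ n ∈ N, ∀ x ∈ X, n * x * n⁻¹ ∈ X)
    (hp : ∀ n ∈ N, ∃ a : ℕ, ∀ x ∈ X, Commute (n ^ q ^ a) x) :
    ∃ x ∈ X, x ≠ 1 ∧ ∀ n ∈ N, Commute n x := by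
  have := Fact.mk hq
  have hN : N ≤ Subgroup.normalizer X := fun n hn => by
    refine Subgroup.mem_normalizer_iff.2 fun x => ⟨hst n hn x, fun h => ?_⟩
    simpa [mul_assoc] using hst n⁻¹ (N.inv_mem hn) _ h
  let φ : N →* MulAut X := X.normalizerMonoidHom.comp (Subgroup.inclusion hN)
  have hφ : ∀ (n : N) (x : X), ((φ n x : X) : G) = n * x * (n : G)⁻¹ := fun n x => rfl
  have hP : IsPGroup q φ.range := by
    rintro ⟨_, n, rfl⟩
    obtain ⟨a, ha⟩ := hp n n.2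
    refine ⟨a, Subtype.ext ?_⟩
    change φ n ^ q ^ a = 1
    rw [← map_pow]
    ext x
    rw [hφ, Subgroup.coe_pow, (ha x x.2).eq, mul_inv_cancel_right]
    rfl
  obtain ⟨x, hx, h1⟩ := hne
  have hd : q ∣ Nat.card X := by
    rw [← orderOf_eq_prime (hexp x hx) h1]
    exact X.orderOf_dvd_natCard hx
  obtain ⟨b, hb, hb1⟩ := hP.exists_fixed_point_of_prime_dvd_card_of_fixed_point X hd (a := 1)
    fun g => map_one (g : MulAut X)
  refine ⟨b, b.2, fun h => hb1 (Subtype.ext h.symm), fun n hn => ?_⟩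
  have h2 : φ ⟨n, hn⟩ b = b := hb ⟨φ ⟨n, hn⟩, _, rfl⟩
  have h3 := hφ ⟨n, hn⟩ b
  rw [h2] at h3
  exact (mul_inv_eq_iff_eq_mul.1 h3.symm : n * b = b * n)

/-- elements with finitely many commutators -/
def finitF (Ω : Subgroup Γ) : Subgroup Γ where
  carrier := {t | {c | ∃ e ∈ Ω, c = ⁅t, e⁆}.Finite}
  one_mem' := (Set.finite_singleton 1).subset (by rintro _ ⟨e, -, rfl⟩; simp)
  mul_mem' := by
    intro g h hg hh
    refine (Set.Finite.image2 (fun a b => g * a * g⁻¹ * b) hh hg).subset ?_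
    rintro _ ⟨e, he, rfl⟩
    refine ⟨_, ⟨e, he, rfl⟩, _, ⟨e, he, rfl⟩, ?_⟩
    simp only [commutatorElement_def]
    group
  inv_mem' := by
    intro g hg
    refine (Set.Finite.image (fun a => g⁻¹ * a⁻¹ * g) hg).subset ?_
    rintro _ ⟨e, he, rfl⟩
    refine ⟨_, ⟨e, he, rfl⟩, ?_⟩
    simp only [commutatorElement_def]
    group

lemma finit_normal {Ω : Subgroup Γ} (h : Ω.Normal) : (finitF Ω).Normal := by
  refine ⟨fun t ht s => (Set.Finite.image (fun a => s * a * s⁻¹) ht).subset ?_⟩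
  rintro _ ⟨e, he, rfl⟩
  refine ⟨_, ⟨s⁻¹ * e * s, h.conj_mem' e he s, rfl⟩, ?_⟩
  simp only [commutatorElement_def]
  group

theorem Ext.finitary [Group.IsSolvable Γ] {Ω : Subgroup Γ} {z : Γ} {q : ℕ} (E : Ext Ω z q) (t : Γ)
    (ht : {c | ∃ e ∈ Ω, c = ⁅t, e⁆}.Finite) : ∀ e ∈ Ω, ⁅t, e⁆ ∈ Subgroup.zpowers z := by
  obtain ⟨S, -, -, hS⟩ := E.proper
  have hΩ := E.normal
  have hc : ∀ w ∈ Subgroup.zpowers z, ∀ g, Commute w g := by
    rintro _ ⟨k, rfl⟩ g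
    exact (E.zcen g).zpow_left k
  have hZ : (Subgroup.zpowers z).Normal :=
    ⟨fun w hw g => by rwa [← (hc w hw g).eq, mul_inv_cancel_right]⟩
  refine (hS t).1 ((?_ : finitF Ω ≤ S) ht)
  by_contra hF
  obtain ⟨N, hN, hNF, hNS, hNN⟩ := exists_last _ S (finit_normal hΩ) hF
  obtain ⟨n, hn, hnS⟩ := SetLike.not_le_iff_exists.1 hNS
  let π := QuotientGroup.mk' (Subgroup.zpowers z)
  have hπ : ∀ a b, Commute (π a) (π b) ↔ ⁅a, b⁆ ∈ Subgroup.zpowers z := fun a b => by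
    rw [← commutatorElement_eq_one_iff_commute, ← map_commutatorElement]
    exact QuotientGroup.eq_one_iff _
  have hm : ∀ g, ∀ e ∈ Ω, ⁅g, e⁆ ∈ Ω := fun g e he =>
    Ω.mul_mem (hΩ.conj_mem e he g) (Ω.inv_mem he)
  let δ : Ω →* Γ ⧸ Subgroup.zpowers z := MonoidHom.mk' (fun e => π ⁅n, (e : Γ)⁆) fun e f => by
    have h1 : ⁅n, ((e * f : Ω) : Γ)⁆ = ⁅n, (e : Γ)⁆ * (e * ⁅n, (f : Γ)⁆ * (e : Γ)⁻¹) := by
      simp only [commutatorElement_def, Subgroup.coe_mul]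
      group
    rw [h1, map_mul, map_mul, map_mul, map_inv,
      ((hπ _ _).2 (E.comm _ e.2 _ (hm n _ f.2))).eq, mul_inv_cancel_right]
  have hfin : Finite δ.range := by
    refine (Set.Finite.image π (hNF hn)).subset ?_
    rintro _ ⟨e, rfl⟩
    exact ⟨_, ⟨e, e.2, rfl⟩, rfl⟩
  obtain ⟨_, ⟨⟨e, he⟩, rfl⟩, h1, hfix⟩ := finit_fix E.prime δ.range (N.map π)
    (by
      rintro _ ⟨e, rfl⟩
      change π _ ^ q = 1
      rw [← map_pow, E.exp _ (hm n _ e.2), map_one])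
    (by
      by_contra h
      push Not at h
      exact hnS ((hS n).2 fun e he => (QuotientGroup.eq_one_iff _).1 (h _ ⟨⟨e, he⟩, rfl⟩)))
    (by
      rintro _ ⟨m, hm', rfl⟩ _ ⟨⟨e, he⟩, rfl⟩
      have he' := hΩ.conj_mem e he m
      refine ⟨⟨_, he'⟩, ?_⟩
      have hs := (hS _).1 (hNN (Subgroup.commutator_mem_commutator hm' hn))
      have h1 : m * ⁅n, e⁆ * m⁻¹ =
          ⁅m, n⁆ * ⁅n, m * e * m⁻¹⁆ * ⁅m, n⁆⁻¹ * ⁅⁅m, n⁆, m * e * m⁻¹⁆ := by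
        simp only [commutatorElement_def]
        group
      change π ⁅n, m * e * m⁻¹⁆ = π m * π ⁅n, e⁆ * (π m)⁻¹
      rw [← map_inv, ← map_mul, ← map_mul, h1, map_mul, map_mul, map_mul, map_inv,
        ((hπ _ _).2 (hs _ (hm n _ he'))).eq, mul_inv_cancel_right]
      have h2 : π ⁅⁅m, n⁆, m * e * m⁻¹⁆ = 1 := (QuotientGroup.eq_one_iff _).2 (hs _ he')
      rw [h2, mul_one])
    (by
      rintro _ ⟨m, -, rfl⟩
      obtain ⟨a, ha⟩ := E.qp m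
      refine ⟨a, ?_⟩
      rintro _ ⟨e, rfl⟩
      rw [← map_pow]
      exact (ha _ (hm n _ e.2)).map π)
  have hN' : (N.map π).Normal := hN.map π (QuotientGroup.mk'_surjective _)
  let P : Subgroup Γ := Ω ⊓ (Subgroup.centralizer (N.map π : Set _)).comap π
  have hP : P.Normal := inferInstance
  have hPm : ∀ f, f ∈ P ↔ f ∈ Ω ∧ ∀ m ∈ N, Commute (π m) (π f) := fun f => by
    refine and_congr_right' ⟨fun h m hm => h _ ⟨m, hm, rfl⟩, fun h => ?_⟩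
    rintro _ ⟨m, hm, rfl⟩
    exact h m hm
  have key : ∀ f ∈ P, n * e * n⁻¹ * f * (n * e * n⁻¹)⁻¹ = e * f * e⁻¹ := by
    intro f hf
    obtain ⟨hf1, hf2⟩ := (hPm f).1 hf
    have h2 := hc _ ((hπ _ _).1 (hf2 _ (N.inv_mem hn)))
    have h3 := hc _ (E.comm e he f hf1)
    calc n * e * n⁻¹ * f * (n * e * n⁻¹)⁻¹ = n * (e * ⁅n⁻¹, f⁆) * f * e⁻¹ * n⁻¹ := by
          simp only [commutatorElement_def]
          group
      _ = n * ⁅n⁻¹, f⁆ * ⁅e, f⁆ * f * n⁻¹ := by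
          rw [← (h2 e).eq]
          simp only [commutatorElement_def e]
          group
      _ = e * f * e⁻¹ := by
          rw [← (h3 _).eq]
          simp only [commutatorElement_def]
          group
  refine h1 ((QuotientGroup.eq_one_iff _).2 (E.an (P ⊓ Subgroup.centralizer (P : Set Γ))
    ⟨inferInstance, fun a ha b hb => hb.2 a ha.1⟩
    ⟨(hPm z).2 ⟨E.zmem, fun m _ => (E.zcen m).symm.map π⟩, fun g _ => (E.zcen g).symm⟩
    (fun a ha => ha.1.1) ⟨(hPm _).2 ⟨hm n e he, fun m hm' => hfix _ ⟨m, hm', rfl⟩⟩, ?_⟩))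
  intro f hf
  have h2 := key _ (hP.conj_mem' f hf e)
  calc f * ⁅n, e⁆ = e * (e⁻¹ * f * e) * e⁻¹ * ⁅n, e⁆ := by group
    _ = ⁅n, e⁆ * f := by
      rw [← h2]
      simp only [commutatorElement_def]
      group

end Pool.Agent.P.MP_3fd745_al.Sv
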