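import Pool.Agent.P.MP_3fd745_al.Sv.Def

namespace Pool.Agent.P.MP_3fd745_al.Sv

open scoped commutatorElement

variable {Γ V : Type} [Group Γ] [AddCommGroup V]

/-- elements of an abelian subgroup killed by an exponent from a multiplicative set -/
def liftT (U : Subgroup Γ) (hU : ∀ a ∈ U, ∀ b ∈ U, Commute a b) (P : ℕ → Prop) (h1 : P 1)
    (hm : ∀ a b, P a → P b → P (a * b)) : Subgroup Γ where
  carrier := {u | u ∈ U ∧ ∃ m, P m ∧ u ^ m = 1}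
  one_mem' := ⟨U.one_mem, 1, h1, one_pow _⟩
  mul_mem' := by
    rintro a b ⟨ha, m, hm1, e1⟩ ⟨hb, m', hm2, e2⟩
    refine ⟨U.mul_mem ha hb, m * m', hm _ _ hm1 hm2, ?_⟩
    rw [(hU a ha b hb).mul_pow, pow_mul, e1, one_pow, one_mul, mul_comm m m', pow_mul, e2, one_pow]
  inv_mem' := by
    rintro a ⟨ha, m, hm1, e1⟩
    exact ⟨U.inv_mem ha, m, hm1, by rw [inv_pow, e1, inv_one]⟩

lemma lift_key (U : Subgroup Γ) [hN : U.Normal]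
    (T : Subgroup Γ) {x y : Γ} (hc : ⁅x, y⁆ ∈ U) (hx : ∀ u ∈ U, ⁅x, u⁆ ∈ T) (k : ℕ) :
    ⁅x ^ k, y⁆ ∈ U ∧ ⁅x ^ k, y⁆ * (⁅x, y⁆ ^ k)⁻¹ ∈ T := by
  induction k with
  | zero => simp [U.one_mem, T.one_mem]
  | succ k ih =>
    have e : ⁅x ^ (k + 1), y⁆ = x * ⁅x ^ k, y⁆ * x⁻¹ * ⁅x, y⁆ := by
      simp only [commutatorElement_def, pow_succ']
      group
    refine ⟨e ▸ U.mul_mem (hN.conj_mem _ ih.1 x) hc, ?_⟩
    have e2 : ⁅x ^ (k + 1), y⁆ * (⁅x, y⁆ ^ (k + 1))⁻¹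
        = ⁅x, ⁅x ^ k, y⁆⁆ * (⁅x ^ k, y⁆ * (⁅x, y⁆ ^ k)⁻¹) := by
      rw [e, commutatorElement_def x ⁅x ^ k, y⁆]
      generalize ⁅x ^ k, y⁆ = u
      generalize ⁅x, y⁆ = c
      group
    rw [e2]
    exact T.mul_mem (hx _ ih.1) ih.2

lemma lift_comm_mem (U : Subgroup Γ) [hN : U.Normal] (g : Γ) {u : Γ} (hu : u ∈ U) :
    ⁅g, u⁆ ∈ U :=
  U.mul_mem (hN.conj_mem _ hu g) (U.inv_mem hu)

lemma lift_kill (U : Subgroup Γ) [U.Normal] (hU : ∀ a ∈ U, ∀ b ∈ U, Commute a b)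
    (h : ∀ (g : Γ) (n : ℕ), n ≠ 0 → g ^ n ∈ U → ∀ u ∈ U, ∃ k : ℕ, ⁅g, u⁆ ^ n ^ k = 1)
    {x y : Γ} {n : ℕ} (hn : n ≠ 0) (hx : x ^ n = 1) (hc : ⁅x, y⁆ ∈ U) :
    ∃ k : ℕ, ⁅x, y⁆ ^ n ^ k = 1 := by
  have h1 := (lift_key U (liftT U hU (fun m => ∃ k, m = n ^ k) ⟨0, rfl⟩ (by
    rintro a b ⟨i, rfl⟩ ⟨j, rfl⟩
    exact ⟨i + j, (pow_add _ _ _).symm⟩)) hc (fun u hu => by
      obtain ⟨k, hk⟩ := h x n hn (hx ▸ U.one_mem) u hu
      exact ⟨lift_comm_mem U x hu, _, ⟨k, rfl⟩, hk⟩) n).2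
  obtain ⟨-, m, ⟨k, rfl⟩, e⟩ := h1
  rw [hx, commutatorElement_one_left, one_mul, inv_pow, inv_eq_one, ← pow_mul, ← pow_succ'] at e
  exact ⟨_, e⟩

theorem ton_lift (U : Subgroup Γ) [U.Normal] (hU : ∀ a ∈ U, ∀ b ∈ U, Commute a b)
    (H : Subgroup Γ) (hH : U = ⁅H, H⁆) (hT : TON (Γ ⧸ U))
    (h : ∀ (g : Γ) (n : ℕ), n ≠ 0 → g ^ n ∈ U → ∀ u ∈ U, ∃ k : ℕ, ⁅g, u⁆ ^ n ^ k = 1) :
    TON Γ := by
  have hq : ∀ g : Γ, ∃ n : ℕ, Odd n ∧ g ^ n ∈ U := fun g => by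
    obtain ⟨n, hn, e⟩ := hT.odd (QuotientGroup.mk g)
    exact ⟨n, hn, (QuotientGroup.eq_one_iff _).1 (by rw [QuotientGroup.mk_pow]; exact e)⟩
  have hO : ∀ (g : Γ) (n : ℕ), Odd n → g ^ n ∈ U → ∀ u ∈ U,
      ⁅g, u⁆ ∈ liftT U hU Odd odd_one fun _ _ => Odd.mul := fun g n hn hg u hu => by
    obtain ⟨k, hk⟩ := h g n hn.pos.ne' hg u hu
    exact ⟨lift_comm_mem U g hu, _, hn.pow, hk⟩
  have hle : ⁅H, H⁆ ≤ liftT U hU Odd odd_one fun _ _ => Odd.mul := by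
    refine Subgroup.commutator_le.2 fun x hx y hy => ?_
    have hc : ⁅x, y⁆ ∈ U := hH ▸ Subgroup.commutator_mem_commutator hx hy
    obtain ⟨n, hn, hxn⟩ := hq x
    obtain ⟨m, hm, hym⟩ := hq y
    have h1 := (lift_key U _ hc (hO x n hn hxn) n).2
    have h2 := Subgroup.inv_mem _ (hO y m hm hym _ hxn)
    rw [commutatorElement_inv] at h2
    have h3 := Subgroup.mul_mem _ (Subgroup.inv_mem _ h1) h2
    rw [mul_inv_rev, inv_inv, mul_assoc, inv_mul_cancel, mul_one] at h3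
    obtain ⟨-, r, hr, e⟩ := h3
    exact ⟨hc, n * r, hn.mul hr, by rw [pow_mul, e]⟩
  refine ⟨fun g => ?_, fun p hp x y a n hn hx hy => ?_⟩
  · obtain ⟨n, hn, hg⟩ := hq g
    obtain ⟨-, r, hr, e⟩ := hle (hH ▸ hg)
    exact ⟨n * r, hn.mul hr, by rw [pow_mul, e]⟩
  · have h1 := hT.co p hp (QuotientGroup.mk x) (QuotientGroup.mk y) a n hn
      (by rw [← QuotientGroup.mk_pow, hx, QuotientGroup.mk_one])
      (by rw [← QuotientGroup.mk_pow, hy, QuotientGroup.mk_one])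
    have hc : ⁅x, y⁆ ∈ U := by
      refine (QuotientGroup.eq_one_iff _).1 ?_
      have := commutatorElement_eq_one_iff_commute.2 h1
      rw [commutatorElement_def] at this ⊢
      simpa using this
    have hc' : ⁅y, x⁆ ∈ U := by
      rw [← commutatorElement_inv]
      exact U.inv_mem hc
    have hn0 : n ≠ 0 := fun e => hn (e ▸ dvd_zero p)
    obtain ⟨i, e1⟩ := lift_kill U hU h (pow_ne_zero a hp.ne_zero) hx hc
    obtain ⟨j, e2⟩ := lift_kill U hU h hn0 hy hc'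
    rw [← commutatorElement_inv, inv_pow, inv_eq_one] at e2
    have hco : Nat.Coprime ((p ^ a) ^ i) (n ^ j) :=
      Nat.Coprime.pow _ _ (Nat.Coprime.pow_left _ ((Nat.Prime.coprime_iff_not_dvd hp).2 hn))
    refine commutatorElement_eq_one_iff_commute.1 (orderOf_eq_one_iff.1 ?_)
    exact Nat.eq_one_of_dvd_coprimes hco (orderOf_dvd_of_pow_eq_one e1)
      (orderOf_dvd_of_pow_eq_one e2)

end Pool.Agent.P.MP_3fd745_al.Sv
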