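import Pool.Agent.P.MP_3fd745_al.Sv.Def

/-! Solvable torsion groups. -/

namespace Pool.Agent.P.MP_3fd745_al.Sv

open scoped commutatorElement

variable {Γ V : Type} [Group Γ] [AddCommGroup V]

lemma finite_of_derived (n : ℕ) : ∀ (G : Type) [Group G] [Group.FG G],
    derivedSeries G n = ⊥ → (∀ g : G, IsOfFinOrder g) → Finite G := by
  induction n with
  | zero =>
    intro G _ _ h _
    have : Subsingleton G := Subgroup.subsingleton_iff.1 (subsingleton_of_bot_eq_top h.symm)
    infer_instance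
  | succ n ih =>
    intro G _ _ h hf
    have h1 : Group.FG (Abelianization G) :=
      Group.fg_of_surjective (f := Abelianization.of) QuotientGroup.mk_surjective
    have h2 : Finite (Abelianization G) := CommGroup.finite_of_fg_isMulTorsion _ fun x => by
      obtain ⟨g, rfl⟩ := QuotientGroup.mk_surjective x
      exact Abelianization.of.isOfFinOrder (hf g)
    have h3 : (commutator G).FiniteIndex :=
      @Subgroup.finiteIndex_of_finite_quotient _ _ _ h2
    have h4 : Finite (commutator G) := by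
      refine ih _ ?_ fun g => (commutator G).subtype_injective.isOfFinOrder_iff.1 (hf g)
      have : ∀ i, (derivedSeries (commutator G) i).map (commutator G).subtype ≤
          derivedSeries G (i + 1) := fun i => by
        induction i with
        | zero => rintro _ ⟨g, -, rfl⟩; exact g.2
        | succ i ih =>
          rw [derivedSeries_succ, Subgroup.map_commutator]
          exact Subgroup.commutator_mono ih ih
      have := this n
      rwa [h, le_bot_iff, Subgroup.map_eq_bot_iff_of_injective _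
        (commutator G).subtype_injective] at this
    exact Finite.of_equiv _ (Subgroup.groupEquivQuotientProdSubgroup (s := commutator G)).symm

theorem lf_of_solvable [Group.IsSolvable Γ] (h : ∀ g : Γ, IsOfFinOrder g) : LF Γ := by
  intro s hs
  have : Finite s := hs
  obtain ⟨n, hn⟩ := (inferInstance : Group.IsSolvable (Subgroup.closure s))
  exact finite_of_derived n (Subgroup.closure s) hn
    fun g => (Subgroup.closure s).subtype_injective.isOfFinOrder_iff.1 (h g)

theorem TON.fin (h : TON Γ) (g : Γ) : IsOfFinOrder g := by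
  obtain ⟨n, hn, e⟩ := h.odd g
  exact isOfFinOrder_iff_pow_eq_one.2 ⟨n, hn.pos, e⟩

lemma mem_of_pow_coprime {H : Subgroup Γ} {x : Γ} {m n : ℕ} (h : m.Coprime n) (hm : x ^ m ∈ H)
    (hn : x ^ n ∈ H) : x ∈ H := by
  obtain ⟨a, b, e⟩ := Nat.isCoprime_iff_coprime.2 h
  have := H.mul_mem (H.zpow_mem hm a) (H.zpow_mem hn b)
  rwa [← zpow_natCast, ← zpow_natCast, ← zpow_mul, ← zpow_mul, ← zpow_add, mul_comm (m : ℤ),
    mul_comm (n : ℤ), e, zpow_one] at this

lemma commute_of_pow_coprime {x y : Γ} {m n : ℕ} (h : m.Coprime n) (hm : Commute (x ^ m) y)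
    (hn : x ^ n = 1) : Commute x y :=
  Subgroup.mem_centralizer_singleton_iff.1 (mem_of_pow_coprime h
    (Subgroup.mem_centralizer_singleton_iff.2 hm) (hn ▸ one_mem _))

theorem TON.of_surj {Γ' : Type} [Group Γ'] (h : TON Γ) (f : Γ →* Γ')
    (hf : Function.Surjective f) : TON Γ' := by
  refine ⟨fun g => ?_, fun p hp x y a n hn hx hy => ?_⟩
  · obtain ⟨g, rfl⟩ := hf g
    obtain ⟨n, hn, e⟩ := h.odd g
    exact ⟨n, hn, by rw [← map_pow, e, map_one]⟩
  · obtain ⟨x, rfl⟩ := hf x
    obtain ⟨y, rfl⟩ := hf y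
    obtain ⟨N, hN, e⟩ := h.odd x
    obtain ⟨N', hN', e'⟩ := h.odd y
    obtain ⟨c, M, hM, rfl⟩ := Nat.exists_eq_pow_mul_and_not_dvd hN.pos.ne' p hp.ne_one
    obtain ⟨c', M', hM', rfl⟩ := Nat.exists_eq_pow_mul_and_not_dvd hN'.pos.ne' p hp.ne_one
    have h1 := (h.co p hp (x ^ M) (y ^ p ^ c') c M' hM' (by rwa [← pow_mul, mul_comm])
      (by rwa [← pow_mul])).map f
    rw [map_pow, map_pow] at h1
    have h2 := commute_of_pow_coprime (((Nat.Prime.coprime_iff_not_dvd hp).2 hM).symm.pow_right a)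
      h1 hx
    exact (commute_of_pow_coprime (((Nat.Prime.coprime_iff_not_dvd hp).2 hn).pow_left c')
      h2.symm hy).symm

/-- a last term of the derived series of `A` outside `S` -/
theorem exists_last [hs : Group.IsSolvable Γ] (A S : Subgroup Γ) (hA : A.Normal) (h : ¬ A ≤ S) :
    ∃ N : Subgroup Γ, N.Normal ∧ N ≤ A ∧ ¬ N ≤ S ∧ ⁅N, N⁆ ≤ S := by
  by_contra hc
  push Not at hc
  have : ∀ i, ∃ N : Subgroup Γ, N.Normal ∧ N ≤ A ∧ ¬ N ≤ S ∧ N ≤ derivedSeries Γ i := fun i => by
    induction i with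
    | zero => exact ⟨A, hA, le_rfl, h, le_top⟩
    | succ i ih =>
      obtain ⟨N, h1, h2, h3, h4⟩ := ih
      exact ⟨⁅N, N⁆, inferInstance, (Subgroup.commutator_le_left _ _).trans h2, hc N h1 h2 h3,
        Subgroup.commutator_mono h4 h4⟩
  obtain ⟨n, hn⟩ := hs
  obtain ⟨N, -, -, h3, h4⟩ := this n
  exact h3 (h4.trans (hn ▸ bot_le))

/-- a power of prime-to-`p` order -/
lemma TON.split (h : TON Γ) (p : ℕ) (hp : p.Prime) (g : Γ) :
    ∃ a n : ℕ, ¬ p ∣ n ∧ (g ^ p ^ a) ^ n = 1 := by
  obtain ⟨N, hN, e⟩ := h.odd g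
  obtain ⟨c, M, hM, rfl⟩ := Nat.exists_eq_pow_mul_and_not_dvd hN.pos.ne' p hp.ne_one
  exact ⟨c, M, hM, by rwa [← pow_mul]⟩

lemma TON.odd_order (h : TON Γ) (g : Γ) : Odd (orderOf g) := by
  obtain ⟨n, hn, e⟩ := h.odd g
  exact hn.of_dvd_nat (orderOf_dvd_of_pow_eq_one e)

end Pool.Agent.P.MP_3fd745_al.Sv
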