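import Pool.Agent.P.MP_3fd745_al.Sv.Conj
import Pool.Agent.P.MP_3fd745_al.Sv.Lift
import Pool.Agent.P.MP_3fd745_al.Sv.Base
import Pool.Agent.P.MP_3fd745_al.Sv.Ends

namespace Pool.Agent.P.MP_3fd745_al.Sv

open scoped commutatorElement

variable {D : Type} [DivisionRing D]

theorem ton_of_solv (hno : ∀ V : Subring D, (∀ x, x ∈ V ∨ x⁻¹ ∈ V) → ∀ x, x ∈ V) (r : ℕ) :
    ∀ (G : Type) [Group G] (π : Dˣ →* G), Function.Surjective π → derivedSeries G (r + 1) = ⊥ →
      (∀ g : G, ∃ n : ℕ, Odd n ∧ g ^ n ∈ commutator G) → TON G := by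
  induction r with
  | zero =>
    intro G _ π _ h hodd
    have hc : commutator G = ⊥ := h
    refine ⟨fun g => by simpa [hc] using hodd g, fun _ _ x y _ _ _ _ _ => ?_⟩
    rw [← commutatorElement_eq_one_iff_commute, ← Subgroup.mem_bot, ← hc]
    exact Subgroup.commutator_mem_commutator trivial trivial
  | succ r ih =>
    intro G _ π hπ h hodd
    have : Group.IsSolvable G := ⟨_, h⟩
    let U := derivedSeries G (r + 1)
    have hU : ∀ a ∈ U, ∀ b ∈ U, Commute a b := fun a ha b hb => by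
      rw [← commutatorElement_eq_one_iff_commute, ← Subgroup.mem_bot, ← h]
      exact Subgroup.commutator_mem_commutator ha hb
    have hs := QuotientGroup.mk'_surjective U
    have hT : TON (G ⧸ U) := by
      refine ih (G ⧸ U) ((QuotientGroup.mk' U).comp π) (hs.comp hπ) ?_ fun g => ?_
      · rw [← map_derivedSeries_eq hs]
        exact QuotientGroup.map_mk'_self U
      · obtain ⟨g, rfl⟩ := hs g
        obtain ⟨n, hn, e⟩ := hodd g
        refine ⟨n, hn, ?_⟩
        rw [← map_pow]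
        exact map_derivedSeries_le_derivedSeries (QuotientGroup.mk' U) 1 ⟨_, e, rfl⟩
    exact ton_lift U hU (derivedSeries G r) rfl hT (comm_tors hno π hπ U hU hT)

theorem central_of_solv (M : Subgroup Dˣ) [hM : M.Normal]
    (hrad : ∀ x ∈ M, ∃ n : ℕ, 0 < n ∧ ((x : Dˣ) : D) ^ n ∈ Subring.center D)
    (hF : ∀ x : Dˣ, (x : D) ∈ Subring.center D → x ∈ M) (r : ℕ) (hr : derivedSeries Dˣ r ≤ M) :
    ∀ g ∈ M, ((g : Dˣ) : D) ∈ Subring.center D := by
  by_contra hnc
  push Not at hnc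
  obtain ⟨a, ha, hac⟩ := hnc
  have hno : ∀ V : Subring D, (∀ x, x ∈ V ∨ x⁻¹ ∈ V) → ∀ x, x ∈ V := fun V hV x => by
    by_contra hx
    refine hac (Subring.mem_center_iff.2 fun y => (main M ⟨1, fun i => if i = 0 then M else ⊤, rfl,
      rfl, fun i hi => ?_⟩ hrad ⊤ V (fun x _ => hV x) ⟨x, trivial, hx⟩ a ha trivial y trivial).symm)
    obtain rfl : i = 0 := by omega
    exact ⟨le_top, hM.subgroupOf _⟩
  have hs := QuotientGroup.mk'_surjective M
  have hT : TON (Dˣ ⧸ M) := by
    refine ton_of_solv hno r _ (QuotientGroup.mk' M) hs ?_ fun g => ?_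
    · rw [← map_derivedSeries_eq hs, Subgroup.map_eq_bot_iff, QuotientGroup.ker_mk']
      exact (Subgroup.commutator_le_left _ _).trans hr
    · obtain ⟨g, rfl⟩ := hs g
      obtain ⟨n, hn, e⟩ := base_odd M hrad hF ⟨a, ha, hac⟩
        (Abelianization.of.comp (QuotientGroup.mk' M))
        (fun m hm => by simp [(QuotientGroup.eq_one_iff m).2 hm]) g
      refine ⟨n, hn, ?_⟩
      rw [← Abelianization.ker_of, MonoidHom.mem_ker, map_pow]
      exact e
  refine hac (kaplansky (D := D) (fun x => ?_) a)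
  obtain ⟨n, hn, e⟩ := hT.odd (QuotientGroup.mk' M x)
  rw [← map_pow] at e
  obtain ⟨m, hm, e'⟩ := hrad _ ((QuotientGroup.eq_one_iff _).1 e)
  exact ⟨n * m, Nat.mul_pos hn.pos hm, by simpa [pow_mul] using e'⟩

theorem main_solv (n : ℕ)
    (hrad : ∀ x ∈ derivedSeries Dˣ n, ∃ k : ℕ, 0 < k ∧ ((x : Dˣ) : D) ^ k ∈ Subring.center D)
    (a : D) : a ∈ Subring.center D := by
  induction n with
  | zero => exact kaplansky (fun x => hrad x trivial) a
  | succ n ih =>
    have hZ : ∀ x : Dˣ, x ∈ Subgroup.center Dˣ ↔ (x : D) ∈ Subring.center D := fun x => by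
      rw [Subgroup.mem_center_iff, Subring.mem_center_iff]
      refine ⟨fun h y => ?_, fun h y => Units.ext (h y)⟩
      by_cases hy : y = 0
      · simp [hy]
      · exact congrArg Units.val (h (Units.mk0 y hy))
    have := central_of_solv (derivedSeries Dˣ (n + 1) ⊔ Subgroup.center Dˣ) (fun x hx => ?_)
      (fun x hx => Subgroup.mem_sup_right ((hZ x).2 hx)) (n + 1) le_sup_left
    · refine ih fun x hx => ⟨2, two_pos, hua_step _ (fun a ha b hb => ?_) x hx⟩
      exact this _ (Subgroup.mem_sup_left (Subgroup.commutator_mem_commutator ha hb))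
    · obtain ⟨y, hy, z, hz, rfl⟩ := (Subgroup.mem_sup_of_normal_right).1 hx
      obtain ⟨k, hk, e⟩ := hrad y hy
      refine ⟨k, hk, ?_⟩
      rw [Units.val_mul, Commute.mul_pow (Subring.mem_center_iff.1 ((hZ z).1 hz) y)]
      exact mul_mem e (pow_mem ((hZ z).1 hz) k)

end Pool.Agent.P.MP_3fd745_al.Sv
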