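import Pool.Agent.P.MP_3fd745_al.Sv.Def

namespace Pool.Agent.P.MP_3fd745_al.Sv

open scoped commutatorElement

variable {Γ V : Type} [Group Γ] [AddCommGroup V]

theorem nak (hLF : LF Γ) (ρ : Γ →* Module.End ℤ V) (R : Type) [CommRing R]
    (φ : R →+* Module.End ℤ V) (I : Ideal R) (I₀ : Set R)
    (h : ∀ g, ∀ i ∈ I₀, ∃ i' ∈ I, ∀ x, ρ g (φ i x) = φ i' (ρ g x)) (v : V)
    (hv : v ∈ Submodule.span ℤ {y | ∃ i ∈ I₀, ∃ g, y = φ i (ρ g v)}) :
    ∃ r, r - 1 ∈ I ∧ φ r v = 0 := by
  classical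
  obtain ⟨s, hs⟩ : ∃ s : Finset Γ,
      v ∈ Submodule.span ℤ {y | ∃ i ∈ I₀, ∃ g ∈ s, y = φ i (ρ g v)} := by
    have key : ∀ w ∈ Submodule.span ℤ {y | ∃ i ∈ I₀, ∃ g, y = φ i (ρ g v)}, ∃ s : Finset Γ,
        w ∈ Submodule.span ℤ {y | ∃ i ∈ I₀, ∃ g ∈ s, y = φ i (ρ g v)} := by
      intro w hw
      induction hw using Submodule.span_induction with
      | mem x hx =>
        obtain ⟨i, hi, g, e⟩ := hx
        exact ⟨{g}, Submodule.subset_span ⟨i, hi, g, Finset.mem_singleton_self g, e⟩⟩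
      | zero => exact ⟨∅, zero_mem _⟩
      | add x y _ _ hx hy =>
        obtain ⟨s, hs⟩ := hx
        obtain ⟨t, ht⟩ := hy
        refine ⟨s ∪ t, add_mem (Submodule.span_mono ?_ hs) (Submodule.span_mono ?_ ht)⟩
        · rintro _ ⟨i, hi, g, hg, e⟩
          exact ⟨i, hi, g, Finset.mem_union_left _ hg, e⟩
        · rintro _ ⟨i, hi, g, hg, e⟩
          exact ⟨i, hi, g, Finset.mem_union_right _ hg, e⟩
      | smul a x _ hx => exact hx.imp fun s hs => Submodule.smul_mem _ a hs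
    exact key v hv
  have hK : (Subgroup.closure (s : Set Γ) : Set Γ).Finite := hLF s s.finite_toSet
  let _ : Module R V := Module.compHom V φ
  have hsm : ∀ (r : R) (x : V), r • x = φ r x := fun _ _ => rfl
  let L : Submodule R V :=
    Submodule.span R ((fun k => ρ k v) '' (Subgroup.closure (s : Set Γ) : Set Γ))
  have hle : L ≤ I • L := by
    refine Submodule.span_le.2 ?_
    rintro _ ⟨k, hk, rfl⟩
    have key : ∀ w ∈ Submodule.span ℤ {y | ∃ i ∈ I₀, ∃ g ∈ s, y = φ i (ρ g v)},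
        ρ k w ∈ I • L := by
      intro w hw
      induction hw using Submodule.span_induction with
      | mem x hx =>
        obtain ⟨i, hi, g, hg, rfl⟩ := hx
        obtain ⟨i', hi', e⟩ := h k i hi
        rw [e, ← hsm, ← Module.End.mul_apply, ← map_mul]
        exact Submodule.smul_mem_smul hi' (Submodule.subset_span
          ⟨k * g, Subgroup.mul_mem _ hk (Subgroup.subset_closure hg), rfl⟩)
      | zero => rw [map_zero]; exact zero_mem _
      | add x y _ _ hx hy => rw [map_add]; exact add_mem hx hy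
      | smul a x _ hx => rw [map_zsmul]; exact zsmul_mem hx a
    exact key v hs
  obtain ⟨r, hr, h0⟩ := Submodule.exists_sub_one_mem_and_smul_eq_zero_of_fg_of_le_smul I L
    (Submodule.fg_span (hK.image _)) hle
  exact ⟨r, hr, h0 v (Submodule.subset_span ⟨1, Subgroup.one_mem _, by simp⟩)⟩

end Pool.Agent.P.MP_3fd745_al.Sv
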