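import Pool.Agent.P.MP_3fd745_al.Sv.Def

namespace Pool.Agent.P.MP_3fd745_al.Sv

open scoped commutatorElement

variable {Γ V : Type} [Group Γ] [AddCommGroup V]

section

variable {Ω : Subgroup Γ} {z : Γ} {q : ℕ}

theorem step_cen (E : Ext Ω z q) {c : Γ} (hc : c ∈ Subgroup.zpowers z) (g : Γ) : Commute c g := by
  obtain ⟨k, rfl⟩ := hc
  exact (E.zcen g).zpow_left k

theorem step_mul_left (E : Ext Ω z q) (a : Γ) {b f : Γ} (hb : b ∈ Ω) (hf : f ∈ Ω) :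
    ⁅a * b, f⁆ = ⁅b, f⁆ * ⁅a, f⁆ := by
  have h := (step_cen E (E.comm b hb f hf) a).eq
  calc ⁅a * b, f⁆ = a * ⁅b, f⁆ * (a⁻¹ * ⁅a, f⁆) := by
        simp only [commutatorElement_def]
        group
    _ = ⁅b, f⁆ * ⁅a, f⁆ := by
        rw [← h]
        group

theorem step_mul_right (E : Ext Ω z q) (a : Γ) {e b : Γ} (he : e ∈ Ω) (hb : b ∈ Ω) :
    ⁅e, a * b⁆ = ⁅e, a⁆ * ⁅e, b⁆ := by
  rw [← commutatorElement_inv, step_mul_left E a hb he, mul_inv_rev, commutatorElement_inv,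
    commutatorElement_inv]

theorem step_pow_left (E : Ext Ω z q) {a f : Γ} (ha : a ∈ Ω) (hf : f ∈ Ω) (k : ℕ) :
    ⁅a ^ k, f⁆ = ⁅a, f⁆ ^ k := by
  induction k with
  | zero => simp
  | succ k ih => rw [pow_succ, step_mul_left E _ ha hf, ih, pow_succ']

theorem step_pow_right (E : Ext Ω z q) {e a : Γ} (he : e ∈ Ω) (ha : a ∈ Ω) (k : ℕ) :
    ⁅e, a ^ k⁆ = ⁅e, a⁆ ^ k := by
  rw [← commutatorElement_inv, step_pow_left E ha he, ← inv_pow, commutatorElement_inv]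

theorem step_iff_left (E : Ext Ω z q) {a b f : Γ} (ha : a ∈ Ω) (hb : b ∈ Ω) (hf : f ∈ Ω) :
    Commute (b⁻¹ * a) f ↔ ⁅a, f⁆ = ⁅b, f⁆ := by
  have h := step_mul_left E b (Ω.mul_mem (Ω.inv_mem hb) ha) hf
  rw [mul_inv_cancel_left] at h
  rw [← commutatorElement_eq_one_iff_commute, h, mul_eq_right]

theorem step_iff_right (E : Ext Ω z q) {e a b : Γ} (he : e ∈ Ω) (ha : a ∈ Ω) (hb : b ∈ Ω) :
    Commute e (b⁻¹ * a) ↔ ⁅e, a⁆ = ⁅e, b⁆ := by
  rw [Commute.symm_iff, step_iff_left E ha hb he, ← inv_inj, commutatorElement_inv,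
    commutatorElement_inv]

theorem step_gen (E : Ext Ω z q) {d c : Γ} (hd : d ∈ Subgroup.zpowers z) (h1 : d ≠ 1)
    (hc : c ∈ Subgroup.zpowers z) : ∃ k : ℕ, d ^ k = c := by
  have := Fact.mk E.prime
  obtain ⟨k, hk⟩ := mem_powers_of_prime_card (G := Subgroup.zpowers z) (p := q)
    (by rw [Nat.card_zpowers, E.zord]) (g := ⟨d, hd⟩) (g' := ⟨c, hc⟩)
    (fun h => h1 (congrArg Subtype.val h))
  exact ⟨k, congrArg Subtype.val hk⟩

theorem step_dc1 (E : Ext Ω z q) {W : Subgroup Γ} (hW : W ≤ Ω) {a v : Γ} (ha : a ∈ Ω)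
    (hv : v ∈ Ω) (h : ∀ e ∈ W, Commute e a → Commute e v) :
    ∃ c : ℕ, ∀ e ∈ W, ⁅e, v⁆ = ⁅e, a ^ c⁆ := by
  by_cases h0 : ∀ e ∈ W, Commute e a
  · exact ⟨0, fun e he => by
      rw [commutatorElement_eq_one_iff_commute.2 (h e he (h0 e he))]
      simp⟩
  push Not at h0
  obtain ⟨e0, he0, hn⟩ := h0
  have hd := E.comm e0 (hW he0) a ha
  have h1 : ⁅e0, a⁆ ≠ 1 := fun h => hn (commutatorElement_eq_one_iff_commute.1 h)
  obtain ⟨c, hc⟩ := step_gen E hd h1 (E.comm e0 (hW he0) v hv)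
  refine ⟨c, fun e he => ?_⟩
  obtain ⟨k, hk⟩ := step_gen E hd h1 (E.comm e (hW he) a ha)
  have hp := Ω.pow_mem (hW he0) k
  have h2 := h _ (W.mul_mem (W.inv_mem (W.pow_mem he0 k)) he)
    ((step_iff_left E (hW he) hp ha).2 (by rw [step_pow_left E (hW he0) ha, hk]))
  rw [(step_iff_left E (hW he) hp hv).1 h2, step_pow_left E (hW he0) hv,
    step_pow_right E (hW he) ha, ← hc, ← hk, ← pow_mul, ← pow_mul, mul_comm]

theorem step_ins (E : Ext Ω z q) {W : Subgroup Γ} (hW : W ≤ Ω) {a v y : Γ} (ha : a ∈ Ω)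
    (hv : v ∈ Ω) (hy : y ∈ Ω) (h : ∀ e ∈ W ⊓ Subgroup.centralizer {a}, ⁅e, v⁆ = ⁅e, y⁆) :
    ∃ c : ℕ, ∀ e ∈ W, ⁅e, v⁆ = ⁅e, y * a ^ c⁆ := by
  have hv' := Ω.mul_mem (Ω.inv_mem hy) hv
  obtain ⟨c, hc⟩ := step_dc1 E hW ha hv' fun e he hea => (step_iff_right E (hW he) hv hy).2
    (h e ⟨he, Subgroup.mem_centralizer_singleton_iff.2 hea.eq⟩)
  refine ⟨c, fun e he => ?_⟩
  rw [step_mul_right E y (hW he) (Ω.pow_mem ha c), ← hc e he, ← step_mul_right E y (hW he) hv',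
    mul_inv_cancel_left]

theorem step_dc (E : Ext Ω z q) {A : Subgroup Γ} (hA : A ≤ Ω) {v : Γ} (hv : v ∈ Ω) {s : Set Γ}
    (hs : s.Finite) : s ⊆ A → ∀ W : Subgroup Γ, W ≤ Ω →
      (∀ e ∈ W, (∀ y ∈ s, Commute e y) → Commute e v) → ∃ y ∈ A, ∀ e ∈ W, ⁅e, v⁆ = ⁅e, y⁆ := by
  induction s, hs using Set.Finite.induction_on with
  | empty =>
    exact fun _ W _ h => ⟨1, A.one_mem, fun e he => by
      rw [commutatorElement_eq_one_iff_commute.2 (h e he (by simp))]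
      simp⟩
  | @insert a s _ _ ih =>
    intro hsA W hW h
    have ha : a ∈ A := hsA (Set.mem_insert _ _)
    obtain ⟨y, hy, h1⟩ := ih ((Set.subset_insert _ _).trans hsA) (W ⊓ Subgroup.centralizer {a})
      (inf_le_left.trans hW) fun e he h2 => h e he.1 (by
        rintro y (rfl | hy)
        exacts [Subgroup.mem_centralizer_singleton_iff.1 he.2, h2 y hy])
    obtain ⟨c, hc⟩ := step_ins E hW (hA ha) hv (hA hy) h1
    exact ⟨_, A.mul_mem hy (A.pow_mem ha c), hc⟩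

theorem step_center (E : Ext Ω z q) {v : Γ} (hv : v ∈ Ω) (h : ∀ e ∈ Ω, Commute e v) :
    v ∈ Subgroup.zpowers z := by
  have := E.normal
  exact E.an (Ω ⊓ Subgroup.centralizer Ω)
    ⟨inferInstance, fun a ha b hb => hb.2 a ha.1⟩
    ⟨E.zmem, fun g _ => (E.zcen g).symm.eq⟩ inf_le_left ⟨hv, fun g hg => (h g hg).eq⟩

theorem step_out (E : Ext Ω z q) {t : Γ} (ht : ¬ {c | ∃ e ∈ Ω, c = ⁅t, e⁆}.Finite)
    {A : Subgroup Γ} (hA : A ≤ Ω) (hz : z ∈ A) (hf : (A : Set Γ).Finite) :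
    ∃ j ∈ Ω, (∀ y ∈ A, Commute j y) ∧ ⁅t, j⁆ ∉ A := by
  by_contra hn
  push Not at hn
  have : Finite A := hf
  have : Finite (Subgroup.zpowers z) := Nat.finite_of_card_ne_zero (by
    rw [Nat.card_zpowers, E.zord]
    exact E.prime.ne_zero)
  let g : Ω → A → Subgroup.zpowers z := fun e y => ⟨⁅(e : Γ), (y : Γ)⁆, E.comm _ e.2 _ (hA y.2)⟩
  refine ht ((Set.finite_iUnion (f := fun φ => {c | ∃ e : Ω, g e = φ ∧ c = ⁅t, (e : Γ)⁆})
    fun φ => ?_).subset ?_)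
  · by_cases hr : ∃ r, g r = φ
    · obtain ⟨r, rfl⟩ := hr
      refine (hf.image fun y => ⁅t, (r : Γ)⁆ * y).subset ?_
      rintro c ⟨e, he, rfl⟩
      have hj := Ω.mul_mem (Ω.inv_mem r.2) e.2
      have h1 := hn _ hj fun y hy => (step_iff_left E e.2 r.2 (hA hy)).2
        (congrArg Subtype.val (congrFun he ⟨y, hy⟩))
      have h2 := Subgroup.zpowers_le.2 hz (E.comm _ r.2 _ (hA h1))
      refine ⟨_, A.mul_mem h2 h1, ?_⟩
      simp only [commutatorElement_def]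
      group
    · refine Set.finite_empty.subset ?_
      rintro c ⟨e, he, -⟩
      exact hr ⟨e, he⟩
  · rintro c ⟨e, he, rfl⟩
    exact Set.mem_iUnion.2 ⟨g ⟨e, he⟩, ⟨e, he⟩, rfl, rfl⟩

theorem step_iter (E : Ext Ω z q) {t j y : Γ} {A : Subgroup Γ} (hj : j ∈ Ω)
    (hAt : ∀ x ∈ A, t * x * t⁻¹ ∈ A) (hc : ∀ x ∈ A, Commute j x) (hy : y ∈ A) {c : ℕ}
    (h : t * j * t⁻¹ = y * j ^ c) : ⁅t, j⁆ ∈ A := by
  have := Fact.mk E.prime
  have h1 : ∀ n : ℕ, ∃ x ∈ A, t ^ n * j * (t ^ n)⁻¹ = x * j ^ c ^ n := by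
    intro n
    induction n with
    | zero => exact ⟨1, A.one_mem, by simp⟩
    | succ n ih =>
      obtain ⟨x, hx, ih⟩ := ih
      refine ⟨t * x * t⁻¹ * y ^ c ^ n, A.mul_mem (hAt x hx) (A.pow_mem hy _), ?_⟩
      calc t ^ (n + 1) * j * (t ^ (n + 1))⁻¹ = t * (t ^ n * j * (t ^ n)⁻¹) * t⁻¹ := by
            rw [pow_succ']
            group
        _ = t * x * t⁻¹ * (t * j * t⁻¹) ^ c ^ n := by
            rw [ih, conj_pow]
            simp only [mul_assoc, inv_mul_cancel_left]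
        _ = _ := by
            rw [h, ((hc y hy).symm.pow_right c).mul_pow, ← pow_mul, ← pow_succ', mul_assoc]
            simp only [mul_assoc]
  obtain ⟨a, ha⟩ := E.qp t
  obtain ⟨x, hx, h2⟩ := h1 (q ^ a)
  have h3 : j ^ c ^ q ^ a = j ^ c := pow_eq_pow_of_modEq
    ((ZMod.natCast_eq_natCast_iff _ _ q).1 (by push_cast; exact ZMod.pow_card_pow _)) (E.exp j hj)
  rw [(ha j hj).eq, mul_inv_cancel_right, h3] at h2
  have h4 : j ^ c = x⁻¹ * j := eq_inv_mul_of_mul_eq h2.symm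
  rw [commutatorElement_def, h, h4, ← mul_assoc, mul_inv_cancel_right]
  exact A.mul_mem hy (A.inv_mem hx)

end

theorem Ext.step (hLF : LF Γ) {Ω : Subgroup Γ} {z : Γ} {q : ℕ} (E : Ext Ω z q) (t : Γ)
    (ht : ¬ {c | ∃ e ∈ Ω, c = ⁅t, e⁆}.Finite) (Y : Set Γ) (hY : Y.Finite) (hYΩ : Y ⊆ Ω) :
    ∃ j ∈ Ω, ∃ j' ∈ Ω, Commute j j' ∧ ¬ Commute j (t * j' * t⁻¹) ∧
      ∀ y ∈ Y, Commute j y ∧ Commute j' y ∧ Commute j (t * y * t⁻¹) ∧
        Commute y (t * j' * t⁻¹) := by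
  let K := Subgroup.closure (insert t (insert z Y))
  have hK : (K : Set Γ).Finite := hLF _ ((hY.insert z).insert t)
  have htK : t ∈ K := Subgroup.subset_closure (Set.mem_insert _ _)
  let A := Ω ⊓ K
  have hA : A ≤ Ω := inf_le_left
  have hf : (A : Set Γ).Finite := hK.subset fun x hx => hx.2
  have hz : z ∈ A := ⟨E.zmem, Subgroup.subset_closure (by simp)⟩
  have hYA : ∀ y ∈ Y, y ∈ A := fun y hy => ⟨hYΩ hy, Subgroup.subset_closure (by simp [hy])⟩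
  have hAt : ∀ g ∈ K, ∀ x ∈ A, g * x * g⁻¹ ∈ A := fun g hg x hx =>
    ⟨E.normal.conj_mem x hx.1 g, K.mul_mem (K.mul_mem hg hx.2) (K.inv_mem hg)⟩
  obtain ⟨j', hj', hc, hn⟩ := step_out E ht hA hz hf
  have hv := E.normal.conj_mem j' hj' t
  have key : ∃ j ∈ Ω ⊓ Subgroup.centralizer {j'}, (∀ y ∈ (A : Set Γ), Commute j y) ∧
      ¬ Commute j (t * j' * t⁻¹) := by
    by_contra h
    push Not at h
    obtain ⟨y, hy, h1⟩ := step_dc E hA hv hf subset_rfl _ inf_le_left h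
    obtain ⟨c, h2⟩ := step_ins E le_rfl hj' hv (hA hy) h1
    have hw := Ω.mul_mem (hA hy) (Ω.pow_mem hj' c)
    have h3 := step_center E (Ω.mul_mem (Ω.inv_mem hw) hv) fun e he =>
      (step_iff_right E he hv hw).2 (h2 e he)
    refine hn (step_iter E hj' (hAt t htK) hc (A.mul_mem (Subgroup.zpowers_le.2 hz h3) hy)
      (c := c) ?_)
    rw [mul_assoc _ y, (step_cen E h3 _).eq, mul_inv_cancel_left]
  obtain ⟨j, hj, h1, h2⟩ := key
  refine ⟨j, hj.1, j', hj', Subgroup.mem_centralizer_singleton_iff.1 hj.2, h2, fun y hy =>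
    ⟨h1 y (hYA y hy), hc y (hYA y hy), h1 _ (hAt t htK y (hYA y hy)), ?_⟩⟩
  have h3 := (hc _ (hAt t⁻¹ (K.inv_mem htK) y (hYA y hy))).eq
  calc y * (t * j' * t⁻¹) = t * (t⁻¹ * y * t⁻¹⁻¹ * j') * t⁻¹ := by group
    _ = t * j' * t⁻¹ * y := by
        rw [← h3]
        group

end Pool.Agent.P.MP_3fd745_al.Sv
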