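import Pool.Agent.P.MP_3fd745_al.Sv.Claim

/-! The commutator of an element of order `n` with the module is `n`-primary torsion. -/

namespace Pool.Agent.P.MP_3fd745_al.Sv

variable {Γ V : Type} [Group Γ] [AddCommGroup V]

lemma tri_comap {Γ' V' : Type} [Group Γ'] [AddCommGroup V'] {ρ : Γ →* Module.End ℤ V}
    {ρ' : Γ' →* Module.End ℤ V'} (f : Γ →* Γ') (hf : Function.Surjective f)
    (h : ∀ x u, TR ρ x u → TR ρ' (f x) (f u)) (hT : Tri ρ) : Tri ρ' := fun S hS => by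
  obtain ⟨x, u, h1, h2, h3, h4, h5⟩ := hT (S.comap f) fun e => hS (by
    rw [← Subgroup.map_comap_eq_self_of_surjective hf S, e, Subgroup.map_top_of_surjective f hf])
  exact ⟨f x, f u, h1.map f, h2, h3, by simpa using h4, h x u h5⟩

lemma tors_prime (o n : ℕ) (hn : n ≠ 0) (h : ∀ k, ¬ o ∣ n ^ k) :
    ∃ l : ℕ, l.Prime ∧ l ∣ o ∧ ¬ l ∣ n := by
  by_cases ho : o = 0
  · obtain ⟨l, h1, h2⟩ := Nat.exists_infinite_primes (n + 1)
    exact ⟨l, h2, ho ▸ dvd_zero l, fun h => by have := Nat.le_of_dvd (by omega) h; omega⟩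
  by_contra hc
  push Not at hc
  refine h o ((Nat.factorization_prime_le_iff_dvd ho (pow_ne_zero _ hn)).1 fun p hp => ?_)
  by_cases hpo : p ∣ o
  · rw [Nat.factorization_pow, Finsupp.smul_apply, smul_eq_mul]
    exact (Nat.factorization_lt p ho).le.trans
      (Nat.le_mul_of_pos_right _ (hp.factorization_pos_of_dvd hn (hc p hp hpo)))
  · simp [Nat.factorization_eq_zero_of_not_dvd hpo]

theorem tors_of_tri [Group.IsSolvable Γ] (hT : TON Γ) (ρ : Γ →* Module.End ℤ V) (hTri : Tri ρ)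
    (g : Γ) (n : ℕ) (hn : n ≠ 0) (hg : g ^ n = 1) (u : V) :
    ∃ k : ℕ, n ^ k • (ρ g u - u) = 0 := by
  by_contra hc
  set v := ρ g u - u with hv
  obtain ⟨l, hl, hlo, hln⟩ := tors_prime (addOrderOf v) n hn fun k h =>
    hc ⟨k, addOrderOf_dvd_iff_nsmul_eq_zero.1 h⟩
  let W₀ := Submodule.span ℤ {y | ∃ i ∈ ({(l : ℤ)} : Set ℤ), ∃ g,
    y = (algebraMap ℤ (Module.End ℤ V)) i (ρ g v)}
  have hW₀ : v ∉ W₀ := fun h => by
    obtain ⟨r, h1, h2⟩ := nak (lf_of_solvable hT.fin) ρ ℤ (algebraMap _ _) (Ideal.span {(l : ℤ)})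
      {(l : ℤ)} (fun g i hi => ⟨i, Ideal.subset_span hi, fun x => by simp⟩) v h
    have h3 : (l : ℤ) ∣ r := (Int.natCast_dvd_natCast.2 hlo).trans
      (addOrderOf_dvd_iff_zsmul_eq_zero.2 (by simpa using h2))
    have h4 := dvd_sub h3 (Ideal.mem_span_singleton.1 h1)
    rw [sub_sub_cancel] at h4
    exact hl.one_lt.ne' (by exact_mod_cast Int.eq_one_of_dvd_one (by positivity) h4)
  have hW₀' : ∀ g, ∀ y ∈ W₀, ρ g y ∈ W₀ := fun g y hy => by
    refine Submodule.span_le.2 (show _ ⊆ ((W₀.comap (ρ g) : Submodule ℤ V) : Set V) from ?_) hy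
    rintro _ ⟨i, hi, g', rfl⟩
    exact Submodule.subset_span ⟨i, hi, g * g', by simp⟩
  obtain ⟨W, -, ⟨hW1, hW2, hW3⟩, hmax⟩ := zorn_le_nonempty₀
    {W : Submodule ℤ V | (∀ g, ∀ y ∈ W, ρ g y ∈ W) ∧ W₀ ≤ W ∧ v ∉ W}
    (fun c hc hch y hy => ⟨sSup c, ⟨fun g x hx => by
        obtain ⟨p, hp, hx⟩ := (Submodule.mem_sSup_of_directed ⟨y, hy⟩ hch.directedOn).1 hx
        exact le_sSup hp ((hc hp).1 g x hx), (hc hy).2.1.trans (le_sSup hy), fun h => by
        obtain ⟨p, hp, hx⟩ := (Submodule.mem_sSup_of_directed ⟨y, hy⟩ hch.directedOn).1 h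
        exact (hc hp).2.2 hx⟩, fun z hz => le_sSup hz⟩) W₀ ⟨hW₀', le_rfl, hW₀⟩
  let ρ₁ := Representation.quotient ρ W hW1
  have h₁ : ∀ g y, ρ₁ g (W.mkQ y) = W.mkQ (ρ g y) := fun _ _ => rfl
  let A := Submodule.span ℤ (Set.range fun g => W.mkQ (ρ g v))
  have hA : ∀ g, A ≤ A.comap (ρ₁ g) := fun g => Submodule.span_le.2 (by
    rintro _ ⟨g', rfl⟩
    exact Submodule.subset_span ⟨g * g', congrArg W.mkQ (rho_mul ρ g g' v)⟩)
  let ρ₂ := Representation.subrepresentation ρ₁ A hA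
  let ρ₃ : Γ ⧸ ρ₂.ker →* Module.End ℤ A := QuotientGroup.lift ρ₂.ker ρ₂ le_rfl
  have h₃ : ∀ (g : Γ) (a : A), (ρ₃ (QuotientGroup.mk' _ g) a : V ⧸ W) = ρ₁ g a := fun _ _ => rfl
  have hs := QuotientGroup.mk'_surjective ρ₂.ker
  have hvA : W.mkQ v ∈ A := Submodule.subset_span ⟨1, by simp⟩
  have key := claim (hT.of_surj _ hs) ρ₃ ((injective_iff_map_eq_one _).2 fun a ha => by
      obtain ⟨a, rfl⟩ := hs a
      exact (QuotientGroup.eq_one_iff a).2 ha) (fun W' hW' => ?_) l hl (fun a => ?_)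
    (tri_comap _ hs (fun x u h w => ?_) hTri)
  · have h1 : ∀ g, ρ g v - v ∈ W := fun g => by
      have := h₃ g ⟨_, hvA⟩
      rw [key (QuotientGroup.mk' _ g), map_one] at this
      exact (Submodule.Quotient.eq W).1 this.symm
    have h2 : ∀ k : ℕ, ρ (g ^ k) u - u - k • v ∈ W := fun k => by
      induction k with
      | zero => simp
      | succ k ih =>
        convert W.add_mem ih (h1 (g ^ k)) using 1
        rw [pow_succ, rho_mul, hv, map_sub, succ_nsmul]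
        abel
    have h3 : n • v ∈ W := by simpa [hg] using h2 n
    have h4 : l • v ∈ W := hW2 (Submodule.subset_span ⟨l, rfl, 1, by simp⟩)
    obtain ⟨a, b, e⟩ := Nat.isCoprime_iff_coprime.2 (hl.coprime_iff_not_dvd.2 hln)
    refine hW3 ?_
    convert W.add_mem (W.smul_mem a h4) (W.smul_mem b h3) using 1
    rw [← natCast_zsmul, ← natCast_zsmul, smul_smul, smul_smul, ← add_smul, e, one_smul]
  · by_cases h0 : W' = ⊥
    · exact Or.inl h0
    right
    let W'' := (W'.map A.subtype).comap W.mkQ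
    have hle : W ≤ W'' := Submodule.le_comap_mkQ _ _
    have hinv : ∀ g, ∀ y ∈ W'', ρ g y ∈ W'' := by
      rintro g y ⟨a, ha, e⟩
      exact ⟨_, hW' (QuotientGroup.mk' _ g) a ha, (h₃ g a).trans (by rw [← h₁, ← e]; rfl)⟩
    have hv' : v ∈ W'' := by
      by_contra h
      refine h0 ((Submodule.eq_bot_iff _).2 fun a ha => Subtype.ext ?_)
      obtain ⟨y, hy⟩ := W.mkQ_surjective a
      have : y ∈ W := hmax ⟨hinv, hW2.trans hle, h⟩ hle ⟨a, ha, hy.symm⟩
      rw [← hy]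
      exact (Submodule.Quotient.mk_eq_zero W).2 this
    have : A ≤ W'.map A.subtype := Submodule.span_le.2 (by
      rintro _ ⟨g, rfl⟩
      exact hinv g v hv')
    refine Submodule.eq_top_iff'.2 fun a => ?_
    obtain ⟨b, hb, e⟩ := this a.2
    rwa [← show b = a from Subtype.ext e]
  · obtain ⟨a, ha⟩ := a
    refine Subtype.ext ?_
    change l • a = 0
    induction ha using Submodule.span_induction with
    | mem y hy =>
      obtain ⟨g, rfl⟩ := hy
      rw [← map_nsmul]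
      exact (Submodule.Quotient.mk_eq_zero W).2
        (hW2 (Submodule.subset_span ⟨l, rfl, g, by simp⟩))
    | zero => simp
    | add x y _ _ hx hy => rw [smul_add, hx, hy, add_zero]
    | smul c x _ hx => rw [smul_comm, hx, smul_zero]
  · obtain ⟨y, hy⟩ := W.mkQ_surjective w
    obtain ⟨s, e1, e2⟩ := h y
    refine ⟨QuotientGroup.mk' _ s, Subtype.ext ?_, Subtype.ext ?_⟩ <;>
      simp only [Submodule.coe_add, h₃, ← hy, h₁, ← map_add, e1, e2]

end Pool.Agent.P.MP_3fd745_al.Sv
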